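import Pool.Agent.H.MP_1b807b_an.RI.Defs
import Pool.Agent.H.MP_1b807b_an.HO.PlanarData

/-! MP_1b807b_an, rigidity (RI), module AnnA: two lemmas -/

set_option autoImplicit false

namespace Pool.Agent.RH

open MeasureTheory Metric Set Filter Pool.Agent.RG Pool.Agent.RA Pool.Agent.RP
open scoped Topology

/-- PROOF: image of `(a, b) × sphere` under a continuous map (`isPreconnected_sphere`, the rank of `E 2` is `2`). -/
theorem ann_conn (c : E 2) {a b : ℝ} (ha : 0 ≤ a) : IsPreconnected {x : E 2 | a < dist x c ∧ dist x c < b} := by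
  have hr : 1 < Module.rank ℝ (E 2) := by
    have h0 : Module.finrank ℝ (E 2) = 2 := by simp
    rw [← Module.finrank_eq_rank, h0]
    norm_num
  have h1 : IsPreconnected (Ioo a b ×ˢ sphere (0 : E 2) 1) :=
    isPreconnected_Ioo.prod (isPreconnected_sphere hr 0 1)
  have h2 : {x : E 2 | a < dist x c ∧ dist x c < b} =
      (fun p : ℝ × E 2 => c + p.1 • p.2) '' (Ioo a b ×ˢ sphere (0 : E 2) 1) := by
    ext x
    constructor
    · rintro ⟨h3, h4⟩
      have hpos : 0 < dist x c := lt_of_le_of_lt ha h3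
      refine ⟨(dist x c, (dist x c)⁻¹ • (x - c)), ⟨⟨h3, h4⟩, ?_⟩, ?_⟩
      · rw [mem_sphere_zero_iff_norm]
        show ‖(dist x c)⁻¹ • (x - c)‖ = 1
        rw [norm_smul, norm_inv, Real.norm_eq_abs, abs_of_pos hpos, ← dist_eq_norm,
          inv_mul_cancel₀ hpos.ne']
      · show c + dist x c • (dist x c)⁻¹ • (x - c) = x
        rw [smul_smul, mul_inv_cancel₀ hpos.ne', one_smul]
        abel
    · rintro ⟨⟨t, y⟩, ⟨ht, hy⟩, rfl⟩
      have ht0 : 0 < t := lt_of_le_of_lt ha ht.1
      have hy1 : ‖y‖ = 1 := mem_sphere_zero_iff_norm.1 hy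
      have h5 : dist (c + t • y) c = t := by
        rw [dist_eq_norm, add_sub_cancel_left, norm_smul, hy1, Real.norm_eq_abs, abs_of_pos ht0,
          mul_one]
      show a < dist (c + t • y) c ∧ dist (c + t • y) c < b
      rw [h5]
      exact ht
  rw [h2]
  exact h1.image _ (by fun_prop : Continuous fun p : ℝ × E 2 => c + p.1 • p.2).continuousOn

/-- PROOF: otherwise every point at distance `< T` of `S₀` is in `S₀` (`PData.cover`, `hfar`), so `S₀` is open and
closed, nonempty, hence everything; but `D.carrier` is nonempty and disjoint from `S₀`. -/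
theorem collar_ne {D : Domain 2} {S₀ : Set (E 2)} {r : ℝ} {N : ℕ} {K : Fin N → Set (E 2)}
    (P : PData D S₀ r N K) {T : ℝ} (hT : 0 < T) (hfar : ∀ i, ∀ y ∈ K i, T ≤ infDist y S₀) :
    ∃ z, z ∈ D.carrier ∧ infDist z S₀ < T := by
  by_contra hcon
  push Not at hcon
  have h1 : S₀ = {x | infDist x S₀ < T} := by
    ext x
    constructor
    · intro hx
      show infDist x S₀ < T
      rw [infDist_zero_of_mem hx]
      exact hT
    · intro hx
      by_contra hxs
      have h2 : x ∈ D.carrier ∪ ⋃ i, K i := by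
        rw [P.cover]
        exact hxs
      rcases h2 with h2 | h2
      · exact absurd hx (not_lt.2 (hcon x h2))
      · obtain ⟨i, hi⟩ := mem_iUnion.1 h2
        exact absurd hx (not_lt.2 (hfar i x hi))
  have h3 : IsOpen S₀ := by
    rw [h1]
    exact isOpen_lt (continuous_infDist_pt S₀) continuous_const
  have h4 : S₀ = univ := IsClopen.eq_univ ⟨P.outer.closed, h3⟩ P.outer.ne
  obtain ⟨z, hz⟩ := D.isConnected.nonempty
  have h5 := P.outer.sub hz
  rw [h4] at h5
  exact h5 (mem_univ z)

end Pool.Agent.RH
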