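import Pool.Agent.H.MP_1b807b_an.RI.Defs
import Pool.Agent.H.MP_1b807b_an.HO.PlanarData

/-! MP_1b807b_an, rigidity (RI), module AnnB: a full annulus makes `D` a disc with holes -/

set_option autoImplicit false

namespace Pool.Agent.RH

open MeasureTheory Metric Set Filter Pool.Agent.RG Pool.Agent.RA Pool.Agent.RP
open scoped Topology

/-- PROOF: a point `y ∈ S₀` lies in an unbounded component of `D.carrierᶜ` (a bounded one would be a hole, i.e. some
`K i`, disjoint from `S₀`); this component does not meet the circle `dist x c = (rm + r₂) / 2`, so it lies outside. -/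
theorem annb_in {D : Domain 2} {S₀ : Set (E 2)} {r : ℝ} {N : ℕ} {K : Fin N → Set (E 2)}
    (P : PData D S₀ r N K) {c : E 2} {rm r₂ : ℝ} (h12 : rm < r₂)
    (hA : ∀ x, rm < dist x c → dist x c < r₂ → x ∈ D.carrier ∧ infDist x S₀ = r₂ - dist x c) :
    ball c r₂ ⊆ S₀ᶜ := by
  intro y hy hyS
  have hyc : y ∈ D.carrierᶜ := by
    intro h
    have h1 : y ∈ S₀ᶜ := by
      rw [← P.cover]
      exact Or.inl h
    exact h1 hyS
  rw [mem_ball] at hy
  have hyr : dist y c ≤ rm := by
    by_contra hcon
    push Not at hcon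
    exact hyc (hA y hcon hy).1
  obtain ⟨ρ, hρ1, hρ2⟩ := exists_between h12
  have hsub : connectedComponentIn D.carrierᶜ y ⊆ ball c ρ := by
    have h1 : connectedComponentIn D.carrierᶜ y ⊆ ball c ρ ∪ (closedBall c ρ)ᶜ := by
      intro x hx
      have hxD := connectedComponentIn_subset _ _ hx
      rcases lt_trichotomy (dist x c) ρ with h | h | h
      · exact Or.inl h
      · exact absurd (hA x (by rw [h]; exact hρ1) (by rw [h]; exact hρ2)).1 hxD
      · exact Or.inr fun h' => absurd (mem_closedBall.1 h') (not_le.2 h)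
    refine isPreconnected_connectedComponentIn.subset_left_of_subset_union isOpen_ball
      isClosed_closedBall.isOpen_compl ?_ h1 ⟨y, mem_connectedComponentIn hyc, ?_⟩
    · exact disjoint_compl_right.mono_left ball_subset_closedBall
    · exact lt_of_le_of_lt hyr hρ1
  have hhole : connectedComponentIn D.carrierᶜ y ∈ holes D :=
    ⟨isBounded_ball.subset hsub, y, hyc, rfl⟩
  rw [← P.range_eq] at hhole
  obtain ⟨i, hi⟩ := hhole
  refine Set.disjoint_left.1 (P.disj0 i) ?_ hyS
  rw [hi]
  exact mem_connectedComponentIn hyc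

end Pool.Agent.RH
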