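import Pool.Agent.H.MP_1b807b_an.RI.AnnA

/-! MP_1b807b_an, rigidity (RI), module AnnC: the component of the collar is an annulus -/

set_option autoImplicit false

namespace Pool.Agent.RH

open MeasureTheory Metric Set Filter Pool.Agent.RG Pool.Agent.RA Pool.Agent.RP
open scoped Topology

/-- PROOF: let `U = {x | x ∈ D.carrier ∧ infDist x S₀ < r₂ - rm}` (open), `C` its component of `z`,
`𝒜` the annulus. `C ⊆ 𝒜` (`0 < infDist x S₀ < r₂ - rm` on `U`). `C` is open (`IsOpen.connectedComponentIn`).
`𝒜 \ C` is open: let `y ∈ 𝒜 \ C`; if `y ∈ closure C`, then by continuity `r₂ - infDist y S₀ = dist y c`, so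
`0 < infDist y S₀ < r₂ - rm`, `y ∉ S₀`; by `hfar` `y` is in no `K i`, so `y ∈ D.carrier` (`PData.cover`), `y ∈ U`, and `C` is
relatively closed in `U` (the component of `y` in `U` is open and would meet `C`): `y ∈ C`, a contradiction. So `𝒜 ⊆ C` by
`ann_conn`. -/
theorem ann_sub {D : Domain 2} {S₀ : Set (E 2)} {r : ℝ} {N : ℕ} {K : Fin N → Set (E 2)}
    (P : PData D S₀ r N K) {rm r₂ : ℝ} (h0 : 0 ≤ rm) (h12 : rm < r₂) {z c : E 2}
    (hz : z ∈ D.carrier ∧ infDist z S₀ < r₂ - rm)
    (hd : ∀ x ∈ connectedComponentIn {x | x ∈ D.carrier ∧ infDist x S₀ < r₂ - rm} z,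
      r₂ - infDist x S₀ = dist x c)
    (hfar : ∀ i, ∀ y ∈ K i, r₂ - rm ≤ infDist y S₀) :
    ∀ x, rm < dist x c → dist x c < r₂ → x ∈ D.carrier ∧ infDist x S₀ = r₂ - dist x c := by
  set U : Set (E 2) := {x | x ∈ D.carrier ∧ infDist x S₀ < r₂ - rm} with hU
  have hUo : IsOpen U := D.isOpen.inter (isOpen_lt (continuous_infDist_pt S₀) continuous_const)
  set C := connectedComponentIn U z with hC
  have hzU : z ∈ U := hz
  have hCo : IsOpen C := hUo.connectedComponentIn
  have hzC : z ∈ C := mem_connectedComponentIn hzU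
  have hCU : C ⊆ U := connectedComponentIn_subset _ _
  have hpos : ∀ x ∉ S₀, 0 < infDist x S₀ := fun x hx =>
    (P.outer.closed.notMem_iff_infDist_pos P.outer.ne).1 hx
  set A : Set (E 2) := {x | rm < dist x c ∧ dist x c < r₂} with hA
  have hCA : C ⊆ A := by
    intro x hx
    have h1 := hd x hx
    have h2 := hCU hx
    have h3 := hpos x (P.outer.sub h2.1)
    have h4 : infDist x S₀ < r₂ - rm := h2.2
    exact ⟨by linarith, by linarith⟩
  have hcl : closure C ∩ A ⊆ C := by
    rintro y ⟨hy, hyA⟩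
    have h1 : r₂ - infDist y S₀ = dist y c := by
      have hcl2 : IsClosed {x : E 2 | r₂ - infDist x S₀ = dist x c} :=
        isClosed_eq (continuous_const.sub (continuous_infDist_pt S₀))
          (continuous_id.dist continuous_const)
      exact closure_minimal (fun x hx => hd x hx) hcl2 hy
    have h2 : 0 < infDist y S₀ := by linarith [hyA.2]
    have h3 : infDist y S₀ < r₂ - rm := by linarith [hyA.1]
    have h4 : y ∉ S₀ := fun h => h2.ne' (infDist_zero_of_mem h)
    have h5 : y ∈ D.carrier := by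
      have h6 : y ∈ D.carrier ∪ ⋃ i, K i := by
        rw [P.cover]
        exact h4
      rcases h6 with h6 | h6
      · exact h6
      · obtain ⟨i, hi⟩ := mem_iUnion.1 h6
        exact absurd h3 (not_lt.2 (hfar i y hi))
    have hyU : y ∈ U := ⟨h5, h3⟩
    have h7 : IsOpen (connectedComponentIn U y) := hUo.connectedComponentIn
    obtain ⟨w, hw1, hw2⟩ := mem_closure_iff.1 hy _ h7 (mem_connectedComponentIn hyU)
    have h8 : connectedComponentIn U y = connectedComponentIn U w := connectedComponentIn_eq hw1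
    have h9 : C = connectedComponentIn U w := connectedComponentIn_eq hw2
    rw [h9, ← h8]
    exact mem_connectedComponentIn hyU
  have hsub : A ⊆ C :=
    (ann_conn c h0).subset_of_closure_inter_subset hCo ⟨z, hCA hzC, hzC⟩ hcl
  intro x hx1 hx2
  have hx := hsub (show x ∈ A from ⟨hx1, hx2⟩)
  exact ⟨(hCU hx).1, by linarith [hd x hx]⟩

end Pool.Agent.RH
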