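import Pool.Agent.H.MP_1b807b_an.RI.AnnB

/-! MP_1b807b_an, rigidity (RI), module AnnD: a full annulus makes `D` a disc with holes -/

set_option autoImplicit false

namespace Pool.Agent.RH

open MeasureTheory Metric Set Filter Pool.Agent.RG Pool.Agent.RA Pool.Agent.RP
open scoped Topology

/-- PROOF: the circle `dist x c = r₂` is in `S₀` (`infDist x S₀ = 0` by continuity from inside, `S₀` closed; `r₂ > 0`). `D.carrier`
is connected, disjoint from the circle and meets the ball, so `D.carrier ⊆ ball c r₂`. If `K i` has a point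
with `dist ≥ r₂`, then (`K i` is a component, so connected, and disjoint from the circle) all its points have
`dist > r₂`; at a frontier point `y` of the compact set `K i` there are points `x ∉ K i` arbitrarily close to `y`, which are in
`D.carrier` by `PData.iso`, so `dist y c ≤ r₂`, a contradiction. Then `PData.cover`. -/
theorem annb_out {D : Domain 2} {S₀ : Set (E 2)} {r : ℝ} {N : ℕ} {K : Fin N → Set (E 2)}
    (P : PData D S₀ r N K) {c : E 2} {rm r₂ : ℝ} (h0 : 0 ≤ rm) (h12 : rm < r₂)
    (hA : ∀ x, rm < dist x c → dist x c < r₂ → x ∈ D.carrier ∧ infDist x S₀ = r₂ - dist x c) :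
    S₀ᶜ ⊆ ball c r₂ := by
  have hr₂ : 0 < r₂ := lt_of_le_of_lt h0 h12
  have hsph : ∀ x : E 2, dist x c = r₂ → x ∈ S₀ := by
    intro x hx
    by_contra hxS
    have hpos : 0 < infDist x S₀ :=
      (P.outer.closed.notMem_iff_infDist_pos P.outer.ne).1 hxS
    obtain ⟨t, ht0, ht1, ht2, ht3⟩ : ∃ t : ℝ, 0 < t ∧ t < 1 ∧ rm < t * r₂ ∧
        2 * ((1 - t) * r₂) < infDist x S₀ := by
      have hm : 0 < min ((r₂ - rm) / (2 * r₂)) (infDist x S₀ / (4 * r₂)) := by
        refine lt_min ?_ ?_
        · exact div_pos (by linarith) (by linarith)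
        · exact div_pos hpos (by linarith)
      set m := min ((r₂ - rm) / (2 * r₂)) (infDist x S₀ / (4 * r₂)) with hmd
      have h1 : m ≤ (r₂ - rm) / (2 * r₂) := min_le_left _ _
      have h2 : m ≤ infDist x S₀ / (4 * r₂) := min_le_right _ _
      rw [le_div_iff₀ (by linarith)] at h1 h2
      refine ⟨1 - m, ?_, by linarith, ?_, ?_⟩
      · by_contra hcon
        nlinarith
      · nlinarith
      · nlinarith
    have hxt : dist (c + t • (x - c)) c = t * r₂ := by
      rw [dist_eq_norm, add_sub_cancel_left, norm_smul, Real.norm_of_nonneg ht0.le,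
        ← dist_eq_norm, hx]
    have hxx : dist x (c + t • (x - c)) = (1 - t) * r₂ := by
      have h1 : x - (c + t • (x - c)) = (1 - t) • (x - c) := by
        rw [sub_smul, one_smul]
        abel
      rw [dist_eq_norm, h1, norm_smul, Real.norm_of_nonneg (by linarith), ← dist_eq_norm, hx]
    have h1 := (hA (c + t • (x - c)) (by rw [hxt]; exact ht2)
      (by rw [hxt]; nlinarith)).2
    have h2 : infDist x S₀ ≤ infDist (c + t • (x - c)) S₀ + dist x (c + t • (x - c)) :=
      infDist_le_infDist_add_dist
    rw [h1, hxt, hxx] at h2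
    linarith
  have hD : D.carrier ⊆ ball c r₂ := by
    obtain ⟨e, he⟩ : ∃ e : E 2, ‖e‖ = (rm + r₂) / 2 :=
      exists_norm_eq (E 2) (by linarith)
    have hp : dist (c + e) c = (rm + r₂) / 2 := by
      rw [dist_eq_norm, add_sub_cancel_left, he]
    have hpD : c + e ∈ D.carrier := (hA (c + e) (by rw [hp]; linarith)
      (by rw [hp]; linarith)).1
    refine D.isConnected.isPreconnected.subset_left_of_subset_union isOpen_ball
      (isClosed_closedBall (x := c) (ε := r₂)).isOpen_compl ?_ ?_ ⟨c + e, hpD, ?_⟩
    · rw [Set.disjoint_left]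
      intro z hz hz2
      exact hz2 (ball_subset_closedBall hz)
    · intro z hz
      rcases lt_trichotomy (dist z c) r₂ with h | h | h
      · exact Or.inl (mem_ball.2 h)
      · exact absurd (hsph z h) (P.outer.sub hz)
      · refine Or.inr fun h2 => ?_
        rw [mem_closedBall] at h2
        linarith
    · rw [mem_ball, hp]
      linarith
  have hK : ∀ i, K i ⊆ ball c r₂ := by
    intro i
    rcases (K i).eq_empty_or_nonempty with hE | hne
    · rw [hE]
      exact empty_subset _
    obtain ⟨y, hy, hmax⟩ := (P.compact i).exists_isMaxOn hne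
      (continuous_id.dist continuous_const : Continuous fun z : E 2 => dist z c).continuousOn
    have hmax' : ∀ z ∈ K i, dist z c ≤ dist y c := fun z hz => hmax hz
    have hyr : dist y c < r₂ := by
      by_contra hcon
      have hcon2 : r₂ ≤ dist y c := not_lt.1 hcon
      have hyp : 0 < dist y c := lt_of_lt_of_le hr₂ hcon2
      obtain ⟨ε, hε, hiso⟩ := P.iso
      have hδ : 0 < ε / (2 * dist y c) := div_pos hε (by linarith)
      set δ := ε / (2 * dist y c) with hδd
      have hδe : δ * dist y c = ε / 2 := by
        rw [hδd]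
        field_simp
      have h1 : dist (y + δ • (y - c)) y = ε / 2 := by
        rw [dist_eq_norm, add_sub_cancel_left, norm_smul, Real.norm_of_nonneg hδ.le,
          ← dist_eq_norm, hδe]
      have h2 : dist (y + δ • (y - c)) c = dist y c + ε / 2 := by
        have h3 : y + δ • (y - c) - c = (1 + δ) • (y - c) := by
          rw [add_smul, one_smul]
          abel
        rw [dist_eq_norm, h3, norm_smul, Real.norm_of_nonneg (by linarith), ← dist_eq_norm,
          add_mul, one_mul, hδe]
      have h4 : y + δ • (y - c) ∉ K i := by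
        intro h5
        have h6 := hmax' _ h5
        rw [h2] at h6
        linarith
      have h5 : infDist (y + δ • (y - c)) (K i) < ε := by
        have h6 := infDist_le_dist_of_mem (x := y + δ • (y - c)) hy
        rw [h1] at h6
        linarith
      have h6 := mem_ball.1 (hD (hiso i _ h5 h4))
      rw [h2] at h6
      linarith
    intro z hz
    exact mem_ball.2 (lt_of_le_of_lt (hmax' z hz) hyr)
  rw [← P.cover]
  exact union_subset hD (iUnion_subset hK)

theorem topo_ball {D : Domain 2} {S₀ : Set (E 2)} {r : ℝ} {N : ℕ} {K : Fin N → Set (E 2)}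
    (P : PData D S₀ r N K) {c : E 2} {rm r₂ : ℝ} (h0 : 0 ≤ rm) (h12 : rm < r₂)
    (hA : ∀ x, rm < dist x c → dist x c < r₂ → x ∈ D.carrier ∧ infDist x S₀ = r₂ - dist x c) :
    D.carrier ∪ ⋃₀ holes D = ball c r₂ := by
  rw [← P.range_eq, sUnion_range, P.cover]
  exact (annb_out P h0 h12 hA).antisymm (annb_in P h12 hA)

end Pool.Agent.RH
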