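import Pool.Agent.H.MP_1b807b_an.RI.Defs

/-! MP_1b807b_an, rigidity (RI), module BallI: integrals over balls -/

set_option autoImplicit false

namespace Pool.Agent.RH

open MeasureTheory Metric Set Filter Pool.Agent.RG
open scoped RealInnerProductSpace Topology

variable {n : ℕ}

/-- PROOF: the substitution `y ↦ 2 x₀ - y` preserves the ball and the measure. -/
theorem ball_odd (x₀ v : E n) (s : ℝ) : ∫ y in ball x₀ s, ⟪v, y - x₀⟫ = 0 := by
  have h1 := (Measure.measurePreserving_sub_left (volume : Measure (E n)) (x₀ + x₀)).setIntegral_preimage_emb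
    (Homeomorph.subLeft (x₀ + x₀)).measurableEmbedding (fun y => ⟪v, y - x₀⟫) (ball x₀ s)
  have h2 : (fun y : E n => x₀ + x₀ - y) ⁻¹' ball x₀ s = ball x₀ s := by
    ext y
    rw [mem_preimage, mem_ball_iff_norm, mem_ball_iff_norm]
    have h3 : x₀ + x₀ - y - x₀ = -(y - x₀) := by abel
    rw [h3, norm_neg]
  rw [h2] at h1
  have h4 : ∫ y in ball x₀ s, ⟪v, x₀ + x₀ - y - x₀⟫ = -∫ y in ball x₀ s, ⟪v, y - x₀⟫ := by
    rw [← integral_neg]
    congr 1
    funext y
    have h3 : x₀ + x₀ - y - x₀ = -(y - x₀) := by abel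
    rw [h3, inner_neg_right]
  rw [h4] at h1
  linarith

private theorem BallI_rad (hn : 0 < n) (x₀ : E n) {s : ℝ} (hs : 0 < s) (g : ℝ → ℝ) :
    ∫ y in ball x₀ s, g ‖y - x₀‖ =
      n * (volume.real (ball (0 : E n) 1) * ∫ t in (0 : ℝ)..s, t ^ (n - 1) * g t) := by
  have : Nonempty (Fin n) := ⟨⟨0, hn⟩⟩
  have : Nontrivial (E n) := inferInstance
  have h1 : ∫ y in ball x₀ s, g ‖y - x₀‖ =
      ∫ y : E n, (Iio s).indicator g ‖y - x₀‖ := by
    rw [← integral_indicator measurableSet_ball]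
    refine integral_congr_ae (Eventually.of_forall fun y => ?_)
    change (ball x₀ s).indicator (fun y => g ‖y - x₀‖) y = (Iio s).indicator g ‖y - x₀‖
    by_cases hy : y ∈ ball x₀ s
    · rw [indicator_of_mem hy, indicator_of_mem]
      exact mem_ball_iff_norm.mp hy
    · rw [indicator_of_notMem hy, indicator_of_notMem]
      exact fun h2 => hy (mem_ball_iff_norm.mpr h2)
  have h2 : ∫ y : E n, (Iio s).indicator g ‖y - x₀‖ = ∫ y : E n, (Iio s).indicator g ‖y‖ :=
    integral_sub_right_eq_self (fun y : E n => (Iio s).indicator g ‖y‖) x₀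
  have h3 := integral_fun_norm_addHaar (volume : Measure (E n)) ((Iio s).indicator g)
  rw [finrank_euclideanSpace_fin] at h3
  have h4 : ∫ t in Ioi (0 : ℝ), t ^ (n - 1) • (Iio s).indicator g t =
      ∫ t in (0 : ℝ)..s, t ^ (n - 1) * g t := by
    rw [intervalIntegral.integral_of_le hs.le, integral_Ioc_eq_integral_Ioo]
    have h5 : (fun t : ℝ => t ^ (n - 1) • (Iio s).indicator g t) =
        (Iio s).indicator fun t => t ^ (n - 1) * g t := by
      funext t
      by_cases ht : t ∈ Iio s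
      · rw [indicator_of_mem ht, indicator_of_mem ht, smul_eq_mul]
      · rw [indicator_of_notMem ht, indicator_of_notMem ht, smul_zero]
    rw [h5, setIntegral_indicator measurableSet_Iio, Ioi_inter_Iio]
  rw [h1, h2, h3, h4, nsmul_eq_mul, smul_eq_mul]

/-- PROOF: translate to `x₀ = 0`. Let `V t = volume.real (ball 0 t) = ω t ^ n`. Layer cake (or Fubini):
`∫_{|y| < s} (s² - |y|²) = ∫_{|y| < s} ∫_{|y|}^{s} 2 t dt = ∫_0^s 2 t V(t) dt = 2 ω s ^ (n+2) / (n+2)`, and
`∫_{|y| < s} |y|² = s² ω s ^ n - 2 ω s ^ (n+2) / (n+2) = n ω s ^ (n+2) / (n+2)`. Alternatives: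
`MeasureTheory.integral_fun_norm_addHaar` (polar coordinates), or the derivative in `s`. -/
theorem ball_moment (hn : 0 < n) (x₀ : E n) {s : ℝ} (hs : 0 < s) :
    ∫ y in ball x₀ s, ‖y - x₀‖ ^ 2 = (n : ℝ) / 2 * ∫ y in ball x₀ s, (s ^ 2 - ‖y - x₀‖ ^ 2) := by
  obtain ⟨m, rfl⟩ : ∃ m, n = m + 1 := ⟨n - 1, by omega⟩
  have h1 := BallI_rad hn x₀ hs fun t => t ^ 2
  have h2 := BallI_rad hn x₀ hs fun t => s ^ 2 - t ^ 2
  have h3 : ∫ t in (0 : ℝ)..s, t ^ (m + 1 - 1) * t ^ 2 = s ^ (m + 3) / (m + 3) := by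
    have h5 : (fun t : ℝ => t ^ (m + 1 - 1) * t ^ 2) = fun t => t ^ (m + 2) := by
      funext t
      rw [Nat.add_sub_cancel, ← pow_add]
    rw [h5, integral_pow]
    push_cast
    rw [zero_pow (by omega), sub_zero]
    congr 1
    ring
  have h4 : ∫ t in (0 : ℝ)..s, t ^ (m + 1 - 1) * (s ^ 2 - t ^ 2) =
      s ^ 2 * (s ^ (m + 1) / (m + 1)) - s ^ (m + 3) / (m + 3) := by
    have h5 : (fun t : ℝ => t ^ (m + 1 - 1) * (s ^ 2 - t ^ 2)) =
        fun t => s ^ 2 * t ^ m - t ^ (m + 1 - 1) * t ^ 2 := by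
      funext t
      rw [Nat.add_sub_cancel]
      ring
    rw [h5, intervalIntegral.integral_sub, h3, intervalIntegral.integral_const_mul, integral_pow,
      zero_pow (by omega), sub_zero]
    · exact (Continuous.intervalIntegrable (by fun_prop) _ _)
    · exact (Continuous.intervalIntegrable (by fun_prop) _ _)
  rw [h1, h2, h3, h4]
  have h6 : (m : ℝ) + 1 ≠ 0 := by positivity
  have h7 : (m : ℝ) + 3 ≠ 0 := by positivity
  push_cast
  field_simp
  ring

end Pool.Agent.RH
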