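import Pool.Agent.H.MP_1b807b_an.HO.Pack

/-! MP_1b807b_an, rigidity (RI), module ProfE: the profiles, with the outer one explicit -/

set_option autoImplicit false

namespace Pool.Agent.RH

open MeasureTheory Metric Set Filter Pool.Agent.RG Pool.Agent.H.MP_1b807b_an
open scoped Topology

private theorem ProfE_mass {m : ℕ} {r₁ r₂ β k rm : ℝ} {u p : ℝ → ℝ} (hk : 0 < k)
    (h0 : 0 ≤ r₁) (g : GS m r₁ r₂ β k u p) (h1 : r₁ ≤ rm)
    (hz : p rm = 0) (hp : ∀ r, rm < r → r ≤ r₂ → 0 < p r) :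
    ∀ r ∈ Icc rm r₂, r ^ m * p r ≤ k ^ 2 * u r * ((r ^ (m + 1) - rm ^ (m + 1)) / (m + 1)) := by
  have hsub : Icc rm r₂ ⊆ Icc r₁ r₂ := Icc_subset_Icc h1 le_rfl
  have hcu : ContinuousOn u (Icc rm r₂) := g.cu.mono hsub
  have hcp : ContinuousOn p (Icc rm r₂) := g.cp.mono hsub
  have hmono : MonotoneOn (fun r => k ^ 2 * u r * ((r ^ (m + 1) - rm ^ (m + 1)) / (m + 1)) -
      r ^ m * p r) (Icc rm r₂) := by
    have hd : ∀ r ∈ Ioo rm r₂, HasDerivAt (fun r => k ^ 2 * u r *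
        ((r ^ (m + 1) - rm ^ (m + 1)) / (m + 1)) - r ^ m * p r)
        (k ^ 2 * p r * ((r ^ (m + 1) - rm ^ (m + 1)) / (m + 1))) r := by
      intro r hr
      have hr' : r ∈ Ioo r₁ r₂ := ⟨h1.trans_lt hr.1, hr.2⟩
      have hr0 : 0 < r := lt_of_le_of_lt h0 hr'.1
      have e1 := ((g.du r (Ioo_subset_Icc_self hr')).const_mul (k ^ 2)).mul
        (((hasDerivAt_pow (m + 1) r).sub_const (rm ^ (m + 1))).div_const ((m : ℝ) + 1))
      have e2 := (hasDerivAt_pow m r).mul (g.dp r hr')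
      refine (e1.sub e2).congr_deriv ?_
      have hm1 : (m : ℝ) + 1 ≠ 0 := by positivity
      rcases m with _ | m
      · simp
      · simp only [Nat.add_sub_cancel]
        push_cast at hm1 ⊢
        field_simp
        ring
    refine monotoneOn_of_deriv_nonneg (convex_Icc _ _) (by fun_prop) ?_ ?_
    · intro r hr
      rw [interior_Icc] at hr
      exact (hd r hr).differentiableAt.differentiableWithinAt
    · intro r hr
      rw [interior_Icc] at hr
      rw [(hd r hr).deriv]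
      have h3 := hp r hr.1 hr.2.le
      have h4 : rm ^ (m + 1) ≤ r ^ (m + 1) := pow_le_pow_left₀ (h0.trans h1) hr.1.le _
      have h5 : 0 ≤ r ^ (m + 1) - rm ^ (m + 1) := by linarith
      positivity
  intro r hr
  have h := hmono (left_mem_Icc.2 (hr.1.trans hr.2)) hr hr.1
  simp only [hz, sub_self, zero_div, mul_zero] at h
  linarith

/-- `outer_prof` (`HO/OuterP.lean`) with the values of the profile.
PROOF: copy of the proof there; `heq` is the extra conclusion. -/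
theorem outer_profE {m : ℕ} (hm : 1 ≤ m) {r₁ r₂ β k rm : ℝ} {u p : ℝ → ℝ} (hβ : 0 < β) (hk : 0 < k)
    (h0 : 0 ≤ r₁) (h12 : r₁ < r₂) (g : GS m r₁ r₂ β k u p) (h1 : r₁ ≤ rm) (h2 : rm < r₂)
    (hz : p rm = 0) (hp : ∀ r, rm < r → r ≤ r₂ → 0 < p r) :
    ∃ f f' : ℝ → ℝ, Prof k (u rm) (r₂ - rm) f f' ∧
      (∫ t in (0 : ℝ)..(r₂ - rm), enr k (u rm) f f' t * (r₂ - t) ^ m) - β * (r₂ ^ m * f 0 ^ 2) =
        -(k ^ 2 * u rm ^ 2 * ((r₂ ^ (m + 1) - rm ^ (m + 1)) / (m + 1))) ∧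
      ∀ t ∈ Icc 0 (r₂ - rm), f t = u (r₂ - t) := by
  have hsub : Icc rm r₂ ⊆ Icc r₁ r₂ := Icc_subset_Icc h1 le_rfl
  have hcu : ContinuousOn u (Icc rm r₂) := g.cu.mono hsub
  have hcp : ContinuousOn p (Icc rm r₂) := g.cp.mono hsub
  have hrm0 : 0 ≤ rm := h0.trans h1
  have hT : (0 : ℝ) ≤ r₂ - rm := by linarith
  have hback : ∀ t ∈ Icc (0 : ℝ) (r₂ - rm), r₂ - t ∈ Icc rm r₂ := fun t ht =>
    ⟨by linarith [ht.2], by linarith [ht.1]⟩
  obtain ⟨f, f', hder, hcont, hbdd, heq, htail⟩ := ext_prof hT (F := fun t => u (r₂ - t))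
    (F₁ := fun t => -p (r₂ - t))
    (fun t ht => HasDerivAt.comp_const_sub r₂ t (g.du (r₂ - t) (hsub (hback t ht))))
    ((hcp.comp (continuous_const.sub continuous_id).continuousOn hback).neg)
    (by simp [hz])
  have e0 : r₂ - (r₂ - rm) = rm := by ring
  simp only [e0] at htail
  -- the outer function is strictly increasing
  have hmonou : StrictMonoOn u (Icc rm r₂) := by
    refine strictMonoOn_of_deriv_pos (convex_Icc _ _) hcu ?_
    intro r hr
    rw [interior_Icc] at hr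
    rw [(g.du r (hsub (Ioo_subset_Icc_self hr))).deriv]
    exact hp r hr.1 hr.2.le
  -- the energy density is monotone in the radius
  have hE : MonotoneOn (fun r => p r ^ 2 + k ^ 2 * (u r ^ 2 - u rm ^ 2)) (Icc rm r₂) := by
    have hd : ∀ r ∈ Ioo rm r₂, HasDerivAt (fun r => p r ^ 2 + k ^ 2 * (u r ^ 2 - u rm ^ 2))
        (2 * p r * (2 * k ^ 2 * u r - m / r * p r)) r := by
      intro r hr
      have hr' : r ∈ Ioo r₁ r₂ := ⟨h1.trans_lt hr.1, hr.2⟩
      have e1 := ((g.dp r hr').pow 2).add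
        ((((g.du r (Ioo_subset_Icc_self hr')).pow 2).sub_const (u rm ^ 2)).const_mul (k ^ 2))
      refine e1.congr_deriv ?_
      push_cast
      ring
    refine monotoneOn_of_deriv_nonneg (convex_Icc _ _) (by fun_prop) ?_ ?_
    · intro r hr
      rw [interior_Icc] at hr
      exact (hd r hr).differentiableAt.differentiableWithinAt
    · intro r hr
      rw [interior_Icc] at hr
      rw [(hd r hr).deriv]
      have hr0 : 0 < r := lt_of_le_of_lt hrm0 hr.1
      have h3 := hp r hr.1 hr.2.le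
      have hu := g.pos r (hsub (Ioo_subset_Icc_self hr))
      have h4 := ProfE_mass hk h0 g h1 hz hp r (Ioo_subset_Icc_self hr)
      have hm1 : (0 : ℝ) < (m : ℝ) + 1 := by positivity
      have h5 : r ^ m * p r ≤ r ^ m * (k ^ 2 * u r * (r / (m + 1))) := by
        refine h4.trans ?_
        have h6 : (r ^ (m + 1) - rm ^ (m + 1)) / ((m : ℝ) + 1) ≤ r ^ m * (r / (m + 1)) := by
          rw [pow_succ r m, mul_div_assoc']
          gcongr
          have : 0 ≤ rm ^ (m + 1) := by positivity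
          linarith
        calc k ^ 2 * u r * ((r ^ (m + 1) - rm ^ (m + 1)) / (m + 1)) ≤
            k ^ 2 * u r * (r ^ m * (r / (m + 1))) := by gcongr
          _ = _ := by ring
      have h6 : p r ≤ k ^ 2 * u r * (r / (m + 1)) := le_of_mul_le_mul_left h5 (by positivity)
      have h7 : (m : ℝ) / r * p r ≤ k ^ 2 * u r := by
        calc (m : ℝ) / r * p r ≤ m / r * (k ^ 2 * u r * (r / (m + 1))) := by gcongr
          _ = k ^ 2 * u r * (m / (m + 1)) := by field_simp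
          _ ≤ k ^ 2 * u r * 1 := by
            gcongr
            rw [div_le_one hm1]
            linarith
          _ = _ := by ring
      have h8 : 0 ≤ 2 * k ^ 2 * u r - m / r * p r := by
        have : 0 < k ^ 2 * u r := by positivity
        nlinarith
      exact mul_nonneg (by positivity) h8
  refine ⟨f, f', ⟨hT, hder, hcont, hbdd, htail, ?_, ?_⟩, ?_, fun t ht => (heq t ht).1⟩
  · intro t ht0 ht1
    rw [(heq t ⟨ht0, ht1.le⟩).1]
    exact hmonou (left_mem_Icc.2 h2.le) (hback t ⟨ht0, ht1.le⟩) (by linarith)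
  · intro s hs t ht hst
    have h := hE (hback t ht) (hback s hs) (by linarith)
    simp only [enr, (heq t ht).1, (heq t ht).2, (heq s hs).1, (heq s hs).2, neg_sq]
    exact h
  · have hf0 : f 0 = u r₂ := by
      have := (heq 0 ⟨le_rfl, hT⟩).1
      simpa using this
    have hI : (∫ t in (0 : ℝ)..(r₂ - rm), enr k (u rm) f f' t * (r₂ - t) ^ m) =
        ∫ r in rm..r₂, (p r ^ 2 + k ^ 2 * (u r ^ 2 - u rm ^ 2)) * r ^ m := by
      have hs := intervalIntegral.integral_comp_sub_left (a := (0 : ℝ)) (b := r₂ - rm)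
        (fun r => (p r ^ 2 + k ^ 2 * (u r ^ 2 - u rm ^ 2)) * r ^ m) r₂
      rw [e0, sub_zero] at hs
      rw [← hs]
      refine intervalIntegral.integral_congr ?_
      intro t ht
      rw [uIcc_of_le hT] at ht
      simp only [enr, (heq t ht).1, (heq t ht).2, neg_sq]
    have hE2 : ∫ r in rm..r₂, r ^ m * (p r ^ 2 + k ^ 2 * u r ^ 2) = β * (r₂ ^ m * u r₂ ^ 2) := by
      have h := intervalIntegral.integral_eq_sub_of_hasDerivAt_of_le h2.le (f := fun r => r ^ m * (p r * u r))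
        (f' := fun r => r ^ m * (p r ^ 2 + k ^ 2 * u r ^ 2)) (by fun_prop) (fun r hr => by
          have hr' : r ∈ Ioo r₁ r₂ := ⟨h1.trans_lt hr.1, hr.2⟩
          have h1 := (hasDerivAt_pow m r).mul ((g.dp r hr').mul (g.du r (Ioo_subset_Icc_self hr')))
          refine h1.congr_deriv ?_
          have hr0 : 0 < r := lt_of_le_of_lt h0 hr'.1
          simp only [Pi.mul_apply]
          rcases m with _ | m
          · simp
            ring
          · simp only [Nat.add_sub_cancel]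
            push_cast
            field_simp
            ring) (by
          refine ContinuousOn.intervalIntegrable ?_
          rw [uIcc_of_le h2.le]
          fun_prop)
      rw [h, g.right, hz]
      ring
    have hP : ∫ r in rm..r₂, r ^ m = (r₂ ^ (m + 1) - rm ^ (m + 1)) / (m + 1) := integral_pow m
    have hS : (∫ r in rm..r₂, (p r ^ 2 + k ^ 2 * (u r ^ 2 - u rm ^ 2)) * r ^ m) =
        (∫ r in rm..r₂, r ^ m * (p r ^ 2 + k ^ 2 * u r ^ 2)) -
          k ^ 2 * u rm ^ 2 * ∫ r in rm..r₂, r ^ m := by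
      rw [← intervalIntegral.integral_const_mul, ← intervalIntegral.integral_sub]
      · congr 1
        ext r
        ring
      · refine ContinuousOn.intervalIntegrable ?_
        rw [uIcc_of_le h2.le]
        fun_prop
      · refine ContinuousOn.intervalIntegrable ?_
        rw [uIcc_of_le h2.le]
        fun_prop
    rw [hI, hS, hE2, hP, hf0]
    ring

/-- `exists_profiles` (`HO/Pack.lean`) with the explicit outer profile; only the holes with
`ρ = r₁` are needed, but the statement for all `ρ` is kept.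
PROOF: copy of the proof there with `outer_profE`. -/
theorem exists_profilesE {m : ℕ} (hm : 1 ≤ m) {r₁ r₂ β k : ℝ} {u p : ℝ → ℝ} (hβ : 0 < β)
    (hk : 0 < k) (h0 : 0 ≤ r₁) (h12 : r₁ < r₂) (g : GS m r₁ r₂ β k u p) :
    ∃ rm c : ℝ, r₁ ≤ rm ∧ rm < r₂ ∧ 0 < u rm ∧ 0 ≤ c ∧ (0 < r₁ → r₁ < rm) ∧
      (∀ r, rm < r → r ≤ r₂ → 0 < p r) ∧
      c * r₁ ^ (m + 1) = rm ^ (m + 1) - r₁ ^ (m + 1) ∧
      (∃ f f' : ℝ → ℝ, Prof k (u rm) (r₂ - rm) f f' ∧
        (∫ t in (0 : ℝ)..(r₂ - rm), enr k (u rm) f f' t * (r₂ - t) ^ m) - β * (r₂ ^ m * f 0 ^ 2) ≤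
          -(k ^ 2 * u rm ^ 2 * ((r₂ ^ (m + 1) - rm ^ (m + 1)) / (m + 1))) ∧
        ∀ t ∈ Icc 0 (r₂ - rm), f t = u (r₂ - t)) ∧
      ∀ ρ : ℝ, 0 < ρ → ∃ (T : ℝ) (f f' : ℝ → ℝ), Prof k (u rm) T f f' ∧ (ρ = r₁ → T = rm - r₁) ∧
        (∫ t in (0 : ℝ)..T, enr k (u rm) f f' t * (ρ + t) ^ m) - β * (ρ ^ m * f 0 ^ 2) ≤
          -(k ^ 2 * u rm ^ 2 * (c * min ρ r₁ ^ (m + 1) / (m + 1))) := by
  obtain ⟨rm, h1, h2, h3, h4, hz, hp, hn⟩ := exists_zero hm hβ hk h0 h12 g
  have hμ : 0 < u rm := g.pos rm ⟨h1, h2.le⟩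
  have hpw : r₁ ^ (m + 1) ≤ rm ^ (m + 1) := pow_le_pow_left₀ h0 h1 (m + 1)
  have hc0 : 0 ≤ (rm ^ (m + 1) - r₁ ^ (m + 1)) / r₁ ^ (m + 1) :=
    div_nonneg (sub_nonneg.2 hpw) (pow_nonneg h0 _)
  refine ⟨rm, (rm ^ (m + 1) - r₁ ^ (m + 1)) / r₁ ^ (m + 1), h1, h2, hμ, hc0, h3, hp, ?_, ?_, ?_⟩
  · rcases h0.eq_or_lt with h | h
    · have h5 := h4 h.symm
      rw [h5, ← h]
      simp
    · exact div_mul_cancel₀ _ (pow_pos h _).ne'
  · obtain ⟨f, f', hf, he, hx⟩ := outer_profE hm hβ hk h0 h12 g h1 h2 hz hp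
    exact ⟨f, f', hf, he.le, hx⟩
  · intro ρ hρ
    rcases h0.eq_or_lt with h | h
    · have h5 := h4 h.symm
      have h6 : 0 < β * (ρ ^ m * u rm ^ 2) := by positivity
      have h7 : (∫ t in (0 : ℝ)..0, enr k (u rm) (fun _ => u rm) (fun _ => 0) t * (ρ + t) ^ m) -
          β * (ρ ^ m * u rm ^ 2) <
          -(k ^ 2 * u rm ^ 2 * ((rm ^ (m + 1) - r₁ ^ (m + 1)) / r₁ ^ (m + 1) *
            min ρ r₁ ^ (m + 1) / (m + 1))) := by
        rw [intervalIntegral.integral_same, ← h]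
        simp only [ne_eq, Nat.add_eq_zero_iff, one_ne_zero, and_false, not_false_eq_true, zero_pow,
          div_zero, zero_mul, zero_div, mul_zero, neg_zero]
        linarith
      exact ⟨0, fun _ => u rm, fun _ => 0, const_prof, fun h8 => by
        rw [h8, ← h] at hρ
        exact absurd hρ (lt_irrefl _), h7.le⟩
    · have h13 := h3 h
      have hr1 : 0 < r₁ ^ (m + 1) := pow_pos h _
      have hm0 : (0 : ℝ) < (m : ℝ) + 1 := by positivity
      rcases le_or_gt ρ r₁ with hle | hgt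
      · have hs : 0 < ρ / r₁ := div_pos hρ h
        have hs1 : ρ / r₁ ≤ 1 := (div_le_one h).2 hle
        obtain ⟨f, f', hf, he, -⟩ := hole_prof hm hβ hk h h12 g h13 h2 hz hn hs hs1
        have e1 : ρ / r₁ * r₁ = ρ := div_mul_cancel₀ _ h.ne'
        have e2 : (ρ / r₁) ^ (m + 1) * (rm ^ (m + 1) - r₁ ^ (m + 1)) / (m + 1) =
            (rm ^ (m + 1) - r₁ ^ (m + 1)) / r₁ ^ (m + 1) * min ρ r₁ ^ (m + 1) / (m + 1) := by
          rw [min_eq_left hle, div_pow]
          ring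
        rw [e1, e2] at he
        refine ⟨ρ / r₁ * (rm - r₁), f, f', hf, fun h8 => ?_, he⟩
        rw [h8, div_self h.ne', one_mul]
      · obtain ⟨f, f', hf, he, -⟩ := hole_prof hm hβ hk h h12 g h13 h2 hz hn one_pos le_rfl
        rw [one_mul, one_mul, one_pow, one_mul] at he
        have e2 : (rm ^ (m + 1) - r₁ ^ (m + 1)) / (m + 1) =
            (rm ^ (m + 1) - r₁ ^ (m + 1)) / r₁ ^ (m + 1) * min ρ r₁ ^ (m + 1) / (m + 1) := by
          rw [min_eq_right hgt.le, div_mul_cancel₀ _ hr1.ne']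
        rw [e2] at he
        have hpw' : r₁ ^ (m + 1) < rm ^ (m + 1) := pow_lt_pow_left₀ h13 h.le (by omega)
        have hE : -(k ^ 2 * u rm ^ 2 * ((rm ^ (m + 1) - r₁ ^ (m + 1)) / r₁ ^ (m + 1) *
            min ρ r₁ ^ (m + 1) / (m + 1))) < 0 := by
          rw [← e2]
          have h9 : 0 < rm ^ (m + 1) - r₁ ^ (m + 1) := sub_pos.2 hpw'
          have h10 : 0 < k ^ 2 * u rm ^ 2 * ((rm ^ (m + 1) - r₁ ^ (m + 1)) / (m + 1)) := by
            positivity
          linarith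
        rw [one_mul] at hf
        exact ⟨rm - r₁, f, f', hf, fun _ => rfl, (larger_hole hm hf h hgt.le hE.le he).1⟩

end Pool.Agent.RH
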