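import Pool.Agent.H.MP_1b807b_an.RI.MaxT
import Pool.Agent.H.MP_1b807b_an.RI.ProfE
import Pool.Agent.H.MP_1b807b_an.HO.CoreA
import Pool.Agent.H.MP_1b807b_an.HO.SphVol

/-! MP_1b807b_an, rigidity (RI), module CoreE: the test function of the main comparison -/

set_option autoImplicit false

namespace Pool.Agent.RH

open MeasureTheory Metric Set Filter Pool.Agent.RG Pool.Agent.H.MP_1b807b_an
open scoped Topology

variable {n : ℕ}

private theorem CoreE_min {ι : Type} [Fintype ι] {ρ : ι → ℝ} {r₁ : ℝ} {N : ℕ} (h0 : 0 ≤ r₁)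
    (hρ : ∀ i, 0 < ρ i) (hsum : r₁ ^ N ≤ ∑ i, ρ i ^ N) : r₁ ^ N ≤ ∑ i, min (ρ i) r₁ ^ N := by
  by_cases h : ∃ i, r₁ ≤ ρ i
  · obtain ⟨i, hi⟩ := h
    have h1 : min (ρ i) r₁ ^ N = r₁ ^ N := by rw [min_eq_right hi]
    rw [← h1]
    exact Finset.single_le_sum (f := fun i => min (ρ i) r₁ ^ N)
      (fun j _ => pow_nonneg (le_min (hρ j).le h0) N) (Finset.mem_univ i)
  · push Not at h
    refine hsum.trans (le_of_eq (Finset.sum_congr rfl fun i _ => ?_))
    rw [min_eq_left (h i).le]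

private theorem CoreE_term {A P I c β f ρm v : ℝ} (hβ : 0 < β) (hc : 0 < c) (hA : A ≤ c * I)
    (hP : c * ρm ≤ P) (hE : I - β * (ρm * f ^ 2) ≤ v) : A - β * (f ^ 2 * P) ≤ c * v := by
  have h1 : c * (I - β * (ρm * f ^ 2)) ≤ c * v := mul_le_mul_of_nonneg_left hE hc.le
  have h2 : β * f ^ 2 * (c * ρm) ≤ β * f ^ 2 * P := mul_le_mul_of_nonneg_left hP (by positivity)
  nlinarith

/-- The test function of `core_full` (`HO/Core.lean`).
PROOF: copy of the proof of the first part of `core_full` (copy the private lemmas `core_min`,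
`core_term`), with `exists_profilesE` in place of `exists_profiles` and `max_qf` in place of
`max_test` (`τ = 0`); `w = vmax S f`. Last clause: at such a point the outer profile has the value
`u (r₂ - infDist x S₀) ≥ u rm` and the profiles of the holes have the value `u rm` (`T i = rm - r₁`,
`Prof.tail`); `le_vmax`, `exists_vmax`. -/
theorem core_ext (hn : 2 ≤ n) (D : Domain n) {β k r₁ r₂ : ℝ} {u p : ℝ → ℝ} (hβ : 0 < β) (hk : 0 < k)
    (h0 : 0 ≤ r₁) (h12 : r₁ < r₂) (g : GS (n - 1) r₁ r₂ β k u p) {S₀ : Set (E n)}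
    (hS₀ : IsClosed S₀) (hP₀ : n * om n * r₂ ^ (n - 1) ≤ D.surface.real S₀)
    (hc₀ : ∀ t ∈ Icc 0 r₂, volume.real (D.carrier ∩ {x | infDist x S₀ ≤ t}) ≤
      om n * (r₂ ^ n - (r₂ - t) ^ n))
    {ι : Type} [Fintype ι] (K : ι → Set (E n)) (hK : ∀ i, IsClosed (K i))
    (hK0 : ∀ i, Disjoint (K i) S₀) (hKK : ∀ i j, i ≠ j → Disjoint (K i) (K j))
    (hr₁ : 0 < r₁) (hP : ∀ i, n * om n * r₁ ^ (n - 1) ≤ D.surface.real (K i))
    (hc : ∀ i, ∀ t, 0 ≤ t → volume.real (D.carrier ∩ {x | infDist x (K i) ≤ t}) ≤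
      om n * ((r₁ + t) ^ n - r₁ ^ n))
    (hι : Nonempty ι) (hvol : volume.real D.carrier ≤ om n * (r₂ ^ n - r₁ ^ n)) :
    ∃ (rm : ℝ) (w : E n → ℝ), r₁ < rm ∧ rm < r₂ ∧ (∀ r, rm < r → r ≤ r₂ → 0 < p r) ∧
      LipF w ∧ 0 < (∫ x in D.carrier, w x ^ 2) ∧ qf D β k w ≤ 0 ∧
      ∀ x, infDist x S₀ ≤ r₂ - rm → (∀ i, rm - r₁ ≤ infDist x (K i)) →
        w x = u (r₂ - infDist x S₀) := by
  classical
  have hm1 : 1 ≤ n - 1 := by omega
  have hmn : n - 1 + 1 = n := by omega
  have hcast : ((n - 1 : ℕ) : ℝ) + 1 = n := by exact_mod_cast hmn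
  have hn0 : (0 : ℝ) < n := by exact_mod_cast (by omega : 0 < n)
  have hom := om_pos n
  have hcn : 0 < (n : ℝ) * om n := by positivity
  have hms : MeasurableSet D.carrier := D.isOpen.measurableSet
  obtain ⟨rm, c, hrm1, hrm2, hμ, hc0, hrm3, hpp, hceq, ⟨f₀, f₀', P₀, E₀, U₀⟩, hH⟩ :=
    exists_profilesE (m := n - 1) hm1 hβ hk h0 h12 g
  choose Tf ff ff' hPf hTf hEf using fun _ : ι => hH r₁ hr₁
  rw [hmn, hcast] at E₀
  rw [hmn] at hceq
  simp only [hmn, hcast] at hEf
  -- the index type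
  let S : Option ι → Set (E n) := fun o => o.elim S₀ K
  let T : Option ι → ℝ := fun o => o.elim (r₂ - rm) Tf
  let f : Option ι → ℝ → ℝ := fun o => o.elim f₀ ff
  let f' : Option ι → ℝ → ℝ := fun o => o.elim f₀' ff'
  have hS : ∀ o, IsClosed (S o) := fun o => by
    cases o with
    | none => exact hS₀
    | some i => exact hK i
  have hdisj : ∀ o o', o ≠ o' → Disjoint (S o) (S o') := fun o o' hne => by
    cases o with
    | none =>
      cases o' with
      | none => exact absurd rfl hne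
      | some j => exact (hK0 j).symm
    | some i =>
      cases o' with
      | none => exact hK0 i
      | some j => exact hKK i j fun h => hne (by rw [h])
  have hprof : ∀ o, Prof k (u rm) (T o) (f o) (f' o) := fun o => by
    cases o with
    | none => exact P₀
    | some i => exact hPf i
  let en : Option ι → E n → ℝ := fun o x => enr k (u rm) (f o) (f' o) (infDist x (S o))
  have hen0 : ∀ o x, 0 ≤ en o x := fun o x => enr_nonneg hμ (hprof o) infDist_nonneg
  have heni : ∀ o, IntegrableOn (en o) D.carrier := fun o =>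
    enr_integrable (hprof o) D.isBounded (S o)
  -- the terms
  have t0 : (∫ x in D.carrier, en none x) - β * (f none 0 ^ 2 * D.surface.real (S none)) ≤
      n * om n * -(k ^ 2 * u rm ^ 2 * ((r₂ ^ n - rm ^ n) / n)) :=
    CoreE_term hβ hcn (collar_outer hn hms D.isBounded hμ (by linarith) P₀ hc₀) hP₀ E₀
  have t1 : ∀ i, (∫ x in D.carrier, en (some i) x) -
      β * (f (some i) 0 ^ 2 * D.surface.real (S (some i))) ≤
      n * om n * -(k ^ 2 * u rm ^ 2 * (c * min r₁ r₁ ^ n / n)) := fun i =>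
    CoreE_term hβ hcn (collar_hole hn hms D.isBounded hμ hr₁ (hPf i) (hc i)) (hP i) (hEf i)
  -- the sum of the right-hand sides
  have hmin : r₁ ^ n ≤ ∑ _i : ι, min r₁ r₁ ^ n := by
    refine CoreE_min (ρ := fun _ : ι => r₁) (N := n) h0 (fun _ => hr₁) ?_
    obtain ⟨i⟩ := hι
    exact Finset.single_le_sum (f := fun _ : ι => r₁ ^ n) (fun _ _ => pow_nonneg h0 n)
      (Finset.mem_univ i)
  have hrhs : k ^ 2 * u rm ^ 2 * volume.real D.carrier +
      (n * om n * -(k ^ 2 * u rm ^ 2 * ((r₂ ^ n - rm ^ n) / n)) +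
        ∑ _i : ι, n * om n * -(k ^ 2 * u rm ^ 2 * (c * min r₁ r₁ ^ n / n))) ≤ 0 := by
    have e1 : ∑ _i : ι, n * om n * -(k ^ 2 * u rm ^ 2 * (c * min r₁ r₁ ^ n / n)) =
        -(k ^ 2 * u rm ^ 2 * om n * (c * ∑ _i : ι, min r₁ r₁ ^ n)) := by
      rw [Finset.mul_sum, Finset.mul_sum, ← Finset.sum_neg_distrib]
      refine Finset.sum_congr rfl fun i _ => ?_
      field_simp
    have e2 : n * om n * -(k ^ 2 * u rm ^ 2 * ((r₂ ^ n - rm ^ n) / n)) =
        -(k ^ 2 * u rm ^ 2 * om n * (r₂ ^ n - rm ^ n)) := by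
      field_simp
    have e3 : rm ^ n - r₁ ^ n ≤ c * ∑ _i : ι, min r₁ r₁ ^ n := by
      rw [← hceq]
      exact mul_le_mul_of_nonneg_left hmin hc0
    have e4 : k ^ 2 * u rm ^ 2 * volume.real D.carrier ≤
        k ^ 2 * u rm ^ 2 * (om n * (r₂ ^ n - r₁ ^ n)) :=
      mul_le_mul_of_nonneg_left hvol (by positivity)
    have e5 : k ^ 2 * u rm ^ 2 * om n * (rm ^ n - r₁ ^ n) ≤
        k ^ 2 * u rm ^ 2 * om n * (c * ∑ _i : ι, min r₁ r₁ ^ n) :=
      mul_le_mul_of_nonneg_left e3 (by positivity)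
    rw [e1, e2]
    nlinarith
  -- splitting the sums over the index type
  have hsA : ∑ o, (∫ x in D.carrier, en o x) = (∫ x in D.carrier, en none x) +
      ∑ i, ∫ x in D.carrier, en (some i) x := Fintype.sum_option _
  have hsP : ∑ o, f o 0 ^ 2 * D.surface.real (S o) = f none 0 ^ 2 * D.surface.real (S none) +
      ∑ i, f (some i) 0 ^ 2 * D.surface.real (S (some i)) := Fintype.sum_option _
  have hsplit : (∑ o, ∫ x in D.carrier, en o x) - β * ∑ o, f o 0 ^ 2 * D.surface.real (S o) =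
      ((∫ x in D.carrier, en none x) - β * (f none 0 ^ 2 * D.surface.real (S none))) +
      ∑ i, ((∫ x in D.carrier, en (some i) x) -
        β * (f (some i) 0 ^ 2 * D.surface.real (S (some i)))) := by
    rw [hsA, hsP, Finset.sum_sub_distrib, ← Finset.mul_sum]
    ring
  have htot : k ^ 2 * u rm ^ 2 * volume.real D.carrier + (∑ o, ∫ x in D.carrier, en o x) -
      β * ∑ o, f o 0 ^ 2 * D.surface.real (S o) ≤ 0 := by
    have h1 : ∑ i, ((∫ x in D.carrier, en (some i) x) -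
        β * (f (some i) 0 ^ 2 * D.surface.real (S (some i)))) ≤
        ∑ _i : ι, n * om n * -(k ^ 2 * u rm ^ 2 * (c * min r₁ r₁ ^ n / n)) :=
      Finset.sum_le_sum fun i _ => t1 i
    linarith
  have hint : ∫ x in D.carrier, ∑ o, en o x = ∑ o, ∫ x in D.carrier, en o x :=
    integral_finsetSum _ fun o _ => heni o
  have hle : ∀ x ∈ D.carrier, ∀ o, en o x ≤ ∑ o, en o x := fun x _ o =>
    Finset.single_le_sum (f := fun o => en o x) (fun o _ => hen0 o x) (Finset.mem_univ o)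
  have hei : IntegrableOn (fun x => ∑ o, en o x) D.carrier :=
    integrable_finsetSum _ fun o _ => heni o
  obtain ⟨h1, h2, h3⟩ := max_qf D hβ hμ S hS hdisj hprof hei hle (τ := 0) (by
    rw [hint]
    exact htot)
  refine ⟨rm, vmax S f, hrm3 hr₁, hrm2, hpp, h1, h2, h3, fun x hx hxi => ?_⟩
  have hx0 : infDist x S₀ ∈ Icc 0 (r₂ - rm) := ⟨infDist_nonneg, hx⟩
  have e1 : f none (infDist x (S none)) = u (r₂ - infDist x S₀) := U₀ _ hx0
  have hge : u rm ≤ f none (infDist x (S none)) := by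
    rcases hx.lt_or_eq with h | h
    · exact (P₀.gt _ infDist_nonneg h).le
    · exact (P₀.tail _ h.ge).1.ge
  rw [← e1]
  refine le_antisymm ?_ (le_vmax S f x none)
  obtain ⟨o, ho⟩ := exists_vmax S f x
  rw [ho]
  cases o with
  | none => exact le_rfl
  | some i =>
    have h4 : f (some i) (infDist x (S (some i))) = u rm :=
      ((hPf i).tail _ (by rw [hTf i rfl]; exact hxi i)).1
    rw [h4]
    exact hge

end Pool.Agent.RH
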