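import Pool.Agent.H.MP_1b807b_an.RI.Defs
import Pool.Agent.H.MP_1b807b_an.OneD

/-! MP_1b807b_an, rigidity (RI), module CutA: the function `r / p r` -/

set_option autoImplicit false

namespace Pool.Agent.RH

open MeasureTheory Metric Set Filter Pool.Agent.RG Pool.Agent.H.MP_1b807b_an
open scoped Topology

/-- `F r = r / p r` near `[a, b]`, extended to a bounded Lipschitz function.
PROOF: choose `rm < a' < a`, `b < b' < r₂`; on `[a', b']` the function `r / p r` is `C¹` with derivative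
`(p r - r (k ^ 2 u r - m / r p r)) / p r ^ 2` (`GS.dp`; continuous, `p > 0`), so it is Lipschitz and bounded there; `F` is its
composition with `projIcc a' b'` (`Set.projIcc`, 1-Lipschitz), equal to it near every point of
`[a, b]`. Then `p t F t = t`, and `p t F₁ t = 1 - (t / p t) (k ^ 2 u t - m / t p t) =
1 + m - k ^ 2 u t F t`. -/
theorem exists_cut {m : ℕ} {r₁ r₂ β k rm a b : ℝ} {u p : ℝ → ℝ} (h0 : 0 ≤ r₁)
    (g : GS m r₁ r₂ β k u p) (h1 : r₁ ≤ rm) (hp : ∀ r, rm < r → r ≤ r₂ → 0 < p r)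
    (ha : rm < a) (hab : a ≤ b) (hb : b < r₂) :
    ∃ F F₁ : ℝ → ℝ, (∃ C : ℝ, 0 ≤ C ∧ ∀ s t, |F s - F t| ≤ C * |s - t|) ∧ (∃ B, ∀ t, |F t| ≤ B) ∧
      ∀ t ∈ Icc a b, HasDerivAt F (F₁ t) t ∧ p t * F t = t ∧
        p t * F₁ t + k ^ 2 * (u t * F t) = (m : ℝ) + 1 := by
  obtain ⟨a', ha'⟩ : ∃ a' : ℝ, a' = (rm + a) / 2 := ⟨_, rfl⟩
  obtain ⟨b', hb'⟩ : ∃ b' : ℝ, b' = (b + r₂) / 2 := ⟨_, rfl⟩
  have e1 : rm < a' := by rw [ha']; linarith
  have e2 : a' < a := by rw [ha']; linarith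
  have e3 : b < b' := by rw [hb']; linarith
  have e4 : b' < r₂ := by rw [hb']; linarith
  have hab' : a' ≤ b' := by linarith
  have hr0 : ∀ r ∈ Icc a' b', 0 < r := fun r hr => by linarith [hr.1]
  have hIoo : ∀ r ∈ Icc a' b', r ∈ Ioo r₁ r₂ := fun r hr =>
    ⟨by linarith [hr.1], by linarith [hr.2]⟩
  have hp0 : ∀ r ∈ Icc a' b', 0 < p r := fun r hr =>
    hp r (by linarith [hr.1]) (by linarith [hr.2])
  obtain ⟨Q, hQ⟩ : ∃ Q : ℝ → ℝ, Q = fun r => r / p r := ⟨_, rfl⟩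
  obtain ⟨Q', hQ'⟩ : ∃ Q' : ℝ → ℝ, Q' = fun r =>
    (1 * p r - r * (k ^ 2 * u r - m / r * p r)) / p r ^ 2 := ⟨_, rfl⟩
  have hder : ∀ r ∈ Icc a' b', HasDerivAt Q (Q' r) r := by
    intro r hr
    rw [hQ, hQ']
    exact (hasDerivAt_id r).div (g.dp r (hIoo r hr)) (hp0 r hr).ne'
  have hcont : ContinuousOn Q' (Icc a' b') := by
    have hsub : Icc a' b' ⊆ Icc r₁ r₂ := fun r hr => Ioo_subset_Icc_self (hIoo r hr)
    have hcp := g.cp.mono hsub
    have hcu := g.cu.mono hsub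
    rw [hQ']
    refine ContinuousOn.div ?_ (hcp.pow 2) (fun r hr => pow_ne_zero 2 (hp0 r hr).ne')
    refine (continuousOn_const.mul hcp).sub (continuousOn_id.mul ?_)
    exact (continuousOn_const.mul hcu).sub
      ((continuousOn_const.div continuousOn_id fun r hr => (hr0 r hr).ne').mul hcp)
  obtain ⟨C, hC⟩ := isCompact_Icc.exists_bound_of_continuousOn hcont
  have hQcont : ContinuousOn Q (Icc a' b') := fun r hr =>
    (hder r hr).continuousAt.continuousWithinAt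
  obtain ⟨B, hB⟩ := isCompact_Icc.exists_bound_of_continuousOn hQcont
  have hLip : ∀ s ∈ Icc a' b', ∀ t ∈ Icc a' b', |Q s - Q t| ≤ C * |s - t| := by
    intro s hs t ht
    exact (convex_Icc a' b').norm_image_sub_le_of_norm_hasDerivWithin_le
      (fun x hx => (hder x hx).hasDerivWithinAt) hC ht hs
  have hC0 : 0 ≤ C := (norm_nonneg _).trans (hC a' (left_mem_Icc.mpr hab'))
  refine ⟨fun t => Q (projIcc a' b' hab' t), Q', ⟨C, hC0, fun s t => ?_⟩, ⟨B, fun t => ?_⟩, ?_⟩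
  · refine (hLip _ (projIcc a' b' hab' s).2 _ (projIcc a' b' hab' t).2).trans ?_
    exact mul_le_mul_of_nonneg_left (abs_projIcc_sub_projIcc hab') hC0
  · exact hB _ (projIcc a' b' hab' t).2
  · intro t ht
    have ht' : t ∈ Ioo a' b' := ⟨by linarith [ht.1], by linarith [ht.2]⟩
    have htc : t ∈ Icc a' b' := Ioo_subset_Icc_self ht'
    have hpt := hp0 t htc
    have ht0 := hr0 t htc
    have hev : (fun t => Q (projIcc a' b' hab' t)) =ᶠ[𝓝 t] Q := by
      filter_upwards [isOpen_Ioo.mem_nhds ht'] with x hx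
      rw [projIcc_of_mem hab' (Ioo_subset_Icc_self hx)]
    have hFt : Q (projIcc a' b' hab' t) = t / p t := by
      rw [projIcc_of_mem hab' htc, hQ]
    refine ⟨(hder t htc).congr_of_eventuallyEq hev, ?_, ?_⟩
    · show p t * Q (projIcc a' b' hab' t) = t
      rw [hFt]
      field_simp
    · show p t * Q' t + k ^ 2 * (u t * Q (projIcc a' b' hab' t)) = (m : ℝ) + 1
      rw [hFt, hQ']
      field_simp
      ring

end Pool.Agent.RH
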