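import Pool.Agent.H.MP_1b807b_an.RI.FvA

/-! MP_1b807b_an, rigidity (RI), module CutB: the cut-off function and its gradient -/

set_option autoImplicit false

namespace Pool.Agent.RH

open MeasureTheory Metric Set Filter Pool.Agent.RG
open scoped RealInnerProductSpace Topology

variable {n : ℕ}

/-- the test function `(s² - ‖x - x₀‖²)₊ F (A x)` -/
noncomputable def cut (x₀ : E n) (s : ℝ) (F : ℝ → ℝ) (A : E n → ℝ) (x : E n) : ℝ :=
  max (s ^ 2 - ‖x - x₀‖ ^ 2) 0 * F (A x)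

private theorem CutB_max {s p q : ℝ} (hp : 0 ≤ p) (hs : 0 < s) (hpq : p ≤ q) :
    |max (s ^ 2 - p ^ 2) 0 - max (s ^ 2 - q ^ 2) 0| ≤ 2 * s * (q - p) := by
  have hq : 0 ≤ q := hp.trans hpq
  have h1 : s ^ 2 - q ^ 2 ≤ s ^ 2 - p ^ 2 := by nlinarith
  rw [abs_of_nonneg (sub_nonneg.2 (max_le_max_right 0 h1))]
  rcases le_or_gt s p with h | h
  · rw [max_eq_right (by nlinarith : s ^ 2 - p ^ 2 ≤ 0), max_eq_right (by nlinarith : s ^ 2 - q ^ 2 ≤ 0)]
    rw [sub_self]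
    have : 0 ≤ q - p := by linarith
    positivity
  · rw [max_eq_left (by nlinarith : (0 : ℝ) ≤ s ^ 2 - p ^ 2)]
    rcases le_or_gt q s with h2 | h2
    · have h3 := le_max_left (s ^ 2 - q ^ 2) 0
      nlinarith
    · have h3 := le_max_right (s ^ 2 - q ^ 2) 0
      nlinarith

private theorem CutB_lip {x₀ : E n} {s : ℝ} (hs : 0 < s) (x y : E n) :
    |max (s ^ 2 - ‖x - x₀‖ ^ 2) 0 - max (s ^ 2 - ‖y - x₀‖ ^ 2) 0| ≤ 2 * s * ‖x - y‖ := by
  rcases le_total ‖x - x₀‖ ‖y - x₀‖ with h | h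
  · refine (CutB_max (norm_nonneg _) hs h).trans (mul_le_mul_of_nonneg_left ?_ (by positivity))
    have h1 := norm_sub_norm_le (y - x₀) (x - x₀)
    rw [sub_sub_sub_cancel_right] at h1
    rw [norm_sub_rev x y]
    exact h1
  · rw [abs_sub_comm]
    refine (CutB_max (norm_nonneg _) hs h).trans (mul_le_mul_of_nonneg_left ?_ (by positivity))
    have h1 := norm_sub_norm_le (x - x₀) (y - x₀)
    rw [sub_sub_sub_cancel_right] at h1
    exact h1

/-- PROOF: product of two bounded Lipschitz functions (`(s² - ‖x - x₀‖²)₊` is bounded by `s²` and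
`2 s`-Lipschitz). -/
theorem cut_lip {x₀ : E n} {s : ℝ} (hs : 0 < s) {F : ℝ → ℝ} {A : E n → ℝ}
    (hA : ∀ x y, |A x - A y| ≤ ‖x - y‖) (hF : ∃ C : ℝ, 0 ≤ C ∧ ∀ s t, |F s - F t| ≤ C * |s - t|)
    (hB : ∃ B, ∀ t, |F t| ≤ B) : LipF (cut x₀ s F A) := by
  obtain ⟨C, hC0, hC⟩ := hF
  obtain ⟨B, hB⟩ := hB
  have hB0 : 0 ≤ B := (abs_nonneg _).trans (hB 0)
  refine ⟨2 * s * B + s ^ 2 * C, by positivity, fun x y => ?_⟩
  have h1 := CutB_lip (x₀ := x₀) hs x y
  have h2 : |F (A x) - F (A y)| ≤ C * ‖x - y‖ :=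
    (hC _ _).trans (mul_le_mul_of_nonneg_left (hA x y) hC0)
  have h3 : |max (s ^ 2 - ‖y - x₀‖ ^ 2) 0| ≤ s ^ 2 := by
    rw [abs_of_nonneg (le_max_right _ _)]
    exact max_le (by nlinarith [sq_nonneg ‖y - x₀‖]) (by positivity)
  have h4 : cut x₀ s F A x - cut x₀ s F A y =
      (max (s ^ 2 - ‖x - x₀‖ ^ 2) 0 - max (s ^ 2 - ‖y - x₀‖ ^ 2) 0) * F (A x) +
        max (s ^ 2 - ‖y - x₀‖ ^ 2) 0 * (F (A x) - F (A y)) := by
    unfold cut
    ring
  rw [h4]
  refine (abs_add_le _ _).trans ?_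
  rw [abs_mul, abs_mul]
  have h5 := mul_le_mul h1 (hB (A x)) (abs_nonneg _) (by positivity)
  have h6 := mul_le_mul h3 h2 (abs_nonneg _) (by positivity)
  calc _ ≤ 2 * s * ‖x - y‖ * B + s ^ 2 * (C * ‖x - y‖) := add_le_add h5 h6
    _ = (2 * s * B + s ^ 2 * C) * ‖x - y‖ := by ring

theorem cut_zero {x₀ : E n} {s : ℝ} {F : ℝ → ℝ} {A : E n → ℝ} {x : E n} (hs : 0 < s)
    (hx : x ∉ ball x₀ s) : cut x₀ s F A x = 0 := by
  rw [mem_ball, dist_eq_norm, not_lt] at hx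
  unfold cut
  rw [max_eq_right (by nlinarith : s ^ 2 - ‖x - x₀‖ ^ 2 ≤ 0), zero_mul]

/-- outside the closed ball the function is locally zero -/
theorem cut_grad_out {x₀ : E n} {s : ℝ} {F : ℝ → ℝ} {A : E n → ℝ} {x : E n} (hs : 0 < s)
    (hx : x ∉ closedBall x₀ s) : gradient (cut x₀ s F A) x = 0 := by
  have h1 : cut x₀ s F A =ᶠ[𝓝 x] fun _ => 0 := by
    filter_upwards [isClosed_closedBall.isOpen_compl.mem_nhds hx] with y hy
    exact cut_zero hs fun h => hy (ball_subset_closedBall h)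
  rw [h1.gradient_eq, gradient_fun_const]

private theorem CutB_grad {w : E n → ℝ} {x g : E n} (L : E n →L[ℝ] ℝ) (h : HasFDerivAt w L x)
    (hL : ∀ v, ⟪g, v⟫ = L v) : gradient w x = g := by
  unfold gradient
  rw [h.fderiv]
  refine (InnerProductSpace.toDual ℝ (E n)).injective ?_
  rw [LinearIsometryEquiv.apply_symm_apply]
  ext v
  rw [InnerProductSpace.toDual_apply_apply, hL]

/-- PROOF: near `x` the function is the product of `s² - ‖x - x₀‖²` (gradient `-2 (x - x₀)`) and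
`F ∘ A` (gradient `F₁ (A x) • gradient A x`). -/
theorem cut_grad_in {x₀ : E n} {s : ℝ} {F : ℝ → ℝ} {A : E n → ℝ} {x : E n} {c : ℝ}
    (hx : x ∈ ball x₀ s) (hA : DifferentiableAt ℝ A x) (hF : HasDerivAt F c (A x)) :
    gradient (cut x₀ s F A) x = -(2 * F (A x)) • (x - x₀) +
      ((s ^ 2 - ‖x - x₀‖ ^ 2) * c) • gradient A x := by
  have h1 : cut x₀ s F A =ᶠ[𝓝 x] fun y => (s ^ 2 - ‖y - x₀‖ ^ 2) * F (A y) := by
    filter_upwards [isOpen_ball.mem_nhds hx] with y hy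
    rw [mem_ball, dist_eq_norm] at hy
    unfold cut
    rw [max_eq_left]
    nlinarith [norm_nonneg (y - x₀)]
  rw [h1.gradient_eq]
  have h2 : HasFDerivAt (fun y : E n => y - x₀) (ContinuousLinearMap.id ℝ (E n)) x :=
    (hasFDerivAt_id x).sub_const x₀
  have h3 := (h2.norm_sq.const_sub (s ^ 2)).mul (hF.comp_hasFDerivAt x hA.hasFDerivAt)
  refine CutB_grad _ h3 fun v => ?_
  simp only [add_apply, smul_apply, neg_apply, ContinuousLinearMap.comp_apply,
    ContinuousLinearMap.id_apply,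
    innerSL_apply_apply, smul_eq_mul, inner_add_left, real_inner_smul_left, inner_gradient_left,
    Function.comp_apply, nsmul_eq_mul, Nat.cast_ofNat]
  ring

/-- PROOF: chain rule. -/
theorem comp_grad {A w : E n → ℝ} {u : ℝ → ℝ} {x : E n} {q : ℝ} (hA : DifferentiableAt ℝ A x)
    (hu : HasDerivAt u q (A x)) (hw : w =ᶠ[𝓝 x] fun y => u (A y)) :
    gradient w x = q • gradient A x := by
  rw [hw.gradient_eq]
  refine CutB_grad _ (hu.comp_hasFDerivAt x hA.hasFDerivAt) fun v => ?_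
  rw [real_inner_smul_left, inner_gradient_left]
  rfl

end Pool.Agent.RH
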