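import Pool.Agent.H.MP_1b807b_an.RI.Defs

/-! MP_1b807b_an, rigidity (RI), module GradD: the gradient of the distance to a closed set -/

set_option autoImplicit false

namespace Pool.Agent.RH

open MeasureTheory Metric Set Filter Pool.Agent.RG
open scoped RealInnerProductSpace Topology

variable {n : ℕ}

/-- PROOF: `infDist · S` is 1-Lipschitz, so the norm is at most 1 (`norm_gradient` style:
`InnerProductSpace.toDual` is an isometry). Let `p ∈ S` be a nearest point (`IsClosed.exists_infDist_eq_dist`),
`e = (p - x) / ‖p - x‖`; for `0 ≤ t ≤ ‖p - x‖`: `infDist (x + t e) S = infDist x S - t` (at most, by the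
distance to `p`; at least, 1-Lipschitz), so the directional derivative in the direction `e` is `-1`. With
`A x = r - infDist x S` the gradient changes sign only. -/
theorem norm_grad_infDist {S : Set (E n)} (hS : IsClosed S) (hne : S.Nonempty) {x : E n} (hx : x ∉ S)
    {r : ℝ} (hd : DifferentiableAt ℝ (fun y => r - infDist y S) x) :
    ‖gradient (fun y => r - infDist y S) x‖ = 1 := by
  set f : E n → ℝ := fun y => r - infDist y S with hf
  have hlip : LipschitzWith 1 f := by
    refine LipschitzWith.of_dist_le_mul fun a b => ?_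
    have h1 := (lipschitz_infDist_pt S).dist_le_mul a b
    rw [Real.dist_eq] at h1 ⊢
    have h2 : f a - f b = -(infDist a S - infDist b S) := by rw [hf]; ring
    rw [h2, abs_neg]
    exact h1
  have hnorm : ‖gradient f x‖ = ‖fderiv ℝ f x‖ := by
    rw [gradient]
    exact LinearIsometryEquiv.norm_map _ _
  refine le_antisymm ?_ ?_
  · rw [hnorm]
    have h1 := norm_fderiv_le_of_lipschitz ℝ hlip (x₀ := x)
    simpa using h1
  · obtain ⟨p, hp, hpx⟩ := hS.exists_infDist_eq_dist hne x
    have hne' : p - x ≠ 0 := by
      intro h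
      exact hx (by rw [← sub_eq_zero.1 h]; exact hp)
    have hu : 0 < ‖p - x‖ := norm_pos_iff.2 hne'
    have hpx' : infDist x S = ‖p - x‖ := by rw [hpx, dist_comm, dist_eq_norm]
    have hval : ∀ t : ℝ, 0 < t → t < 1 → f (x + t • (p - x)) - f x = t * ‖p - x‖ := by
      intro t ht0 ht1
      have h1 : infDist (x + t • (p - x)) S ≤ (1 - t) * ‖p - x‖ := by
        refine (infDist_le_dist_of_mem hp).trans (le_of_eq ?_)
        rw [dist_comm, dist_eq_norm]
        have h2 : p - (x + t • (p - x)) = (1 - t) • (p - x) := by
          rw [sub_smul, one_smul]; abel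
        rw [h2, norm_smul, Real.norm_eq_abs, abs_of_pos (by linarith)]
      have h3 : infDist x S ≤ infDist (x + t • (p - x)) S + t * ‖p - x‖ := by
        have h4 : infDist x S ≤ infDist (x + t • (p - x)) S + dist x (x + t • (p - x)) :=
          infDist_le_infDist_add_dist
        have h5 : dist x (x + t • (p - x)) = t * ‖p - x‖ := by
          rw [dist_comm, dist_eq_norm, add_sub_cancel_left, norm_smul, Real.norm_eq_abs,
            abs_of_pos ht0]
        rwa [h5] at h4
      have h6 : infDist (x + t • (p - x)) S = (1 - t) * ‖p - x‖ := by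
        refine le_antisymm h1 ?_
        rw [hpx'] at h3
        linarith
      rw [hf]
      show (r - infDist (x + t • (p - x)) S) - (r - infDist x S) = t * ‖p - x‖
      rw [h6, hpx']
      ring
    have hgr : HasFDerivAt f (InnerProductSpace.toDual ℝ (E n) (gradient f x)) x :=
      hd.hasGradientAt.hasFDerivAt
    have hline := (hgr.hasLineDerivAt (p - x)).tendsto_slope_zero_right
    have hconst : Tendsto (fun t : ℝ => t⁻¹ • (f (x + t • (p - x)) - f x)) (𝓝[>] (0 : ℝ))
        (𝓝 ‖p - x‖) := by
      refine tendsto_const_nhds.congr' ?_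
      have hmem : Ioo (0 : ℝ) 1 ∈ 𝓝[>] (0 : ℝ) := Ioo_mem_nhdsGT one_pos
      filter_upwards [hmem] with t ht
      rw [hval t ht.1 ht.2, smul_eq_mul, ← mul_assoc, inv_mul_cancel₀ ht.1.ne', one_mul]
    have heq := tendsto_nhds_unique hline hconst
    rw [InnerProductSpace.toDual_apply_apply] at heq
    have h7 := real_inner_le_norm (gradient f x) (p - x)
    rw [heq] at h7
    exact le_of_mul_le_mul_right (by rw [one_mul]; exact h7) hu

end Pool.Agent.RH
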