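import Pool.Agent.H.MP_1b807b_an.RI.FvB
import Pool.Agent.H.MP_1b807b_an.RI.CutA
import Pool.Agent.H.MP_1b807b_an.RI.CutB
import Pool.Agent.H.MP_1b807b_an.RI.GradD

/-! MP_1b807b_an, rigidity (RI), module CutF: the Euler equation in the collar -/

set_option autoImplicit false

namespace Pool.Agent.RH

open MeasureTheory Metric Set Filter Pool.Agent.RG Pool.Agent.H.MP_1b807b_an
open scoped RealInnerProductSpace Topology

variable {n : ℕ}

private theorem CutF_lip (r₂ : ℝ) (S₀ : Set (E n)) (x y : E n) :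
    |(r₂ - infDist x S₀) - (r₂ - infDist y S₀)| ≤ ‖x - y‖ := by
  have h := (lipschitz_infDist_pt S₀).dist_le_mul y x
  rw [NNReal.coe_one, one_mul, Real.dist_eq, dist_eq_norm, norm_sub_rev] at h
  have e : (r₂ - infDist x S₀) - (r₂ - infDist y S₀) = infDist y S₀ - infDist x S₀ := by ring
  rw [e]
  exact h

private theorem CutF_pt {p u F F₁ k t N q : ℝ} {G y : E n} (hG : ‖G‖ = 1)
    (h1 : p * F = t) (h2 : p * F₁ + k ^ 2 * (u * F) = N) :
    ⟪p • G, -(2 * F) • y + (q * F₁) • G⟫ + k ^ 2 * (u * (q * F)) =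
      N * q - 2 * (t * ⟪G, y⟫) := by
  rw [inner_add_right, inner_smul_left, inner_smul_left, inner_smul_right, inner_smul_right,
    real_inner_self_eq_norm_sq, hG, ← h1, ← h2]
  simp only [conj_trivial]
  ring

private theorem CutF_meas {A : E n → ℝ} (hA : Continuous A) (x₀ : E n) :
    Measurable fun y => A y * ⟪gradient A y, y - x₀⟫ := by
  have h1 : Measurable (fun y => gradient A y) := by
    have h2 : Measurable (fderiv ℝ A) := measurable_fderiv ℝ A
    exact (InnerProductSpace.toDual ℝ (E n)).symm.continuous.measurable.comp h2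
  exact hA.measurable.mul (h1.inner (measurable_id.sub_const x₀))

private theorem CutF_ae {A : E n → ℝ} (hA : ∀ x y, |A x - A y| ≤ ‖x - y‖) :
    ∀ᵐ x, DifferentiableAt ℝ A x := by
  have h : LipschitzWith 1 A := by
    refine LipschitzWith.of_dist_le_mul fun x y => ?_
    rw [NNReal.coe_one, one_mul, Real.dist_eq, dist_eq_norm]
    exact hA x y
  exact h.ae_differentiableAt

/-- PROOF. `op`, `lip`, `pos`, `grad` (`norm_grad_infDist`) are immediate (`A x > rm ≥ 0` on `U`).
`weak`: on the compact set `closedBall x₀ s ⊆ U` the continuous function `A` has values in some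
`[a, b]` with `rm < a`, `b < r₂` (`infDist x S₀ > 0` for `x ∈ D.carrier`, as `S₀` is closed). Take `F` of `exists_cut`,
`h = cut x₀ s F A`; `first_variation`: `∫_D ⟪∇w, ∇h⟫ + k² w h = 0`. Almost everywhere (`A` is Lipschitz, so
differentiable a.e.; the sphere is a null set): off the closed ball the integrand is `0`; in the ball, with
`comp_grad` (`q = p (A x)`, `GS.du`), `cut_grad_in`, `‖∇A‖ = 1`, it is
`-2 p F ⟪∇A, x - x₀⟫ + (s² - ‖x - x₀‖²) (p F₁ + k² u F) = -2 A ⟪∇A, x - x₀⟫ + n (s² - ‖x - x₀‖²)`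
(`(m + 1 : ℝ) = n` for `m = n - 1`). -/
theorem collar_iso (hn : 2 ≤ n) (D : Domain n) {β k r₁ r₂ rm : ℝ} {u p : ℝ → ℝ}
    (h0 : 0 ≤ r₁) (g : GS (n - 1) r₁ r₂ β k u p) (h1 : r₁ ≤ rm) (h2 : rm < r₂)
    (hp : ∀ r, rm < r → r ≤ r₂ → 0 < p r) {S₀ : Set (E n)} (hS₀ : IsClosed S₀) (hne : S₀.Nonempty)
    (hdis : Disjoint D.carrier S₀) (hrob : ((-k ^ 2 : ℝ) : EReal) ≤ D.robin (-β)) {w : E n → ℝ}
    (hw : LipF w) (hpos : 0 < ∫ x in D.carrier, w x ^ 2) (hq : qf D β k w ≤ 0)
    (hloc : ∀ x ∈ D.carrier, infDist x S₀ < r₂ - rm → w x = u (r₂ - infDist x S₀)) :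
    IsoF {x | x ∈ D.carrier ∧ infDist x S₀ < r₂ - rm} (fun x => r₂ - infDist x S₀) := by
  have hd0 : 0 < r₂ - rm := sub_pos.2 h2
  obtain ⟨A, hA⟩ : ∃ A : E n → ℝ, A = fun x => r₂ - infDist x S₀ := ⟨_, rfl⟩
  have hAx : ∀ x, A x = r₂ - infDist x S₀ := fun x => by rw [hA]
  obtain ⟨U, hU⟩ : ∃ U : Set (E n), U = {x | x ∈ D.carrier ∧ infDist x S₀ < r₂ - rm} := ⟨_, rfl⟩
  have hUx : ∀ x, x ∈ U ↔ x ∈ D.carrier ∧ infDist x S₀ < r₂ - rm := fun x => by
    rw [hU]
    exact Iff.rfl
  have hAc : Continuous A := by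
    rw [hA]
    exact continuous_const.sub (continuous_infDist_pt S₀)
  have hop : IsOpen U := by
    rw [hU]
    exact D.isOpen.inter (isOpen_lt (continuous_infDist_pt S₀) continuous_const)
  have hlip : ∀ x y, |A x - A y| ≤ ‖x - y‖ := fun x y => by
    rw [hAx, hAx]
    exact CutF_lip r₂ S₀ x y
  have hnot : ∀ x ∈ U, x ∉ S₀ := fun x hx hxS =>
    disjoint_left.1 hdis ((hUx x).1 hx).1 hxS
  have hrm : ∀ x ∈ U, rm < A x := fun x hx => by
    rw [hAx]
    linarith [((hUx x).1 hx).2]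
  have hr2 : ∀ x ∈ U, A x < r₂ := fun x hx => by
    rw [hAx]
    have := (hS₀.notMem_iff_infDist_pos hne).1 (hnot x hx)
    linarith
  have hgrad : ∀ x ∈ U, DifferentiableAt ℝ A x → ‖gradient A x‖ = 1 := by
    intro x hx hd
    rw [hA] at hd ⊢
    exact norm_grad_infDist hS₀ hne (hnot x hx) hd
  rw [← hU, ← hA]
  refine ⟨hop, hlip, fun x hx => lt_of_le_of_lt (h0.trans h1) (hrm x hx), hgrad, ?_⟩
  intro x₀ s hs hball
  have hbU : ball x₀ s ⊆ U := ball_subset_closedBall.trans hball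
  have hbD : ball x₀ s ⊆ D.carrier := fun x hx => ((hUx x).1 (hbU hx)).1
  have hK : IsCompact (closedBall x₀ s) := isCompact_closedBall x₀ s
  have hKn : (closedBall x₀ s).Nonempty := ⟨x₀, mem_closedBall_self hs.le⟩
  obtain ⟨xm, hxm, hmin⟩ := hK.exists_isMinOn hKn hAc.continuousOn
  obtain ⟨xM, hxM, hmax⟩ := hK.exists_isMaxOn hKn hAc.continuousOn
  have ha : rm < A xm := hrm _ (hball hxm)
  have hb : A xM < r₂ := hr2 _ (hball hxM)
  have hab : A xm ≤ A xM := hmin hxM
  obtain ⟨F, F₁, hF, hB, hFt⟩ := exists_cut h0 g h1 hp ha hab hb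
  have hmem : ∀ x ∈ ball x₀ s, A x ∈ Icc (A xm) (A xM) := fun x hx =>
    ⟨hmin (ball_subset_closedBall hx), hmax (ball_subset_closedBall hx)⟩
  have hn1 : (((n - 1 : ℕ) : ℝ)) + 1 = n := by
    have : 1 ≤ n := by omega
    push_cast [Nat.cast_sub this]
    ring
  have hcl : LipF (cut x₀ s F A) := cut_lip hs hlip hF hB
  have hfr : ∀ x ∈ frontier D.carrier, cut x₀ s F A x = 0 := by
    intro x hx
    refine cut_zero hs fun hxb => ?_
    rw [D.isOpen.frontier_eq] at hx
    exact hx.2 (hbD hxb)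
  have hfv := first_variation (by omega : 0 < n) D hrob hw hcl hpos hq hfr
  have hsph : ∀ᵐ x : E n, x ∉ sphere x₀ s := by
    rw [ae_iff]
    simp only [not_not]
    exact Measure.addHaar_sphere_of_ne_zero volume x₀ hs.ne'
  have hae := CutF_ae hlip
  have key : ∫ x in D.carrier, (⟪gradient w x, gradient (cut x₀ s F A) x⟫ +
      k ^ 2 * (w x * cut x₀ s F A x)) =
      ∫ x in D.carrier, (ball x₀ s).indicator
        (fun y => (n : ℝ) * (s ^ 2 - ‖y - x₀‖ ^ 2) - 2 * (A y * ⟪gradient A y, y - x₀⟫)) x := by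
    refine setIntegral_congr_ae D.isOpen.measurableSet ?_
    filter_upwards [hsph, hae] with x hx1 hx2 hxD
    by_cases hxb : x ∈ ball x₀ s
    · rw [indicator_of_mem hxb]
      have hxU := hbU hxb
      have hxI := hmem x hxb
      obtain ⟨hF1, hF2, hF3⟩ := hFt (A x) hxI
      have hu : HasDerivAt u (p (A x)) (A x) :=
        g.du (A x) ⟨by linarith [hxI.1], by linarith [hxI.2]⟩
      have hwe : w =ᶠ[𝓝 x] fun y => u (A y) := by
        filter_upwards [hop.mem_nhds hxU] with y hy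
        rw [hAx]
        exact hloc y ((hUx y).1 hy).1 ((hUx y).1 hy).2
      have hq0 : 0 ≤ s ^ 2 - ‖x - x₀‖ ^ 2 := by
        rw [mem_ball, dist_eq_norm] at hxb
        have := norm_nonneg (x - x₀)
        nlinarith
      have hc : cut x₀ s F A x = (s ^ 2 - ‖x - x₀‖ ^ 2) * F (A x) := by
        unfold cut
        rw [max_eq_left hq0]
      rw [comp_grad hx2 hu hwe, cut_grad_in hxb hx2 hF1, hc, hwe.self_of_nhds, ← hn1]
      exact CutF_pt (hgrad x hxU hx2) hF2 hF3
    · rw [indicator_of_notMem hxb]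
      have hxc : x ∉ closedBall x₀ s := by
        intro h
        rcases (mem_closedBall.1 h).lt_or_eq with h | h
        · exact hxb (mem_ball.2 h)
        · exact hx1 (mem_sphere.2 h)
      rw [cut_grad_out hs hxc, cut_zero hs hxb, inner_zero_right, mul_zero, mul_zero, add_zero]
  rw [key, setIntegral_indicator measurableSet_ball, inter_eq_self_of_subset_right hbD] at hfv
  have hi1 : IntegrableOn (fun y : E n => s ^ 2 - ‖y - x₀‖ ^ 2) (ball x₀ s) := by
    have h3 : Continuous fun y : E n => s ^ 2 - ‖y - x₀‖ ^ 2 := by fun_prop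
    exact (h3.continuousOn.integrableOn_compact hK).mono_set ball_subset_closedBall
  have hi2 : IntegrableOn (fun y : E n => A y * ⟪gradient A y, y - x₀⟫) (ball x₀ s) := by
    refine Measure.integrableOn_of_bounded (M := A xM * s) measure_ball_lt_top.ne
      (CutF_meas hAc x₀).aestronglyMeasurable ?_
    rw [ae_restrict_iff' measurableSet_ball]
    filter_upwards [hae] with y hy hyb
    have h3 := hgrad y (hbU hyb) hy
    have h4 : 0 < A y := lt_of_le_of_lt (h0.trans h1) (hrm y (hbU hyb))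
    have h5 : ‖y - x₀‖ ≤ s := by
      rw [mem_ball, dist_eq_norm] at hyb
      exact hyb.le
    have h6 : ‖(⟪gradient A y, y - x₀⟫ : ℝ)‖ ≤ s := by
      refine (norm_inner_le_norm _ _).trans ?_
      rw [h3, one_mul]
      exact h5
    rw [norm_mul, Real.norm_of_nonneg h4.le]
    exact mul_le_mul (hmem y hyb).2 h6 (norm_nonneg _) (h4.le.trans (hmem y hyb).2)
  rw [integral_sub (hi1.const_mul _) (hi2.const_mul _), integral_const_mul,
    integral_const_mul] at hfv
  linarith

end Pool.Agent.RH
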