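import Pool.Agent.H.MP_1b807b_an.HO.Defs

/-! MP_1b807b_an, rigidity in the class (folder RI), module Defs.

Plan. In the equality case of the length condition the test function `w` equals `u (A x)` in the outer
collar `U = {x ∈ D | dist (x, S₀) < r₂ - rm}`, `A x = r₂ - dist (x, S₀)`, and it is a minimiser of the
quadratic form `qf`. Its first variation (module CutF) says that `A` satisfies `IsoF U A`. Then
`Psi A x = ‖x‖ ^ 2 / 2 - A x ^ 2 / 2` has the mean value property, its gradient `G` satisfies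
`‖G‖ ^ 2 = 2 ⟪x, G⟫ - 2 Psi` and `⨍ ⟪y - x₀, G y⟫ = 0` on small balls, so the variance of `G` on small
balls is zero, `Psi` is affine and `A x = dist x c` on each component of `U` (module Fine). -/

set_option autoImplicit false

namespace Pool.Agent.RH

open MeasureTheory Metric Set Pool.Agent.RG
open scoped RealInnerProductSpace

variable {n : ℕ}

/-- Lipschitz functions -/
def LipF (v : E n → ℝ) : Prop := ∃ C : ℝ, 0 ≤ C ∧ ∀ x x', |v x - v x'| ≤ C * ‖x - x'‖

/-- the quadratic form `∫_D |∇v|² - β ∫_∂D v² + k² ∫_D v²` -/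
noncomputable def qf (D : Domain n) (β k : ℝ) (v : E n → ℝ) : ℝ :=
  (∫ x in D.carrier, ‖fderiv ℝ v x‖ ^ 2) - β * (∫ x, v x ^ 2 ∂D.surface) +
    k ^ 2 * ∫ x in D.carrier, v x ^ 2

/-- the hypotheses on `A` (`A x = r₂ - dist (x, S₀)` in the outer collar `U`) -/
structure IsoF (U : Set (E n)) (A : E n → ℝ) : Prop where
  op : IsOpen U
  lip : ∀ x y, |A x - A y| ≤ ‖x - y‖
  pos : ∀ x ∈ U, 0 < A x
  grad : ∀ x ∈ U, DifferentiableAt ℝ A x → ‖gradient A x‖ = 1
  weak : ∀ (x₀ : E n) (s : ℝ), 0 < s → closedBall x₀ s ⊆ U →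
    ∫ y in ball x₀ s, A y * ⟪gradient A y, y - x₀⟫ =
      (n : ℝ) / 2 * ∫ y in ball x₀ s, (s ^ 2 - ‖y - x₀‖ ^ 2)

/-- the function `‖x‖² / 2 - A² / 2` -/
noncomputable def Psi (A : E n → ℝ) (x : E n) : ℝ := ‖x‖ ^ 2 / 2 - A x ^ 2 / 2

end Pool.Agent.RH
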