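import Pool.Agent.H.MP_1b807b_an.RI.Defs
import Pool.Agent.H.MP_1b807b_an.HO.PlanarData

/-! MP_1b807b_an, rigidity (RI), module FarD: without overlap the hole is far from the outer curve -/

set_option autoImplicit false

namespace Pool.Agent.RH

open MeasureTheory Metric Set Filter Pool.Agent.RG Pool.Agent.RA Pool.Agent.RP
open scoped Topology

/-- PROOF: by contradiction: some `y ∈ K 0` has `infDist y S₀ < r₂ - r₁`. Let `y₀ ∈ K 0` minimise `infDist · S₀` on the
compact set `K 0`, `q ∈ S₀` nearest to `y₀`, `δ = dist y₀ q < r₂ - r₁`, `δ > 0`. The points of the open segment are not in `S₀`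
(nearer than `δ` to `y₀`) and not in `K 0` (nearer than `δ` to `q`), so they are in `D.carrier` (`PData.cover`, `N = 1`). Given
`r₁ < r < r₂` choose `0 < t < δ` with `t < r₂ - r`, `δ - t < r - r₁` (possible as `δ < r₂ - r₁`); the point at distance
`t` from `q` is in the open set of `hno`, which therefore has positive measure. -/
theorem far_of_no_overlap {D : Domain 2} {S₀ : Set (E 2)} {r₀ : ℝ} {K : Fin 1 → Set (E 2)}
    (P : PData D S₀ r₀ 1 K) {r₁ r₂ : ℝ} (h12 : r₁ < r₂)
    (hno : ¬ ∀ r, r₁ < r → r < r₂ →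
      0 < volume (D.carrier ∩ {x | infDist x S₀ < r₂ - r ∧ infDist x (K 0) < r - r₁})) :
    (∀ y ∈ K 0, r₂ - r₁ ≤ infDist y S₀) ∧ ∀ x ∈ D.carrier, r₂ - r₁ ≤ infDist x S₀ + infDist x (K 0) := by
  have hKne : (K 0).Nonempty := by
    by_contra h
    have h1 := P.pos 0
    rw [not_nonempty_iff_eq_empty.1 h] at h1
    simp at h1
  have hKc := P.compact 0
  have hSne : S₀.Nonempty := by
    by_contra h
    have h1 := P.cover
    rw [not_nonempty_iff_eq_empty.1 h, compl_empty] at h1
    have h2 : Bornology.IsBounded (univ : Set (E 2)) := by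
      rw [← h1]
      refine D.isBounded.union ?_
      exact (isCompact_iUnion fun i => P.compact i).isBounded
    exact NormedSpace.unbounded_univ ℝ (E 2) h2
  have hScl : IsClosed S₀ := P.outer.closed
  have key : ∀ y ∈ K 0, r₂ - r₁ ≤ infDist y S₀ := by
    by_contra hcon
    push Not at hcon
    obtain ⟨y, hy, hlt⟩ := hcon
    obtain ⟨y₀, hy₀, hmin⟩ := hKc.exists_isMinOn hKne (continuous_infDist_pt S₀).continuousOn
    obtain ⟨q, hq, hdq⟩ := hScl.exists_infDist_eq_dist hSne y₀
    have hδlt : dist y₀ q < r₂ - r₁ := by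
      rw [← hdq]
      exact lt_of_le_of_lt (hmin hy) hlt
    have hne : y₀ ≠ q := fun h => Set.disjoint_left.1 (P.disj0 0) hy₀ (h ▸ hq)
    have hδ : 0 < dist y₀ q := dist_pos.2 hne
    apply hno
    intro r hr1 hr2
    set δ := dist y₀ q with hδdef
    obtain ⟨t, ht1, ht2⟩ := exists_between (show max 0 (δ - (r - r₁)) < min δ (r₂ - r) by
      rw [max_lt_iff, lt_min_iff, lt_min_iff]
      refine ⟨⟨hδ, by linarith⟩, by linarith, by linarith⟩)
    rw [max_lt_iff] at ht1
    rw [lt_min_iff] at ht2
    have hop : IsOpen (D.carrier ∩ {x | infDist x S₀ < r₂ - r ∧ infDist x (K 0) < r - r₁}) := by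
      refine D.isOpen.inter (IsOpen.inter ?_ ?_)
      · exact isOpen_lt (continuous_infDist_pt S₀) continuous_const
      · exact isOpen_lt (continuous_infDist_pt (K 0)) continuous_const
    refine hop.measure_pos volume ⟨AffineMap.lineMap q y₀ (t / δ), ?_, ?_, ?_⟩
    · have hd1 : dist (AffineMap.lineMap q y₀ (t / δ) : E 2) q = t := by
        rw [dist_lineMap_left, Real.norm_of_nonneg (by have := ht1.1; positivity), dist_comm, ← hδdef]
        field_simp
      have hd2 : dist (AffineMap.lineMap q y₀ (t / δ) : E 2) y₀ = δ - t := by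
        rw [dist_lineMap_right, Real.norm_of_nonneg, dist_comm, ← hδdef]
        · field_simp
        · rw [sub_nonneg, div_le_one hδ]
          exact ht2.1.le
      have h1 : (AffineMap.lineMap q y₀ (t / δ) : E 2) ∉ S₀ := by
        intro h
        have h2 := infDist_le_dist_of_mem (x := y₀) h
        rw [hdq, dist_comm y₀ (AffineMap.lineMap q y₀ (t / δ) : E 2), hd2] at h2
        linarith [ht1.1]
      have h3 : (AffineMap.lineMap q y₀ (t / δ) : E 2) ∉ K 0 := by
        intro h
        have h2 : infDist y₀ S₀ ≤ infDist (AffineMap.lineMap q y₀ (t / δ) : E 2) S₀ := hmin h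
        have h4 := infDist_le_dist_of_mem (x := (AffineMap.lineMap q y₀ (t / δ) : E 2)) hq
        rw [hd1] at h4
        rw [hdq] at h2
        linarith [ht2.1]
      have h5 : (AffineMap.lineMap q y₀ (t / δ) : E 2) ∈ D.carrier ∪ ⋃ i, K i := by
        rw [P.cover]
        exact h1
      rcases h5 with h5 | h5
      · exact h5
      · obtain ⟨i, hi⟩ := mem_iUnion.1 h5
        rw [Subsingleton.elim i 0] at hi
        exact absurd hi h3
    · have h4 := infDist_le_dist_of_mem (x := (AffineMap.lineMap q y₀ (t / δ) : E 2)) hq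
      refine lt_of_le_of_lt h4 ?_
      rw [dist_lineMap_left, Real.norm_of_nonneg (by have := ht1.1; positivity), dist_comm, ← hδdef]
      have : t / δ * δ = t := by field_simp
      rw [this]
      exact ht2.2
    · have h4 := infDist_le_dist_of_mem (x := (AffineMap.lineMap q y₀ (t / δ) : E 2)) hy₀
      refine lt_of_le_of_lt h4 ?_
      rw [dist_lineMap_right, Real.norm_of_nonneg (by rw [sub_nonneg, div_le_one hδ]; exact ht2.1.le),
        dist_comm, ← hδdef]
      have : (1 - t / δ) * δ = δ - t := by field_simp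
      rw [this]
      linarith [ht1.2]
  refine ⟨key, fun x _ => ?_⟩
  obtain ⟨y, hy, hxy⟩ := hKc.exists_infDist_eq_dist hKne x
  have h1 := key y hy
  have h2 : infDist y S₀ ≤ infDist x S₀ + dist y x := infDist_le_infDist_add_dist
  rw [hxy, dist_comm x y]
  linarith

end Pool.Agent.RH
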