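import Pool.Agent.H.MP_1b807b_an.RI.LenR
import Pool.Agent.H.MP_1b807b_an.HO.Final

/-! MP_1b807b_an, rigidity (RI), module Fin2: the transition theorem, final form -/

set_option autoImplicit false

namespace Pool.Agent.RH

open MeasureTheory Metric Set Filter Pool.Agent.RG Pool.Agent.RA Pool.Agent.H.MP_1b807b_an

variable {n : ℕ}

/-- the strict inequality in the class -/
theorem cls_strict2 (hn : 2 ≤ n) {R₀ : ℝ} (hR₀ : 0 < R₀) {D : Domain n} (hD : Cls n D)
    (hvol : volume.real D.carrier = om n * R₀ ^ n) {β : ℝ} (hβ : 0 < β)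
    (hnb : ¬ IsBallSet D.carrier) (hns : ¬ IsShellSet D.carrier) :
    ∃ y : ℝ, 0 ≤ y ∧ D.robin (-β) < ((-kk (n - 1) R₀ β y ^ 2 : ℝ) : EReal) := by
  by_cases hS : ConvexHoles D
  · exact cls_strict hn hR₀ hD (Or.inl hS) hvol hβ hnb hns
  · by_cases hn2 : n = 2
    · subst hn2
      obtain ⟨⟨J⟩, h | h⟩ := hD.resolve_left hS
      · exact cls_strict hn hR₀ hD (Or.inr h) hvol hβ hnb hns
      · rcases length_rigid J h hR₀ hvol hβ hnb with h1 | h1
        · exact cls_strict hn hR₀ hD (Or.inr h1) hvol hβ hnb hns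
        · exact h1
    · exact absurd (cls_of_ne hn2 hD) hS

/-- the transition theorem in the class -/
theorem transition2 (n : ℕ) (hn : 2 ≤ n) (V : ℝ) (hV : 0 < V) : ∃ αs : ℝ, αs < 0 ∧
    (∀ α, αs < α → α < 0 → ∀ D : Domain n,
      IsMax n V α D ↔ IsBallSet D.carrier ∧ volume D.carrier = ENNReal.ofReal V) ∧
    (∀ α, α < αs → (∃ D : Domain n, IsMax n V α D) ∧
      ∀ D : Domain n, IsMax n V α D → IsShellSet D.carrier) ∧
    (∀ D : Domain n, IsBallSet D.carrier → volume D.carrier = ENNReal.ofReal V →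
      IsMax n V αs D) ∧
    (∃ D : Domain n, IsShellSet D.carrier ∧ IsMax n V αs D) ∧
    (∀ D : Domain n, IsMax n V αs D → IsBallSet D.carrier ∨ IsShellSet D.carrier) ∧
    (∀ α, α < 0 → ∀ D : Domain n, IsBallSet D.carrier ∨ IsShellSet D.carrier →
      ∃ u : E n → ℝ, ContDiff ℝ 1 u ∧ 0 < (∫ x in D.carrier, u x ^ 2) ∧
        D.robin α = (D.rayleigh α u : EReal)) := by
  have hom := om_pos n
  obtain ⟨R₀, hR₀, hRV⟩ := exists_radius hn hV
  have hvol : ∀ D : Domain n, volume D.carrier = ENNReal.ofReal V →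
      volume.real D.carrier = om n * R₀ ^ n := fun D hD => by rw [real_of_vol hV hD, hRV]
  have hvol' : ∀ D : Domain n, volume.real D.carrier = om n * R₀ ^ n →
      volume D.carrier = ENNReal.ofReal V := fun D hD => vol_of_real (by rw [hD, hRV])
  obtain ⟨βs, hβs, hA, hB, hC, hE⟩ := transition1d (m := n - 1) (by omega) hR₀
  obtain ⟨B, hB1, hB2⟩ := exists_ballD hn hR₀
  -- a radial domain with the best value is a maximiser
  have hmax : ∀ (D : Domain n) (β x : ℝ), 0 < β → ConvexHoles D →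
      volume D.carrier = ENNReal.ofReal V →
      D.robin (-β) = ((-kk (n - 1) R₀ β x ^ 2 : ℝ) : EReal) →
      (∀ y, 0 ≤ y → kk (n - 1) R₀ β x ^ 2 ≤ kk (n - 1) R₀ β y ^ 2) → IsMax n V (-β) D := by
    intro D β x hβ hS hv hval hmin
    refine ⟨cls_of_sph hS, hv, fun D' hD' hv' => ?_⟩
    obtain ⟨y, hy, h1, -, -⟩ := cls_bound hn hR₀ hD' (hvol D' hv') hβ
    rw [hval]
    exact h1.trans (neg_coe_le (hmin y hy))
  refine ⟨-βs, by linarith, ?_, ?_, ?_, ?_, ?_, ?_⟩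
  · intro α hα1 hα2 D
    obtain ⟨β, rfl⟩ : ∃ β, α = -β := ⟨-α, by ring⟩
    have hβ : 0 < β := by linarith
    have hββ : β < βs := by linarith
    constructor
    · rintro ⟨hDc, hDv, hDm⟩
      refine ⟨?_, hDv⟩
      by_contra hnb
      obtain ⟨x, hx, h1, h2, -⟩ := cls_bound hn hR₀ hDc (hvol D hDv) hβ
      have h3 := hDm B (cls_of_sph (sph_of_ballSet hB1)) (hvol' B hB2)
      rw [ball_val hn hR₀ hB1 hB2 hβ] at h3
      rcases hx.eq_or_lt with h | h
      · subst h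
        exact absurd (h3.trans_lt (h2 rfl hnb)) (lt_irrefl _)
      · exact absurd (h3.trans_lt (h1.trans_lt (neg_coe_lt (hA β hβ hββ x h)))) (lt_irrefl _)
    · rintro ⟨hDb, hDv⟩
      refine hmax D β 0 hβ (sph_of_ballSet hDb) hDv (ball_val hn hR₀ hDb (hvol D hDv) hβ)
        fun y hy => ?_
      rcases hy.eq_or_lt with h | h
      · rw [← h]
      · exact (hA β hβ hββ y h).le
  · intro α hα
    obtain ⟨β, rfl⟩ : ∃ β, α = -β := ⟨-α, by ring⟩
    have hββ : βs < β := by linarith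
    have hβ : 0 < β := hβs.trans hββ
    obtain ⟨x, hx, hx1, hx2⟩ := hB β hββ
    obtain ⟨S, hS1, hS2, hS3⟩ := exists_shellD hn hR₀ hx
    have hSv := shell_val hn hR₀ hx hS1 hβ
    refine ⟨⟨S, hmax S β x hβ (sph_of_shellSet hS2) (hvol' S hS3) hSv hx2⟩, ?_⟩
    rintro D ⟨hDc, hDv, hDm⟩
    have h3 := hDm S (cls_of_sph (sph_of_shellSet hS2)) (hvol' S hS3)
    rw [hSv] at h3
    have hnb : ¬ IsBallSet D.carrier := fun hDb => by
      rw [ball_val hn hR₀ hDb (hvol D hDv) hβ] at h3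
      exact absurd (h3.trans_lt (neg_coe_lt hx1)) (lt_irrefl _)
    by_contra hns
    obtain ⟨y, hy, h4⟩ := cls_strict2 hn hR₀ hDc (hvol D hDv) hβ hnb hns
    exact absurd (h3.trans_lt (h4.trans_le (neg_coe_le (hx2 y hy)))) (lt_irrefl _)
  · intro D hDb hDv
    exact hmax D βs 0 hβs (sph_of_ballSet hDb) hDv (ball_val hn hR₀ hDb (hvol D hDv) hβs) hC
  · obtain ⟨x, hx, hxe⟩ := hE
    obtain ⟨S, hS1, hS2, hS3⟩ := exists_shellD hn hR₀ hx
    refine ⟨S, hS2, hmax S βs x hβs (sph_of_shellSet hS2) (hvol' S hS3)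
      (shell_val hn hR₀ hx hS1 hβs) fun y hy => ?_⟩
    rw [hxe]
    exact hC y hy
  · rintro D ⟨hDc, hDv, hDm⟩
    by_contra hcon
    push Not at hcon
    obtain ⟨y, hy, h4⟩ := cls_strict2 hn hR₀ hDc (hvol D hDv) hβs hcon.1 hcon.2
    have h3 := hDm B (cls_of_sph (sph_of_ballSet hB1)) (hvol' B hB2)
    rw [ball_val hn hR₀ hB1 hB2 hβs] at h3
    exact absurd (h3.trans_lt (h4.trans_le (neg_coe_le (hC y hy)))) (lt_irrefl _)
  · intro α hα D hD
    obtain ⟨β, rfl⟩ : ∃ β, α = -β := ⟨-α, by ring⟩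
    have hβ : 0 < β := by linarith
    rcases hD with hD | hD
    · obtain ⟨x₀, R, hR, h⟩ := hD
      obtain ⟨l, hl, hlβ⟩ := exists_ball (n - 1) hR hβ
      have g : GS (n - 1) 0 R β l (fun r => Pool.Agent.H.MP_1b807b_an.V (n - 1) (l * r))
          (fun r => l * W (n - 1) (l * r)) := by
        rw [← hlβ]
        exact GS_ball (by omega) hl
      obtain ⟨h1, U, hU1, hU2, hU3⟩ := rad_val hn D (le_refl (0 : ℝ)) hR (x₀ := x₀) (by
        unfold radSet
        rw [if_pos rfl]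
        exact h) hβ hl g
      exact ⟨U, hU1, hU2, by rw [h1, hU3]⟩
    · obtain ⟨x₀, r₁, r₂, hr1, hr12, h⟩ := hD
      obtain ⟨l, u, p, hl, g⟩ := Pool.Agent.H.MP_1b807b_an.exists_shell (n - 1) hr1 hr12 hβ
      obtain ⟨h1, U, hU1, hU2, hU3⟩ := rad_val hn D hr1.le hr12 (x₀ := x₀) (by
        unfold radSet
        rw [if_neg hr1.ne']
        exact h) hβ hl g
      exact ⟨U, hU1, hU2, by rw [h1, hU3]⟩


end Pool.Agent.RH
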