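import Pool.Agent.H.MP_1b807b_an.RI.VarZ

/-! MP_1b807b_an, rigidity (RI), module Fine: `A` is the distance from a point -/

set_option autoImplicit false

namespace Pool.Agent.RH

open MeasureTheory Metric Set Filter Pool.Agent.RG
open scoped RealInnerProductSpace Topology

variable {n : ℕ}

private theorem Fine_cball {U : Set (E n)} (hU : IsOpen U) {x₀ : E n} (hx : x₀ ∈ U) :
    ∃ s : ℝ, 0 < s ∧ closedBall x₀ (3 * s) ⊆ U := by
  obtain ⟨ε, hε, hb⟩ := Metric.isOpen_iff.1 hU x₀ hx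
  exact ⟨ε / 4, by linarith, (closedBall_subset_ball (by linarith)).trans hb⟩

/-- PROOF: for `x₀ ∈ U` take `closedBall x₀ (3 s) ⊆ U`; for `x ∈ ball x₀ s`, `psi_var` at `x` and at `x₀` (radius `s`)
and the nonempty open set `ball x s ∩ ball x₀ s` (positive measure). -/
theorem psi_locconst (hn : 0 < n) {U : Set (E n)} {A : E n → ℝ} (h : IsoF U A) {x₀ : E n} (hx : x₀ ∈ U) :
    ∀ᶠ x in 𝓝 x₀, gradient (Psi A) x = gradient (Psi A) x₀ := by
  obtain ⟨s, hs, hsU⟩ := Fine_cball h.op hx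
  refine Filter.mem_of_superset (ball_mem_nhds x₀ hs) fun x hxs => ?_
  show gradient (Psi A) x = gradient (Psi A) x₀
  have hd : dist x x₀ < s := hxs
  have h1 := psi_var hn h (x₀ := x) hs ((closedBall_subset_closedBall' (by linarith)).trans hsU)
  have h2 := psi_var hn h (x₀ := x₀) hs
    ((closedBall_subset_closedBall (by linarith)).trans hsU)
  rw [ae_restrict_iff' measurableSet_ball] at h1 h2
  by_contra hne
  have h3 : volume (ball x s ∩ ball x₀ s) = 0 := by
    rw [measure_eq_zero_iff_ae_notMem]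
    filter_upwards [h1, h2] with y hy1 hy2 hy
    exact hne ((hy1 hy.1).symm.trans (hy2 hy.2))
  exact ((isOpen_ball.inter isOpen_ball).measure_pos volume ⟨x, mem_ball_self hs, hxs⟩).ne' h3

private theorem Fine_dist (hn : 0 < n) {U : Set (E n)} {A : E n → ℝ} (h : IsoF U A) {x : E n}
    (hx : x ∈ U) : A x = dist x (gradient (Psi A) x) := by
  obtain ⟨s, hs, hsU⟩ := Fine_cball h.op hx
  have h1 : DifferentiableAt ℝ (Psi A) x :=
    (psi_diff hn h hs ((closedBall_subset_closedBall (by linarith)).trans hsU)).1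
  have hlip : LipschitzWith 1 A := LipschitzWith.of_dist_le_mul fun x y => by
    rw [Real.dist_eq, dist_eq_norm, NNReal.coe_one, one_mul]
    exact h.lip x y
  have h2 : DifferentiableAt ℝ A x := diff_of_psi hlip.continuous (h.pos x hx) h1
  have h3 := (psi_ident h2 (h.grad x hx h2)).2
  rw [dist_eq_norm]
  exact ((sq_eq_sq₀ (norm_nonneg _) (h.pos x hx).le).1 h3).symm

/-- PROOF: `gradient (Psi A)` is locally constant on the open set `U`, so it is constant on `C`
(`IsPreconnected.subset_left_of_subset_union`); with the constant `c`, `psi_ident` at every point `x` of `C`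
(`psi_diff`, `diff_of_psi`, `IsoF.grad`): `‖x - c‖ ^ 2 = A x ^ 2`, `A x > 0`. -/
theorem iso_dist (hn : 0 < n) {U : Set (E n)} {A : E n → ℝ} (h : IsoF U A) {C : Set (E n)}
    (hC : IsPreconnected C) (hCU : C ⊆ U) : ∃ c : E n, ∀ x ∈ C, A x = dist x c := by
  rcases C.eq_empty_or_nonempty with rfl | ⟨x₁, hx₁⟩
  · exact ⟨0, fun x hx => absurd hx (Set.notMem_empty x)⟩
  refine ⟨gradient (Psi A) x₁, fun x hx => ?_⟩
  have hV₁ : IsOpen {x | x ∈ U ∧ gradient (Psi A) x = gradient (Psi A) x₁} := by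
    rw [isOpen_iff_mem_nhds]
    rintro y ⟨hy, hy1⟩
    filter_upwards [psi_locconst hn h hy, h.op.mem_nhds hy] with z hz hzU
    exact ⟨hzU, hz.trans hy1⟩
  have hV₂ : IsOpen {x | x ∈ U ∧ gradient (Psi A) x ≠ gradient (Psi A) x₁} := by
    rw [isOpen_iff_mem_nhds]
    rintro y ⟨hy, hy1⟩
    filter_upwards [psi_locconst hn h hy, h.op.mem_nhds hy] with z hz hzU
    refine ⟨hzU, ?_⟩
    rw [hz]
    exact hy1
  have h1 := hC.subset_left_of_subset_union hV₁ hV₂
    (Set.disjoint_left.2 fun y hy1 hy2 => hy2.2 hy1.2) (fun y hy => by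
      by_cases h2 : gradient (Psi A) y = gradient (Psi A) x₁
      · exact Or.inl ⟨hCU hy, h2⟩
      · exact Or.inr ⟨hCU hy, h2⟩) ⟨x₁, hx₁, hCU hx₁, rfl⟩
  rw [← (h1 hx).2]
  exact Fine_dist hn h (hCU hx)

end Pool.Agent.RH
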