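import Pool.Agent.H.MP_1b807b_an.RI.Defs

/-! MP_1b807b_an, rigidity (RI), module FvA: Lipschitz functions -/

set_option autoImplicit false

namespace Pool.Agent.RH

open MeasureTheory Metric Set Filter Pool.Agent.RG
open scoped RealInnerProductSpace Topology

variable {n : ℕ}

theorem LipF.lipschitz {v : E n → ℝ} (hv : LipF v) : ∃ C : NNReal, LipschitzWith C v := by
  obtain ⟨C, hC0, hC⟩ := hv
  refine ⟨⟨C, hC0⟩, LipschitzWith.of_dist_le_mul fun x y => ?_⟩
  rw [Real.dist_eq, dist_eq_norm]
  exact hC x y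

theorem LipF.cont {v : E n → ℝ} (hv : LipF v) : Continuous v := by
  obtain ⟨C, hC⟩ := hv.lipschitz
  exact hC.continuous

theorem LipF.ae_diff {v : E n → ℝ} (hv : LipF v) : ∀ᵐ x, DifferentiableAt ℝ v x := by
  obtain ⟨C, hC⟩ := hv.lipschitz
  exact hC.ae_differentiableAt

theorem LipF.add_smul {v h : E n → ℝ} (hv : LipF v) (hh : LipF h) (t : ℝ) :
    LipF fun x => v x + t * h x := by
  obtain ⟨C, hC0, hC⟩ := hv
  obtain ⟨C', hC0', hC'⟩ := hh
  refine ⟨C + |t| * C', by positivity, fun x x' => ?_⟩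
  have e : v x + t * h x - (v x' + t * h x') = (v x - v x') + t * (h x - h x') := by ring
  show |v x + t * h x - (v x' + t * h x')| ≤ _
  rw [e]
  refine (abs_add_le _ _).trans ?_
  rw [abs_mul, add_mul, mul_assoc]
  exact add_le_add (hC x x') (mul_le_mul_of_nonneg_left (hC' x x') (abs_nonneg t))

/-- PROOF: the norm of the gradient is the norm of the derivative (`InnerProductSpace.toDual` is an isometry). -/
theorem norm_gradient (v : E n → ℝ) (x : E n) : ‖gradient v x‖ = ‖fderiv ℝ v x‖ := by
  unfold gradient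
  exact LinearIsometryEquiv.norm_map _ _

end Pool.Agent.RH
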