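import Pool.Agent.H.MP_1b807b_an.RI.FvA

/-! MP_1b807b_an, rigidity (RI), module FvE: expansion of the form -/

set_option autoImplicit false

namespace Pool.Agent.RH

open MeasureTheory Metric Set Filter Pool.Agent.RG
open scoped RealInnerProductSpace Topology

variable {n : ℕ}

private theorem FvE_meas (v : E n → ℝ) : Measurable fun x => gradient v x := by
  have h1 : Measurable (fderiv ℝ v) := measurable_fderiv ℝ v
  exact (InnerProductSpace.toDual ℝ (E n)).symm.continuous.measurable.comp h1

private theorem FvE_bdd {v : E n → ℝ} (hv : LipF v) : ∃ C : ℝ, 0 ≤ C ∧ ∀ x, ‖gradient v x‖ ≤ C := by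
  obtain ⟨C, hC⟩ := hv.lipschitz
  refine ⟨C, C.2, fun x => ?_⟩
  rw [norm_gradient]
  exact norm_fderiv_le_of_lipschitz ℝ hC

private theorem FvE_fin (D : Domain n) : IsFiniteMeasure (volume.restrict D.carrier) :=
  ⟨by
    rw [Measure.restrict_apply_univ]
    exact D.isBounded.measure_lt_top⟩

private theorem FvE_cont (D : Domain n) {g : E n → ℝ} (hg : Continuous g) :
    Integrable g (volume.restrict D.carrier) :=
  (hg.locallyIntegrable.integrableOn_isCompact D.isBounded.isCompact_closure).mono_set
    subset_closure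

private theorem FvE_inner (D : Domain n) {v h : E n → ℝ} (hv : LipF v) (hh : LipF h) :
    Integrable (fun x => ⟪gradient v x, gradient h x⟫) (volume.restrict D.carrier) := by
  haveI := FvE_fin D
  obtain ⟨C, hC0, hC⟩ := FvE_bdd hv
  obtain ⟨C', hC0', hC'⟩ := FvE_bdd hh
  refine Integrable.of_bound (C := C * C') ?_ ?_
  · exact ((FvE_meas v).inner (FvE_meas h)).aestronglyMeasurable
  · refine Eventually.of_forall fun x => ?_
    rw [Real.norm_eq_abs]
    exact (abs_real_inner_le_norm _ _).trans (mul_le_mul (hC x) (hC' x) (norm_nonneg _) hC0)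

private theorem FvE_sq (D : Domain n) {v : E n → ℝ} (hv : LipF v) :
    Integrable (fun x => ‖fderiv ℝ v x‖ ^ 2) (volume.restrict D.carrier) := by
  refine (FvE_inner D hv hv).congr (Eventually.of_forall fun x => ?_)
  beta_reduce
  rw [real_inner_self_eq_norm_sq, norm_gradient]

private theorem FvE_grad {v h : E n → ℝ} (t : ℝ) {x : E n} (hv : DifferentiableAt ℝ v x)
    (hh : DifferentiableAt ℝ h x) :
    gradient (fun x => v x + t * h x) x = gradient v x + t • gradient h x := by
  have e : fderiv ℝ (fun x => v x + t * h x) x = fderiv ℝ v x + t • fderiv ℝ h x := by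
    have h1 : HasFDerivAt (fun x => v x + t * h x) (fderiv ℝ v x + t • fderiv ℝ h x) x :=
      hv.hasFDerivAt.add (hh.hasFDerivAt.const_mul t)
    exact h1.fderiv
  unfold gradient
  rw [e, map_add, map_smul]

private theorem FvE_split {μ : Measure (E n)} {a b c : E n → ℝ} (ha : Integrable a μ)
    (hb : Integrable b μ) (hc : Integrable c μ) (s r : ℝ) :
    ∫ x, (a x + s * b x + r * c x) ∂μ = (∫ x, a x ∂μ) + s * (∫ x, b x ∂μ) + r * ∫ x, c x ∂μ := by
  have h1 : Integrable (fun x => a x + s * b x) μ := ha.add (hb.const_mul s)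
  rw [integral_add h1 (hc.const_mul r), integral_add ha (hb.const_mul s), integral_const_mul,
    integral_const_mul]

/-- Expansion. PROOF: almost everywhere both functions are differentiable and the gradient of
`v + t h` is `gradient v + t • gradient h`; expand the squares; `h` vanishes on the frontier, which
carries `D.surface` (`D.support`), so the surface integral does not change. All integrands are bounded
(Lipschitz functions have bounded gradients, `D.carrier` is bounded; measurability of the gradient: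
`measurable_fderiv` and continuity of `toDual.symm`), so the integrals split. -/
theorem qf_expand (D : Domain n) {β k : ℝ} {v h : E n → ℝ} (hv : LipF v) (hh : LipF h)
    (h0 : ∀ x ∈ frontier D.carrier, h x = 0) (t : ℝ) :
    qf D β k (fun x => v x + t * h x) = qf D β k v +
      2 * t * (∫ x in D.carrier, (⟪gradient v x, gradient h x⟫ + k ^ 2 * (v x * h x))) +
      t ^ 2 * ((∫ x in D.carrier, ‖fderiv ℝ h x‖ ^ 2) + k ^ 2 * ∫ x in D.carrier, h x ^ 2) := by
  have i1 := FvE_sq D hv
  have i2 := FvE_sq D hh
  have i3 := FvE_inner D hv hh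
  have i4 : Integrable (fun x => v x ^ 2) (volume.restrict D.carrier) :=
    FvE_cont D (hv.cont.pow 2)
  have i5 : Integrable (fun x => h x ^ 2) (volume.restrict D.carrier) :=
    FvE_cont D (hh.cont.pow 2)
  have i6 : Integrable (fun x => v x * h x) (volume.restrict D.carrier) :=
    FvE_cont D (hv.cont.mul hh.cont)
  have e1 : (∫ x in D.carrier, ‖fderiv ℝ (fun x => v x + t * h x) x‖ ^ 2) =
      (∫ x in D.carrier, ‖fderiv ℝ v x‖ ^ 2) + 2 * t * (∫ x in D.carrier, ⟪gradient v x, gradient h x⟫)
        + t ^ 2 * ∫ x in D.carrier, ‖fderiv ℝ h x‖ ^ 2 := by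
    have e2 : (∫ x in D.carrier, ‖fderiv ℝ (fun x => v x + t * h x) x‖ ^ 2) =
        ∫ x in D.carrier, (‖fderiv ℝ v x‖ ^ 2 + 2 * t * ⟪gradient v x, gradient h x⟫
          + t ^ 2 * ‖fderiv ℝ h x‖ ^ 2) := by
      refine integral_congr_ae ?_
      filter_upwards [ae_restrict_of_ae hv.ae_diff, ae_restrict_of_ae hh.ae_diff] with x hx hx'
      rw [← norm_gradient, FvE_grad t hx hx', norm_add_sq_real, real_inner_smul_right, norm_smul,
        norm_gradient, norm_gradient, mul_pow, Real.norm_eq_abs, sq_abs]
      ring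
    rw [e2, FvE_split i1 i3 i2]
  have e3 : (∫ x, (v x + t * h x) ^ 2 ∂D.surface) = ∫ x, v x ^ 2 ∂D.surface := by
    refine integral_congr_ae ?_
    have h1 : ∀ᵐ x ∂D.surface, x ∈ frontier D.carrier := D.support
    filter_upwards [h1] with x hx
    rw [h0 x hx, mul_zero, add_zero]
  have e4 : (∫ x in D.carrier, (v x + t * h x) ^ 2) = (∫ x in D.carrier, v x ^ 2) +
      2 * t * (∫ x in D.carrier, v x * h x) + t ^ 2 * ∫ x in D.carrier, h x ^ 2 := by
    have e5 : (∫ x in D.carrier, (v x + t * h x) ^ 2) =
        ∫ x in D.carrier, (v x ^ 2 + 2 * t * (v x * h x) + t ^ 2 * h x ^ 2) :=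
      integral_congr_ae (Eventually.of_forall fun x => by
        beta_reduce
        ring)
    rw [e5, FvE_split i4 i6 i5]
  have e6 : (∫ x in D.carrier, (⟪gradient v x, gradient h x⟫ + k ^ 2 * (v x * h x))) =
      (∫ x in D.carrier, ⟪gradient v x, gradient h x⟫) + k ^ 2 * ∫ x in D.carrier, v x * h x := by
    rw [integral_add i3 (i6.const_mul (k ^ 2)), integral_const_mul]
  unfold qf
  rw [e1, e3, e4, e6]
  ring

end Pool.Agent.RH
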