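import Pool.Agent.H.MP_1b807b_an.RI.Qf
import Pool.Agent.H.MP_1b807b_an.RI.FvE

/-! MP_1b807b_an, rigidity (RI), module FvB: the first variation -/

set_option autoImplicit false

namespace Pool.Agent.RH

open MeasureTheory Metric Set Filter Pool.Agent.RG
open scoped RealInnerProductSpace Topology

variable {n : ℕ}

theorem quad_zero {q B e t₀ : ℝ} (hq : q ≤ 0) (ht₀ : 0 < t₀)
    (h : ∀ t : ℝ, |t| ≤ t₀ → 0 ≤ q + 2 * t * B + t ^ 2 * e) : B = 0 := by
  by_contra hB
  have hB0 : 0 < |B| := abs_pos.2 hB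
  have he0 : 0 < |e| + 1 := by positivity
  obtain ⟨s, hs⟩ : ∃ s : ℝ, s = min (t₀ / |B|) (1 / (|e| + 1)) := ⟨_, rfl⟩
  have hs0 : 0 < s := by rw [hs]; exact lt_min (by positivity) (by positivity)
  have hs1 : s * |B| ≤ t₀ := by
    have h1 : s ≤ t₀ / |B| := by rw [hs]; exact min_le_left _ _
    rwa [le_div_iff₀ hB0] at h1
  have hs2 : s * (|e| + 1) ≤ 1 := by
    have h1 : s ≤ 1 / (|e| + 1) := by rw [hs]; exact min_le_right _ _
    rwa [le_div_iff₀ he0] at h1
  have h2 := h (-(s * B)) (by rw [abs_neg, abs_mul, abs_of_pos hs0]; exact hs1)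
  have h3 : s * e ≤ 1 := by
    have : s * e ≤ s * (|e| + 1) := by
      apply mul_le_mul_of_nonneg_left _ hs0.le
      linarith [le_abs_self e]
    linarith
  have h4 : 0 < s * B ^ 2 := by positivity
  have h5 : 0 ≤ s * B ^ 2 * (s * e - 2) := by nlinarith
  have h6 : s * B ^ 2 * (s * e - 2) < 0 := mul_neg_of_pos_of_neg h4 (by linarith)
  linarith

private theorem FvB_cont {w : E n → ℝ} (hw : LipF w) : Continuous w := by
  obtain ⟨C, hC, hw⟩ := hw
  have h1 : LipschitzWith ⟨C, hC⟩ w := LipschitzWith.of_dist_le_mul fun x y => by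
    rw [Real.dist_eq, dist_eq_norm]
    exact hw x y
  exact h1.continuous

private theorem FvB_lip {w h : E n → ℝ} (hw : LipF w) (hh : LipF h) (t : ℝ) :
    LipF fun x => w x + t * h x := by
  obtain ⟨C, hC, hw⟩ := hw
  obtain ⟨C', hC', hh⟩ := hh
  refine ⟨C + |t| * C', by positivity, fun x x' => ?_⟩
  have h1 : w x + t * h x - (w x' + t * h x') = (w x - w x') + t * (h x - h x') := by ring
  rw [h1]
  calc |w x - w x' + t * (h x - h x')| ≤ |w x - w x'| + |t * (h x - h x')| := abs_add_le _ _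
    _ = |w x - w x'| + |t| * |h x - h x'| := by rw [abs_mul]
    _ ≤ C * ‖x - x'‖ + |t| * (C' * ‖x - x'‖) := by
      have := hw x x'
      have := hh x x'
      gcongr
    _ = _ := by ring

private theorem FvB_int (D : Domain n) {f : E n → ℝ} (hf : Continuous f) :
    IntegrableOn f D.carrier :=
  (hf.continuousOn.integrableOn_compact D.isBounded.isCompact_closure).mono_set subset_closure

/-- PROOF: `∫ (w + t h) ^ 2 = ∫ w ^ 2 + 2 t ∫ w h + t ^ 2 ∫ h ^ 2` is positive for small `|t|`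
(everything is bounded on the bounded set `D.carrier`). -/
theorem pos_small (D : Domain n) {w h : E n → ℝ} (hw : LipF w) (hh : LipF h)
    (hpos : 0 < ∫ x in D.carrier, w x ^ 2) : ∃ t₀ : ℝ, 0 < t₀ ∧ ∀ t : ℝ, |t| ≤ t₀ →
      0 < ∫ x in D.carrier, (w x + t * h x) ^ 2 := by
  have hwc := FvB_cont hw
  have hhc := FvB_cont hh
  obtain ⟨b, hb⟩ : ∃ b, b = ∫ x in D.carrier, w x * h x := ⟨_, rfl⟩
  obtain ⟨a, ha⟩ : ∃ a, a = ∫ x in D.carrier, w x ^ 2 := ⟨_, rfl⟩
  rw [← ha] at hpos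
  refine ⟨a / (4 * (|b| + 1)), by positivity, fun t ht => ?_⟩
  have h1 : (∫ x in D.carrier, (w x + t * h x) ^ 2) =
      a + 2 * t * b + t ^ 2 * ∫ x in D.carrier, h x ^ 2 := by
    rw [ha, hb, ← integral_const_mul, ← integral_const_mul, ← integral_add, ← integral_add]
    · congr 1
      ext x
      ring
    · exact (FvB_int D (hwc.pow 2)).add ((FvB_int D (hwc.mul hhc)).const_mul _)
    · exact (FvB_int D (hhc.pow 2)).const_mul _
    · exact FvB_int D (hwc.pow 2)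
    · exact (FvB_int D (hwc.mul hhc)).const_mul _
  have h2 : 0 ≤ ∫ x in D.carrier, h x ^ 2 := integral_nonneg fun x => sq_nonneg _
  have h3 : 0 ≤ t ^ 2 * ∫ x in D.carrier, h x ^ 2 := mul_nonneg (sq_nonneg _) h2
  have h4 : |t| * (4 * (|b| + 1)) ≤ a := by
    rwa [le_div_iff₀ (by positivity)] at ht
  have h5 : -(|t| * |b|) ≤ t * b := by
    rw [← abs_mul]
    exact neg_abs_le _
  have h6 : 0 ≤ |t| := abs_nonneg t
  have h7 : 2 * (|t| * |b|) ≤ a / 2 := by nlinarith [abs_nonneg b]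
  rw [h1]
  linarith

/-- PROOF: `qf_nonneg` for `w + t h`, `|t| ≤ t₀` (`pos_small`), `qf_expand`, `quad_zero`. -/
theorem first_variation (hn : 0 < n) (D : Domain n) {β k : ℝ}
    (hrob : ((-k ^ 2 : ℝ) : EReal) ≤ D.robin (-β)) {w h : E n → ℝ} (hw : LipF w) (hh : LipF h)
    (hpos : 0 < ∫ x in D.carrier, w x ^ 2) (hq : qf D β k w ≤ 0)
    (h0 : ∀ x ∈ frontier D.carrier, h x = 0) :
    ∫ x in D.carrier, (⟪gradient w x, gradient h x⟫ + k ^ 2 * (w x * h x)) = 0 := by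
  obtain ⟨t₀, ht₀, ht⟩ := pos_small D hw hh hpos
  refine quad_zero (e := (∫ x in D.carrier, ‖fderiv ℝ h x‖ ^ 2) +
    k ^ 2 * ∫ x in D.carrier, h x ^ 2) hq ht₀ fun t htt => ?_
  have h1 := qf_nonneg hn D hrob (FvB_lip hw hh t) (ht t htt)
  rw [qf_expand D hw hh h0 t] at h1
  exact h1

end Pool.Agent.RH
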