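import Pool.Agent.H.MP_1b807b_an.RI.CoreE
import Pool.Agent.H.MP_1b807b_an.RI.CutF
import Pool.Agent.H.MP_1b807b_an.RI.Fine
import Pool.Agent.H.MP_1b807b_an.RI.AnnC
import Pool.Agent.H.MP_1b807b_an.RI.AnnD
import Pool.Agent.H.MP_1b807b_an.RI.FarD
import Pool.Agent.H.MP_1b807b_an.HO.PlanarMain

/-! MP_1b807b_an, rigidity (RI), module LenR: equality under the condition on the lengths -/

set_option autoImplicit false

namespace Pool.Agent.RH

open MeasureTheory Metric Set Filter Pool.Agent.RG Pool.Agent.RA Pool.Agent.RP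
  Pool.Agent.H.MP_1b807b_an
open scoped Topology

/-- Under the condition on the lengths: `D` is a disc with holes or the inequality is strict. -/
theorem length_rigid {D : Domain 2} (J : JordanBoundary D)
    (h : D.surface.real (⋃₀ holes D)ᶜ ^ 2 ≤
      4 * Real.pi * volume.real D.carrier + ∑ᶠ K ∈ holes D, D.surface.real K ^ 2)
    {R₀ : ℝ} (hR₀ : 0 < R₀) (hvol : volume.real D.carrier = om 2 * R₀ ^ 2) {β : ℝ} (hβ : 0 < β)
    (hnb : ¬ IsBallSet D.carrier) :
    (∃ (x₀ : E 2) (R : ℝ), 0 < R ∧ D.carrier ∪ ⋃₀ holes D = ball x₀ R) ∨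
      ∃ x : ℝ, 0 ≤ x ∧ D.robin (-β) < ((-kk 1 R₀ β x ^ 2 : ℝ) : EReal) := by
  classical
  have hpi := Real.pi_pos
  have hfin' := D.isFinite
  rw [om_two] at hvol
  by_contra hcon
  rw [not_or] at hcon
  obtain ⟨hcon1, hcon2⟩ := hcon
  obtain ⟨S₀, r, N, K, P⟩ := exists_pdata J
  obtain ⟨R, hR, hlen, hc₀, hv, hs⟩ := length_case P h
  have hRR : R₀ ^ 2 ≤ R ^ 2 := by
    rw [hvol] at hv
    exact le_of_mul_le_mul_left hv hpi
  obtain ⟨x, hxd⟩ : ∃ x, x = Real.sqrt (R ^ 2 - R₀ ^ 2) := ⟨_, rfl⟩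
  have hx0 : 0 ≤ x := by
    rw [hxd]
    exact Real.sqrt_nonneg _
  have hx2 : x ^ 2 = R ^ 2 - R₀ ^ 2 := by
    rw [hxd]
    exact Real.sq_sqrt (by linarith)
  have hout : R = outer 1 R₀ x := outer_unique 1 hR₀ hx0 hR (by
    rw [show (1 + 1 : ℕ) = 2 from rfl, hx2]
    ring)
  have hxR : x < R := by
    rw [hout]
    exact lt_outer 1 hR₀ hx0
  obtain ⟨hk, u, p, g⟩ := kk_spec (m := 1) le_rfl hR₀ hβ hx0
  rw [← hout] at g
  have hrob : ((-kk 1 R₀ β x ^ 2 : ℝ) : EReal) ≤ D.robin (-β) := by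
    by_contra hlt
    exact hcon2 ⟨x, hx0, not_le.1 hlt⟩
  obtain ⟨ρ, hρd⟩ : ∃ ρ : Fin N → ℝ, ρ = fun i => D.surface.real (K i) / (2 * Real.pi) := ⟨_, rfl⟩
  have hρ : ∀ i, 0 < ρ i := fun i => by
    rw [hρd]
    exact div_pos (P.pos i) (by positivity)
  have hρ2 : ∀ i, D.surface.real (K i) = 2 * Real.pi * ρ i := fun i => by
    rw [hρd]
    field_simp
  have hsum : x ^ 2 ≤ ∑ i, ρ i ^ 2 := by
    rw [hx2, hρd]
    refine le_trans (le_of_eq ?_) hs
    rw [hvol]
    field_simp
  have hvol2 : volume.real D.carrier ≤ om 2 * (R ^ 2 - x ^ 2) := by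
    rw [om_two, hx2, hvol]
    refine le_of_eq ?_
    ring
  have hPO : (2 : ℕ) * om 2 * R ^ (2 - 1) ≤ D.surface.real S₀ := by
    rw [om_two]
    have h1 : D.surface.real S₀ = 2 * Real.pi * R := hlen.symm
    rw [h1]
    simp
  have hcO : ∀ t ∈ Icc 0 R, volume.real (D.carrier ∩ {x | infDist x S₀ ≤ t}) ≤
      om 2 * (R ^ 2 - (R - t) ^ 2) := fun t ht => by
    rw [om_two]
    exact hc₀ t ht
  have hcore := (core_full (n := 2) le_rfl D hβ hk hx0 hxR g P.outer.closed hPO hcO
    K ρ (fun i => (P.compact i).isClosed) P.disj0 P.disj hρ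
    (fun i => by
      rw [om_two, hρ2 i]
      simp)
    (fun i t ht => by
      rw [om_two]
      refine (P.tube i t ht).trans (le_of_eq ?_)
      rw [hρ2 i]
      ring) hsum hvol2).2
  have hns : ¬ ((∃ i, ρ i ≠ x) ∨ (∃ i, ∀ r, x < r → r < R →
        0 < volume (D.carrier ∩ {y | infDist y S₀ < R - r ∧ infDist y (K i) < r - x})) ∨
        (0 < x ∧ x ^ 2 < ∑ i, ρ i ^ 2)) := fun h' => absurd (hcore h') (not_lt.2 hrob)
  rw [not_or, not_or] at hns
  obtain ⟨hn1, hn2, hn3⟩ := hns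
  have hρx : ∀ i, ρ i = x := fun i => by
    by_contra hne
    exact hn1 ⟨i, hne⟩
  rcases Nat.eq_zero_or_pos N with hN | hN
  · -- no holes: a disc
    subst hN
    have hx00 : x ^ 2 ≤ 0 := by simpa using hsum
    have hx1 : x = 0 := by
      have := pow_eq_zero_iff (n := 2) (by norm_num) |>.1 (le_antisymm hx00 (sq_nonneg x))
      exact this
    have hRR0 : R = R₀ := by
      have h3 : R ^ 2 = R₀ ^ 2 := by
        rw [hx1] at hx2
        nlinarith
      exact (pow_left_inj₀ hR.le hR₀.le two_ne_zero).1 h3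
    subst hRR0
    have h5 : D.carrier = S₀ᶜ := by
      rw [← P.cover, iUnion_of_empty, union_empty]
    have h6 : D.surface.real S₀ᶜ = 0 := by
      rw [← h5, measureReal_def]
      have h7 : D.surface D.carrier = 0 := by
        refine measure_mono_null ?_ D.support
        intro y hy hyf
        rw [D.isOpen.frontier_eq] at hyf
        exact hyf.2 hy
      rw [h7, ENNReal.toReal_zero]
    have h8 : D.perimeter = 2 * Real.pi * R := by
      rw [perimeter_split P.outer, h6, add_zero, ← hlen]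
    have h9 : volume D.carrier = volume (ball (0 : E 2) R) := by
      rw [← ENNReal.toReal_eq_toReal_iff' D.isBounded.measure_lt_top.ne
        measure_ball_lt_top.ne]
      change volume.real D.carrier = volume.real (ball (0 : E 2) R)
      rw [(vol_ball le_rfl (0 : E 2) hR.le).1, om_two, hvol]
    obtain ⟨x₀, hx₀⟩ := planar_eq J hR h9 (by rw [perimeter_disc hR, h8])
    exact hnb ⟨x₀, R, hR, hx₀⟩
  · -- one hole
    have hxpos : 0 < x := by
      rw [← hρx ⟨0, hN⟩]
      exact hρ _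
    have hN1 : N = 1 := by
      have h1 : ∑ i, ρ i ^ 2 ≤ x ^ 2 := by
        by_contra hlt
        exact hn3 ⟨hxpos, not_le.1 hlt⟩
      have h2 : ∑ i, ρ i ^ 2 = N * x ^ 2 := by
        simp [hρx]
      rw [h2] at h1
      have h3 : (N : ℝ) ≤ 1 := by
        have h4 : 0 < x ^ 2 := by positivity
        by_contra h5
        push Not at h5
        nlinarith
      have h4 : N ≤ 1 := by exact_mod_cast h3
      omega
    subst hN1
    have hno : ¬ ∀ r, x < r → r < R →
        0 < volume (D.carrier ∩ {y | infDist y S₀ < R - r ∧ infDist y (K 0) < r - x}) := fun h' =>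
      hn2 ⟨0, h'⟩
    obtain ⟨hfar, hfar2⟩ := far_of_no_overlap P hxR hno
    obtain ⟨rm, w, hrm1, hrm2, hp, hwL, hpos, hq, hloc⟩ := core_ext (n := 2) le_rfl D hβ hk hx0 hxR g
      P.outer.closed hPO hcO K (fun i => (P.compact i).isClosed) P.disj0 P.disj hxpos
      (fun i => by
        rw [om_two, hρ2 i, hρx i]
        simp)
      (fun i t ht => by
        rw [om_two]
        refine (P.tube i t ht).trans (le_of_eq ?_)
        rw [hρ2 i, hρx i]
        ring) ⟨0⟩ hvol2
    have hdis : Disjoint D.carrier S₀ := Set.disjoint_left.2 fun y hy hy' => P.outer.sub hy hy'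
    have hI := collar_iso (n := 2) le_rfl D hx0 g hrm1.le hrm2 hp P.outer.closed P.outer.ne hdis hrob
      hwL hpos hq (fun y hy hy2 => hloc y hy2.le fun i => by
        have h1 := hfar2 y hy
        have h2 : i = 0 := Subsingleton.elim _ _
        rw [h2]
        linarith)
    have hfar3 : ∀ i, ∀ y ∈ K i, R - rm ≤ infDist y S₀ := fun i y hy => by
      have h2 : i = 0 := Subsingleton.elim _ _
      rw [h2] at hy
      have h1 := hfar y hy
      linarith
    obtain ⟨z, hz1, hz2⟩ := collar_ne P (sub_pos.2 hrm2) hfar3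
    obtain ⟨c, hc⟩ := iso_dist (n := 2) two_pos hI
      (C := connectedComponentIn {x | x ∈ D.carrier ∧ infDist x S₀ < R - rm} z)
      isPreconnected_connectedComponentIn (connectedComponentIn_subset _ _)
    have hA := ann_sub P (hx0.trans hrm1.le) hrm2 ⟨hz1, hz2⟩ hc hfar3
    exact hcon1 ⟨c, R, hR, topo_ball P (hx0.trans hrm1.le) hrm2 hA⟩

end Pool.Agent.RH
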