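import Pool.Agent.H.MP_1b807b_an.RI.Defs
import Pool.Agent.H.MP_1b807b_an.HO.MaxTest

/-! MP_1b807b_an, rigidity (RI), module MaxT: the quadratic form of the test function -/

set_option autoImplicit false

namespace Pool.Agent.RH

open MeasureTheory Metric Set Filter Pool.Agent.RG
open scoped Topology

variable {n : ℕ}

/-- a collar profile is at least `μ` on `[0, ∞)` -/
private theorem MaxT_ge {k μ T : ℝ} {f f' : ℝ → ℝ} (hf : Prof k μ T f f') {t : ℝ} (ht : 0 ≤ t) :
    μ ≤ f t := by
  by_cases h : t < T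
  · exact (hf.gt t ht h).le
  · exact (hf.tail t (not_lt.1 h)).1.ge

private theorem MaxT_vge {ι : Type} [Fintype ι] [Nonempty ι] {k μ : ℝ} (S : ι → Set (E n))
    {T : ι → ℝ} {f f' : ι → ℝ → ℝ} (hf : ∀ i, Prof k μ (T i) (f i) (f' i)) (x : E n) :
    μ ≤ vmax S f x := by
  obtain ⟨i⟩ := (inferInstance : Nonempty ι)
  exact (MaxT_ge (hf i) infDist_nonneg).trans (le_vmax S f x i)

private theorem MaxT_cont {v : E n → ℝ} {C : ℝ} (hv : ∀ x x', |v x - v x'| ≤ C * ‖x - x'‖) :
    Continuous v := by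
  rw [Metric.continuous_iff]
  intro b ε hε
  refine ⟨ε / (|C| + 1), by positivity, fun a ha => ?_⟩
  rw [Real.dist_eq]
  have h1 := hv a b
  have h2 : C * ‖a - b‖ ≤ |C| * ‖a - b‖ :=
    mul_le_mul_of_nonneg_right (le_abs_self C) (norm_nonneg _)
  rw [dist_eq_norm] at ha
  have h3 : ‖a - b‖ * (|C| + 1) < ε := by
    rwa [lt_div_iff₀ (by positivity)] at ha
  nlinarith [norm_nonneg (a - b)]

/-- the surface integral of the square is at least the sum over the disjoint pieces -/
private theorem MaxT_surf (D : Domain n) {k μ : ℝ} (hμ : 0 < μ)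
    {ι : Type} [Fintype ι] [Nonempty ι] (S : ι → Set (E n)) (hS : ∀ i, IsClosed (S i))
    (hdisj : ∀ i j, i ≠ j → Disjoint (S i) (S j)) {T : ι → ℝ} {f f' : ι → ℝ → ℝ}
    (hf : ∀ i, Prof k μ (T i) (f i) (f' i)) (hc : Continuous (vmax S f)) :
    ∑ i, f i 0 ^ 2 * D.surface.real (S i) ≤ ∫ x, vmax S f x ^ 2 ∂D.surface := by
  classical
  have := D.isFinite
  have hcomp : IsCompact (frontier D.carrier) :=
    Metric.isCompact_of_isClosed_isBounded isClosed_frontier
      (D.isBounded.closure.subset frontier_subset_closure)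
  have hrest : D.surface.restrict (frontier D.carrier) = D.surface := by
    apply Measure.restrict_eq_self_of_ae_mem
    rw [ae_iff]
    exact D.support
  have hint : Integrable (fun x => vmax S f x ^ 2) D.surface := by
    have h := (hc.pow 2).continuousOn.integrableOn_compact (μ := D.surface) hcomp
    rwa [IntegrableOn, hrest] at h
  have hterm : ∀ i, f i 0 ^ 2 * D.surface.real (S i) =
      ∫ x, (S i).indicator (fun _ => f i 0 ^ 2) x ∂D.surface := by
    intro i
    rw [integral_indicator (hS i).measurableSet, setIntegral_const, smul_eq_mul, mul_comm]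
  have hii : ∀ i ∈ (Finset.univ : Finset ι),
      Integrable (fun x => (S i).indicator (fun _ => f i 0 ^ 2) x) D.surface := by
    intro i _
    exact (integrable_const (f i 0 ^ 2)).indicator (hS i).measurableSet
  rw [Finset.sum_congr rfl fun i _ => hterm i, ← integral_finsetSum _ hii]
  refine integral_mono (integrable_finsetSum _ hii) hint fun x => ?_
  show ∑ i, (S i).indicator (fun _ => f i 0 ^ 2) x ≤ vmax S f x ^ 2
  by_cases hx : ∃ i, x ∈ S i
  · obtain ⟨i, hi⟩ := hx
    rw [Finset.sum_eq_single i]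
    · rw [indicator_of_mem hi]
      have h0 : infDist x (S i) = 0 := infDist_zero_of_mem hi
      have h1 := le_vmax S f x i
      rw [h0] at h1
      have h2 : μ ≤ f i 0 := MaxT_ge (hf i) le_rfl
      exact pow_le_pow_left₀ (by linarith) h1 2
    · intro j _ hj
      rw [indicator_of_notMem]
      intro hxj
      exact Set.disjoint_left.1 (hdisj j i hj) hxj hi
    · intro h
      exact absurd (Finset.mem_univ i) h
  · push Not at hx
    rw [Finset.sum_eq_zero]
    · positivity
    · intro i _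
      rw [indicator_of_notMem (hx i)]

/-- PROOF: copy of the proof of `max_test` in `HO/MaxTest.lean` (copy also its three auxiliary lemmas,
which are private there); the last step there is exactly `qf ≤ τ`. -/
theorem max_qf (D : Domain n) {β k μ : ℝ} (hβ : 0 < β) (hμ : 0 < μ)
    {ι : Type} [Fintype ι] [Nonempty ι] (S : ι → Set (E n)) (hS : ∀ i, IsClosed (S i))
    (hdisj : ∀ i j, i ≠ j → Disjoint (S i) (S j)) {T : ι → ℝ} {f f' : ι → ℝ → ℝ}
    (hf : ∀ i, Prof k μ (T i) (f i) (f' i)) {e : E n → ℝ} (he : IntegrableOn e D.carrier)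
    (hle : ∀ x ∈ D.carrier, ∀ i, enr k μ (f i) (f' i) (infDist x (S i)) ≤ e x) {τ : ℝ}
    (htot : k ^ 2 * μ ^ 2 * volume.real D.carrier + (∫ x in D.carrier, e x) -
      β * ∑ i, f i 0 ^ 2 * D.surface.real (S i) ≤ τ) :
    LipF (vmax S f) ∧ 0 < ∫ x in D.carrier, vmax S f x ^ 2 ∧ qf D β k (vmax S f) ≤ τ := by
  classical
  obtain ⟨C, hC0, hlip⟩ := vmax_lip S hf
  have hc : Continuous (vmax S f) := MaxT_cont hlip
  have hge : ∀ x, μ ≤ vmax S f x := MaxT_vge S hf
  have hcomp : IsCompact (closure D.carrier) := D.isBounded.isCompact_closure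
  have hfin : volume D.carrier ≠ ⊤ :=
    ((measure_mono subset_closure).trans_lt hcomp.measure_lt_top).ne
  have hv2 : IntegrableOn (fun x => vmax S f x ^ 2) D.carrier :=
    ((hc.pow 2).continuousOn.integrableOn_compact hcomp).mono_set subset_closure
  have hcst : IntegrableOn (fun _ : E n => μ ^ 2) D.carrier :=
    integrableOn_const hfin
  have hpos : 0 < ∫ x in D.carrier, vmax S f x ^ 2 := by
    have h1 : ∫ _ in D.carrier, μ ^ 2 ≤ ∫ x in D.carrier, vmax S f x ^ 2 := by
      refine setIntegral_mono hcst hv2 fun x => ?_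
      exact pow_le_pow_left₀ hμ.le (hge x) 2
    rw [setIntegral_const, smul_eq_mul] at h1
    have h2 : 0 < volume.real D.carrier := by
      rw [Measure.real, ENNReal.toReal_pos_iff]
      exact ⟨D.isOpen.measure_pos volume D.isConnected.nonempty, hfin.lt_top⟩
    have h3 : 0 < volume.real D.carrier * μ ^ 2 := by positivity
    linarith
  refine ⟨⟨C, hC0, hlip⟩, hpos, ?_⟩
  have hsurf := MaxT_surf D hμ S hS hdisj hf hc
  have hgi : IntegrableOn (fun x => e x - k ^ 2 * (vmax S f x ^ 2 - μ ^ 2)) D.carrier :=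
    he.sub ((hv2.sub hcst).const_mul _)
  have hgrad : ∫ x in D.carrier, ‖fderiv ℝ (vmax S f) x‖ ^ 2 ≤
      ∫ x in D.carrier, (e x - k ^ 2 * (vmax S f x ^ 2 - μ ^ 2)) := by
    refine integral_mono_of_nonneg (Eventually.of_forall fun x => by positivity) hgi ?_
    refine (ae_restrict_iff' D.isOpen.measurableSet).2 (Eventually.of_forall fun x hx => ?_)
    obtain ⟨i, hi, hn'⟩ := grad_vmax S hf x
    have h1 := hle x hx i
    have h2 : ‖fderiv ℝ (vmax S f) x‖ ^ 2 ≤ f' i (infDist x (S i)) ^ 2 := by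
      rw [← sq_abs (f' i (infDist x (S i)))]
      exact pow_le_pow_left₀ (norm_nonneg _) hn' 2
    simp only [enr] at h1
    show ‖fderiv ℝ (vmax S f) x‖ ^ 2 ≤ e x - k ^ 2 * (vmax S f x ^ 2 - μ ^ 2)
    rw [hi]
    linarith
  have hval : ∫ x in D.carrier, (e x - k ^ 2 * (vmax S f x ^ 2 - μ ^ 2)) =
      (∫ x in D.carrier, e x) - k ^ 2 * ((∫ x in D.carrier, vmax S f x ^ 2) -
        volume.real D.carrier * μ ^ 2) := by
    have hd : IntegrableOn (fun x => vmax S f x ^ 2 - μ ^ 2) D.carrier := hv2.sub hcst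
    have hd2 : IntegrableOn (fun x => k ^ 2 * (vmax S f x ^ 2 - μ ^ 2)) D.carrier :=
      hd.const_mul _
    rw [integral_sub he hd2, integral_const_mul, integral_sub hv2 hcst, setIntegral_const,
      smul_eq_mul]
  rw [hval] at hgrad
  have h5 := mul_le_mul_of_nonneg_left hsurf hβ.le
  simp only [qf]
  linarith

end Pool.Agent.RH
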