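import Pool.Agent.H.MP_1b807b_an.RI.PsiC

/-! MP_1b807b_an, rigidity (RI), module MeanB: the mean value property -/

set_option autoImplicit false

namespace Pool.Agent.RH

open MeasureTheory Metric Set Filter Pool.Agent.RG
open scoped RealInnerProductSpace Topology

variable {n : ℕ}

private theorem MeanB_sub (x₀ : E n) {t : ℝ} (ht : 0 < t) (g : E n → ℝ) :
    ∫ z in ball (0 : E n) 1, g (x₀ + t • z) = (t ^ n)⁻¹ * ∫ y in ball x₀ t, g y := by
  have h1 := Measure.setIntegral_comp_smul_of_pos (volume : Measure (E n))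
    (fun x => g (x₀ + x)) (ball (0 : E n) 1) ht
  rw [smul_unitBall_of_pos ht, finrank_euclideanSpace_fin, smul_eq_mul] at h1
  rw [h1]
  congr 1
  have h2 : ball (0 : E n) t = (fun x => x₀ + x) ⁻¹' ball x₀ t := by
    ext x
    rw [mem_preimage, mem_ball_zero_iff, mem_ball_iff_norm, add_sub_cancel_left]
  rw [h2]
  exact (measurePreserving_add_left (volume : Measure (E n)) x₀).setIntegral_preimage_emb
    (MeasurableEquiv.addLeft x₀).measurableEmbedding g (ball x₀ t)

private theorem MeanB_ae {Q : E n → Prop} (hQ : ∀ᵐ x, Q x) (x₀ : E n) {t : ℝ} (ht : 0 < t) :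
    ∀ᵐ z : E n, Q (x₀ + t • z) := by
  rw [ae_iff] at hQ ⊢
  have h1 : {z : E n | ¬ Q (x₀ + t • z)} =
      (t • ·) ⁻¹' ((fun x => x₀ + x) ⁻¹' {x | ¬ Q x}) := rfl
  rw [h1, Measure.addHaar_preimage_smul _ ht.ne', measure_preimage_add, hQ, mul_zero]

private theorem MeanB_gm (f : E n → ℝ) : Measurable (fun y => gradient f y) := by
  unfold gradient
  exact (InnerProductSpace.toDual ℝ (E n)).symm.continuous.measurable.comp
    (measurable_fderiv ℝ f)

/-- PROOF: `J t = ∫_{ball 0 1} Psi (x₀ + t z) dz` is continuous on `[0, s]` and has the derivative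
`∫_{ball 0 1} ⟪gradient Psi (x₀ + t z), z⟫ dz` at every `t ∈ (0, s)`
(`hasDerivAt_integral_of_dominated_loc_of_lip`: for a.e. `z` the function `Psi` is differentiable at
`x₀ + t z`, since `t ≠ 0` and the map preserves null sets; Lipschitz bound `psi_lip`). The substitution
`y = x₀ + t z` turns it into `t ^ (-n-1) ∫_{ball x₀ t} ⟪gradient Psi y, y - x₀⟫ dy = 0` (`psi_moment`). So
`J s = J 0 = volume (ball 0 1) * Psi x₀`, and `∫_{ball x₀ s} Psi = s ^ n J s`. -/
theorem psi_mean (hn : 0 < n) {U : Set (E n)} {A : E n → ℝ} (h : IsoF U A) {x₀ : E n} {s : ℝ} (hs : 0 < s)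
    (hU : closedBall x₀ s ⊆ U) :
    ∫ y in ball x₀ s, Psi A y = volume.real (ball x₀ s) * Psi A x₀ := by
  obtain ⟨C, hC0, hC⟩ := psi_lip h.lip x₀ (s + 1)
  have hcont := psi_cont h.lip
  have hcz : ∀ t : ℝ, Continuous fun z : E n => Psi A (x₀ + t • z) := fun t =>
    hcont.comp (continuous_const.add (continuous_id.const_smul t))
  have hct : ∀ z : E n, Continuous fun t : ℝ => Psi A (x₀ + t • z) := fun z =>
    hcont.comp (continuous_const.add (continuous_id.smul continuous_const))
  have hmem : ∀ t ∈ Icc 0 s, ∀ z ∈ ball (0 : E n) 1, x₀ + t • z ∈ ball x₀ (s + 1) := by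
    intro t ht z hz
    rw [mem_ball_iff_norm, add_sub_cancel_left, norm_smul, Real.norm_eq_abs, abs_of_nonneg ht.1]
    have h1 : ‖z‖ < 1 := mem_ball_zero_iff.1 hz
    nlinarith [norm_nonneg z, ht.1, ht.2]
  have hdist : ∀ t ∈ Icc 0 s, ∀ t' ∈ Icc 0 s, ∀ z ∈ ball (0 : E n) 1,
      |Psi A (x₀ + t • z) - Psi A (x₀ + t' • z)| ≤ C * |t - t'| := by
    intro t ht t' ht' z hz
    refine (hC _ (hmem t ht z hz) _ (hmem t' ht' z hz)).trans
      (mul_le_mul_of_nonneg_left ?_ hC0)
    rw [add_sub_add_left_eq_sub, ← sub_smul, norm_smul, Real.norm_eq_abs]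
    exact mul_le_of_le_one_right (abs_nonneg _) (mem_ball_zero_iff.1 hz).le
  have hfin : IsFiniteMeasure ((volume : Measure (E n)).restrict (ball 0 1)) :=
    ⟨by rw [Measure.restrict_apply_univ]; exact measure_ball_lt_top⟩
  have h0s : (0 : ℝ) ∈ Icc 0 s := ⟨le_rfl, hs.le⟩
  have hbound : ∀ t ∈ Icc 0 s, ∀ z ∈ ball (0 : E n) 1,
      ‖Psi A (x₀ + t • z)‖ ≤ |Psi A x₀| + C * s := by
    intro t ht z hz
    have h1 := hdist t ht 0 h0s z hz
    rw [zero_smul, add_zero, sub_zero, abs_of_nonneg ht.1] at h1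
    have h2 : C * t ≤ C * s := mul_le_mul_of_nonneg_left ht.2 hC0
    rw [Real.norm_eq_abs]
    have h3 := abs_sub_abs_le_abs_sub (Psi A (x₀ + t • z)) (Psi A x₀)
    linarith
  have hJc : ContinuousOn (fun t : ℝ => ∫ z in ball (0 : E n) 1, Psi A (x₀ + t • z)) (Icc 0 s) := by
    refine MeasureTheory.continuousOn_of_dominated (bound := fun _ => |Psi A x₀| + C * s)
      (fun t _ => (hcz t).aestronglyMeasurable) (fun t ht => ?_) (integrable_const _)
      (Eventually.of_forall fun z => (hct z).continuousOn)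
    filter_upwards [ae_restrict_mem measurableSet_ball] with z hz
    exact hbound t ht z hz
  have hJd : ∀ t ∈ Ioo 0 s, HasDerivAt
      (fun t : ℝ => ∫ z in ball (0 : E n) 1, Psi A (x₀ + t • z)) ((fun _ => (0 : ℝ)) t) t := by
    intro t ht
    have hae : ∀ᵐ z : E n, DifferentiableAt ℝ (Psi A) (x₀ + t • z) :=
      MeanB_ae ((psi_ae h.lip).mono fun x hx => hx.2) x₀ ht.1
    have hint : Integrable (fun z : E n => Psi A (x₀ + t • z))
        ((volume : Measure (E n)).restrict (ball 0 1)) := by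
      refine Integrable.mono' (g := fun _ => |Psi A x₀| + C * s) (integrable_const _)
        (hcz t).aestronglyMeasurable ?_
      filter_upwards [ae_restrict_mem measurableSet_ball] with z hz
      exact hbound t ⟨ht.1.le, ht.2.le⟩ z hz
    have key := hasDerivAt_integral_of_dominated_loc_of_lip
      (μ := (volume : Measure (E n)).restrict (ball 0 1))
      (F := fun (t : ℝ) (z : E n) => Psi A (x₀ + t • z))
      (F' := fun z : E n => ⟪gradient (Psi A) (x₀ + t • z), z⟫) (x₀ := t)
      (s := Ioo 0 s) (bound := fun _ => C) (Ioo_mem_nhds ht.1 ht.2)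
      (Eventually.of_forall fun t => (hcz t).aestronglyMeasurable) hint
      (((MeanB_gm (Psi A)).comp
        (continuous_const.add (continuous_id.const_smul t)).measurable).inner
          measurable_id).aestronglyMeasurable
      (by
        filter_upwards [ae_restrict_mem measurableSet_ball] with z hz
        refine LipschitzOnWith.of_dist_le_mul fun a ha b hb => ?_
        rw [Real.coe_nnabs, abs_of_nonneg hC0, Real.dist_eq, Real.dist_eq]
        exact hdist a ⟨ha.1.le, ha.2.le⟩ b ⟨hb.1.le, hb.2.le⟩ z hz)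
      (integrable_const _)
      (by
        filter_upwards [ae_restrict_of_ae hae] with z hz
        have h1 : HasFDerivAt (Psi A) (InnerProductSpace.toDual ℝ (E n)
            (gradient (Psi A) (x₀ + t • z))) (x₀ + t • z) := hz.hasGradientAt.hasFDerivAt
        have h2 : HasDerivAt (fun τ : ℝ => x₀ + τ • z) z t := by
          have h3 := ((hasDerivAt_id t).smul_const z).const_add x₀
          rw [one_smul] at h3
          exact h3
        have h4 := h1.comp_hasDerivAt t h2
        rw [InnerProductSpace.toDual_apply_apply] at h4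
        exact h4)
    have hzero : ∫ z in ball (0 : E n) 1, ⟪gradient (Psi A) (x₀ + t • z), z⟫ = 0 := by
      have h1 : ∀ z : E n, ⟪gradient (Psi A) (x₀ + t • z), z⟫ =
          t⁻¹ * ⟪gradient (Psi A) (x₀ + t • z), x₀ + t • z - x₀⟫ := by
        intro z
        rw [add_sub_cancel_left, real_inner_smul_right, ← mul_assoc, inv_mul_cancel₀ ht.1.ne',
          one_mul]
      have h6 := MeanB_sub x₀ ht.1 (fun y => t⁻¹ * ⟪gradient (Psi A) y, y - x₀⟫)
      have h7 : ∫ y in ball x₀ t, t⁻¹ * ⟪gradient (Psi A) y, y - x₀⟫ = 0 := by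
        rw [integral_const_mul, psi_moment hn h ht.1
          ((closedBall_subset_closedBall ht.2.le).trans hU), mul_zero]
      rw [h7, mul_zero] at h6
      exact (integral_congr_ae (Eventually.of_forall h1)).trans h6
    have h5 := key.2
    rw [hzero] at h5
    exact h5
  obtain ⟨c, -, hc⟩ := exists_hasDerivAt_eq_slope
    (fun t : ℝ => ∫ z in ball (0 : E n) 1, Psi A (x₀ + t • z)) (fun _ => (0 : ℝ)) hs hJc hJd
  have hJ : ∫ z in ball (0 : E n) 1, Psi A (x₀ + s • z) =
      ∫ z in ball (0 : E n) 1, Psi A (x₀ + (0 : ℝ) • z) := by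
    have h1 : (0 : ℝ) = ((∫ z in ball (0 : E n) 1, Psi A (x₀ + s • z)) -
        ∫ z in ball (0 : E n) 1, Psi A (x₀ + (0 : ℝ) • z)) / (s - 0) := hc
    rw [sub_zero, eq_div_iff hs.ne', zero_mul] at h1
    linarith
  have hsn : s ^ n ≠ 0 := pow_ne_zero _ hs.ne'
  have h1 := MeanB_sub x₀ hs (Psi A)
  have h2 := MeanB_sub x₀ hs (fun _ => (1 : ℝ))
  rw [setIntegral_const, setIntegral_const, smul_eq_mul, smul_eq_mul, mul_one, mul_one] at h2
  have h3 : ∫ z in ball (0 : E n) 1, Psi A (x₀ + (0 : ℝ) • z) =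
      volume.real (ball (0 : E n) 1) * Psi A x₀ := by
    simp only [zero_smul, add_zero]
    rw [setIntegral_const, smul_eq_mul]
  rw [hJ, h3, h2] at h1
  rw [mul_assoc] at h1
  exact (mul_left_cancel₀ (inv_ne_zero hsn) h1).symm

end Pool.Agent.RH
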