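import Pool.Agent.H.MP_1b807b_an.RI.MeanB

/-! MP_1b807b_an, rigidity (RI), module MeanC: differentiability everywhere -/

set_option autoImplicit false

namespace Pool.Agent.RH

open MeasureTheory Metric Set Filter Pool.Agent.RG
open scoped RealInnerProductSpace Topology

variable {n : ℕ}

/-- translation of a ball -/
private theorem MeanC_tr {F : Type*} [NormedAddCommGroup F] [NormedSpace ℝ F] (f : E n → F)
    (x : E n) (s : ℝ) : ∫ z in ball (0 : E n) s, f (x + z) = ∫ y in ball x s, f y := by
  have h1 : (ball x s).indicator f ∘ (fun z => x + z) =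
      (ball (0 : E n) s).indicator (fun z => f (x + z)) := by
    funext z
    by_cases hz : z ∈ ball (0 : E n) s
    · have hz' : x + z ∈ ball x s := by
        rw [mem_ball, dist_eq_norm] at *
        simpa using hz
      simp only [Function.comp_apply]
      rw [indicator_of_mem hz', indicator_of_mem hz]
    · have hz' : x + z ∉ ball x s := by
        intro h2
        apply hz
        rw [mem_ball, dist_eq_norm] at *
        simpa using h2
      simp only [Function.comp_apply]
      rw [indicator_of_notMem hz', indicator_of_notMem hz]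
  rw [← integral_indicator measurableSet_ball, ← integral_indicator measurableSet_ball, ← h1]
  exact integral_add_left_eq_self (μ := (volume : Measure (E n))) ((ball x s).indicator f) x

private theorem MeanC_inner (f : E n → ℝ) (x v : E n) : ⟪gradient f x, v⟫ = fderiv ℝ f x v := by
  unfold gradient
  rw [InnerProductSpace.toDual_symm_apply]

/-- PROOF: for `x ∈ ball x₀ s` the ball `closedBall x s` is contained in `closedBall x₀ (2 s)`, so by `psi_mean`
`Psi x = volume.real (ball 0 s)⁻¹ ∫_{ball 0 s} Psi (x + z) dz`. Differentiate under the integral sign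
(`hasFDerivAt_integral_of_dominated_loc_of_lip`: for a.e. `z`, `Psi` is differentiable at `x₀ + z`;
Lipschitz bound `psi_lip` on `ball x₀ (2 s)`); no regularity of the kernel is needed. -/
theorem psi_diff (hn : 0 < n) {U : Set (E n)} {A : E n → ℝ} (h : IsoF U A) {x₀ : E n} {s : ℝ} (hs : 0 < s)
    (hU : closedBall x₀ (2 * s) ⊆ U) : DifferentiableAt ℝ (Psi A) x₀ ∧
      ∫ y in ball x₀ s, gradient (Psi A) y = volume.real (ball x₀ s) • gradient (Psi A) x₀ := by
  obtain ⟨C, hC0, hC⟩ := psi_lip h.lip x₀ (2 * s)
  set V : ℝ := volume.real (ball x₀ s) with hV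
  have hVx : ∀ x : E n, volume.real (ball x s) = V := by
    intro x
    rw [hV]
    unfold Measure.real
    rw [Measure.addHaar_ball_center, Measure.addHaar_ball_center _ x₀]
  have hVpos : 0 < V := by
    exact ENNReal.toReal_pos (measure_ball_pos volume x₀ hs).ne' measure_ball_lt_top.ne
  have hmean : ∀ x ∈ ball x₀ s, ∫ z in ball (0 : E n) s, Psi A (x + z) = V * Psi A x := by
    intro x hx
    rw [MeanC_tr, ← hVx x]
    refine psi_mean hn h hs (Subset.trans ?_ hU)
    intro y hy
    rw [mem_closedBall] at *
    rw [mem_ball] at hx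
    have := dist_triangle y x x₀
    linarith
  have hfin : IsFiniteMeasure ((volume : Measure (E n)).restrict (ball 0 s)) :=
    ⟨by rw [Measure.restrict_apply_univ]; exact measure_ball_lt_top⟩
  have hmeas : Measurable (fderiv ℝ (Psi A)) := measurable_fderiv ℝ (Psi A)
  have hder := hasFDerivAt_integral_of_dominated_loc_of_lip (𝕜 := ℝ)
    (μ := (volume : Measure (E n)).restrict (ball 0 s)) (F := fun x z => Psi A (x + z))
    (F' := fun z => fderiv ℝ (Psi A) (x₀ + z)) (x₀ := x₀) (bound := fun _ => C)
    (s := ball x₀ s) (ball_mem_nhds x₀ hs) ?_ ?_ ?_ ?_ ?_ ?_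
  · obtain ⟨hint, hG⟩ := hder
    have hG' : HasFDerivAt (fun x => V * Psi A x)
        (∫ z in ball (0 : E n) s, fderiv ℝ (Psi A) (x₀ + z)) x₀ := by
      refine hG.congr_of_eventuallyEq ?_
      filter_upwards [ball_mem_nhds x₀ hs] with x hx
      exact (hmean x hx).symm
    have hP : HasFDerivAt (Psi A)
        (V⁻¹ • ∫ z in ball (0 : E n) s, fderiv ℝ (Psi A) (x₀ + z)) x₀ := by
      have h1 := hG'.const_mul V⁻¹
      refine h1.congr_of_eventuallyEq ?_
      filter_upwards with x
      rw [← mul_assoc, inv_mul_cancel₀ hVpos.ne', one_mul]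
    refine ⟨hP.differentiableAt, ?_⟩
    have hfd : V • fderiv ℝ (Psi A) x₀ = ∫ y in ball x₀ s, fderiv ℝ (Psi A) y := by
      rw [hP.fderiv, MeanC_tr, smul_smul, mul_inv_cancel₀ hVpos.ne', one_smul]
    have hgi := (psi_gint h.lip x₀ s).1
    have hfi : Integrable (fun y => fderiv ℝ (Psi A) y) (volume.restrict (ball x₀ s)) := by
      refine Integrable.mono' hgi.norm hmeas.aestronglyMeasurable ?_
      filter_upwards with y
      unfold gradient
      rw [LinearIsometryEquiv.norm_map]
    refine ext_inner_right ℝ fun v => ?_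
    rw [real_inner_comm, ← integral_inner hgi v]
    rw [real_inner_smul_left, MeanC_inner]
    have h2 : (∫ y in ball x₀ s, fderiv ℝ (Psi A) y) v = V * fderiv ℝ (Psi A) x₀ v := by
      rw [← hfd]
      rfl
    rw [← h2, ContinuousLinearMap.integral_apply hfi]
    refine integral_congr_ae (Eventually.of_forall fun y => ?_)
    show ⟪v, gradient (Psi A) y⟫ = fderiv ℝ (Psi A) y v
    rw [real_inner_comm, MeanC_inner]
  · filter_upwards with x
    exact ((psi_cont h.lip).comp (by fun_prop)).aestronglyMeasurable
  · have h1 : ContinuousOn (fun z => Psi A (x₀ + z)) (closedBall (0 : E n) s) :=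
      ((psi_cont h.lip).comp (by fun_prop)).continuousOn
    exact (h1.integrableOn_compact (isCompact_closedBall _ _)).mono_set ball_subset_closedBall
  · exact (hmeas.comp (measurable_const_add x₀)).aestronglyMeasurable
  · rw [ae_restrict_iff' measurableSet_ball]
    filter_upwards with z hz
    refine LipschitzOnWith.of_dist_le_mul fun x hx y hy => ?_
    have hmem : ∀ x ∈ ball x₀ s, x + z ∈ ball x₀ (2 * s) := by
      intro x hx
      rw [mem_ball, dist_eq_norm] at *
      rw [sub_zero] at hz
      calc ‖x + z - x₀‖ = ‖(x - x₀) + z‖ := by congr 1; abel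
        _ ≤ ‖x - x₀‖ + ‖z‖ := norm_add_le _ _
        _ < 2 * s := by linarith
    have h1 := hC _ (hmem x hx) _ (hmem y hy)
    rw [Real.dist_eq, dist_eq_norm, Real.coe_nnabs, abs_of_nonneg hC0]
    have h2 : x + z - (y + z) = x - y := by abel
    rw [h2] at h1
    exact h1
  · exact integrable_const C
  · have h1 : ∀ᵐ z : E n, DifferentiableAt ℝ (Psi A) (x₀ + z) :=
      (measurePreserving_add_left (volume : Measure (E n)) x₀).quasiMeasurePreserving.ae
        ((psi_ae h.lip).mono fun x hx => hx.2)
    filter_upwards [ae_restrict_of_ae h1] with z hz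
    have h2 := hz.hasFDerivAt.comp x₀ ((hasFDerivAt_id x₀).add_const z)
    exact h2

end Pool.Agent.RH
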