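import Pool.Agent.H.MP_1b807b_an.RI.Defs

/-! MP_1b807b_an, rigidity (RI), module PsiA: the pointwise identity -/

set_option autoImplicit false

namespace Pool.Agent.RH

open MeasureTheory Metric Set Filter Pool.Agent.RG
open scoped RealInnerProductSpace Topology

variable {n : ℕ}

theorem psi_grad {A : E n → ℝ} {x : E n} (hA : DifferentiableAt ℝ A x) :
    HasGradientAt (Psi A) (x - A x • gradient A x) x := by
  rw [hasGradientAt_iff_hasFDerivAt]
  have h1 : HasFDerivAt (fun y : E n => ‖y‖ ^ 2) _ x := (hasStrictFDerivAt_norm_sq x).hasFDerivAt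
  have h2 := hA.hasGradientAt.hasFDerivAt
  have h3 := (h1.const_mul (1 / 2)).sub ((h2.mul h2).const_mul (1 / 2))
  refine (h3.congr_fderiv ?_).congr_of_eventuallyEq (Eventually.of_forall fun y => ?_)
  · ext v
    simp only [ContinuousLinearMap.sub_apply, ContinuousLinearMap.smul_apply,
      ContinuousLinearMap.add_apply, InnerProductSpace.toDual_apply_apply, innerSL_apply_apply,
      inner_sub_left, real_inner_smul_left, smul_eq_mul, nsmul_eq_mul]
    push_cast
    ring
  · show Psi A y = 1 / 2 * ‖y‖ ^ 2 - 1 / 2 * (A y * A y)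
    unfold Psi
    ring

/-- PROOF: `A = sqrt (‖x‖ ^ 2 - 2 Psi)` near `x` (`A` is continuous and positive at `x`). -/
theorem diff_of_psi {A : E n → ℝ} {x : E n} (hc : Continuous A) (hpos : 0 < A x)
    (h : DifferentiableAt ℝ (Psi A) x) : DifferentiableAt ℝ A x := by
  have h0 : ∀ y, ‖y‖ ^ 2 - 2 * Psi A y = A y ^ 2 := by
    intro y
    unfold Psi
    ring
  have h1 : DifferentiableAt ℝ (fun y : E n => ‖y‖ ^ 2 - 2 * Psi A y) x :=
    ((hasStrictFDerivAt_norm_sq x).hasFDerivAt.differentiableAt).sub (h.const_mul 2)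
  have h2 : ‖x‖ ^ 2 - 2 * Psi A x ≠ 0 := by
    rw [h0]
    positivity
  have h3 : DifferentiableAt ℝ (fun y : E n => Real.sqrt (‖y‖ ^ 2 - 2 * Psi A y)) x :=
    h1.sqrt h2
  refine h3.congr_of_eventuallyEq ?_
  filter_upwards [hc.continuousAt.eventually_const_lt hpos] with y hy
  rw [h0, Real.sqrt_sq hy.le]

/-- PROOF: `psi_grad` and `‖gradient A x‖ = 1`. -/
theorem psi_ident {A : E n → ℝ} {x : E n} (hA : DifferentiableAt ℝ A x)
    (h1 : ‖gradient A x‖ = 1) :
    ‖gradient (Psi A) x‖ ^ 2 = 2 * ⟪x, gradient (Psi A) x⟫ - 2 * Psi A x ∧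
      ‖x - gradient (Psi A) x‖ ^ 2 = A x ^ 2 := by
  rw [(psi_grad hA).gradient]
  have h2 : ‖A x • gradient A x‖ ^ 2 = A x ^ 2 := by
    rw [norm_smul, h1, mul_one, Real.norm_eq_abs, sq_abs]
  constructor
  · rw [norm_sub_sq_real, h2, inner_sub_right, real_inner_self_eq_norm_sq]
    unfold Psi
    ring
  · rw [sub_sub_cancel, h2]

end Pool.Agent.RH
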