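import Pool.Agent.H.MP_1b807b_an.RI.PsiA
import Pool.Agent.H.MP_1b807b_an.RI.FvA

/-! MP_1b807b_an, rigidity (RI), module PsiB: bounds, integrability -/

set_option autoImplicit false

namespace Pool.Agent.RH

open MeasureTheory Metric Set Filter Pool.Agent.RG
open scoped RealInnerProductSpace Topology

variable {n : ℕ}

theorem lipF_of_one {A : E n → ℝ} (hA : ∀ x y, |A x - A y| ≤ ‖x - y‖) : LipF A :=
  ⟨1, zero_le_one, fun x y => by rw [one_mul]; exact hA x y⟩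

/-- PROOF: on a ball `A` and `x` are bounded. -/
theorem psi_lip {A : E n → ℝ} (hA : ∀ x y, |A x - A y| ≤ ‖x - y‖) (x₀ : E n) (ρ : ℝ) :
    ∃ C : ℝ, 0 ≤ C ∧ ∀ x ∈ ball x₀ ρ, ∀ y ∈ ball x₀ ρ, |Psi A x - Psi A y| ≤ C * ‖x - y‖ := by
  refine ⟨‖x₀‖ + |A x₀| + 2 * |ρ|, by positivity, fun x hx y hy => ?_⟩
  have hb : ∀ z ∈ ball x₀ ρ, ‖z‖ ≤ ‖x₀‖ + |ρ| ∧ |A z| ≤ |A x₀| + |ρ| := by
    intro z hz
    rw [mem_ball, dist_eq_norm] at hz
    have h1 : ‖z - x₀‖ ≤ |ρ| := hz.le.trans (le_abs_self ρ)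
    constructor
    · have h2 : ‖z‖ ≤ ‖x₀‖ + ‖z - x₀‖ := by
        have h3 := norm_add_le x₀ (z - x₀)
        rwa [add_sub_cancel] at h3
      linarith
    · have h2 := hA z x₀
      have h3 : |A z| ≤ |A x₀| + |A z - A x₀| := by
        have h4 := abs_add_le (A x₀) (A z - A x₀)
        rwa [add_sub_cancel] at h4
      linarith
  obtain ⟨hx1, hx2⟩ := hb x hx
  obtain ⟨hy1, hy2⟩ := hb y hy
  have e : Psi A x - Psi A y = (‖x‖ - ‖y‖) * ((‖x‖ + ‖y‖) / 2) - (A x - A y) * ((A x + A y) / 2) := by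
    unfold Psi
    ring
  have h0 : 0 ≤ ‖x - y‖ := norm_nonneg _
  have h1 : |(‖x‖ - ‖y‖) * ((‖x‖ + ‖y‖) / 2)| ≤ ‖x - y‖ * (‖x₀‖ + |ρ|) := by
    rw [abs_mul]
    refine mul_le_mul (abs_norm_sub_norm_le x y) ?_ (abs_nonneg _) h0
    rw [abs_of_nonneg (by positivity)]
    linarith
  have h2 : |(A x - A y) * ((A x + A y) / 2)| ≤ ‖x - y‖ * (|A x₀| + |ρ|) := by
    rw [abs_mul]
    refine mul_le_mul (hA x y) ?_ (abs_nonneg _) h0
    rw [abs_div, abs_two]
    have h3 := abs_add_le (A x) (A y)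
    linarith
  rw [e]
  have h3 := abs_sub ((‖x‖ - ‖y‖) * ((‖x‖ + ‖y‖) / 2)) ((A x - A y) * ((A x + A y) / 2))
  refine h3.trans ?_
  nlinarith

theorem psi_cont {A : E n → ℝ} (hA : ∀ x y, |A x - A y| ≤ ‖x - y‖) : Continuous (Psi A) := by
  have h1 : Continuous A := (lipF_of_one hA).cont
  unfold Psi
  fun_prop

/-- almost everywhere `A` and `Psi A` are differentiable -/
theorem psi_ae {A : E n → ℝ} (hA : ∀ x y, |A x - A y| ≤ ‖x - y‖) :
    ∀ᵐ x, DifferentiableAt ℝ A x ∧ DifferentiableAt ℝ (Psi A) x := by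
  filter_upwards [(lipF_of_one hA).ae_diff] with x hx
  exact ⟨hx, (psi_grad hx).differentiableAt⟩

/-- PROOF: measurable (`measurable_fderiv`) and bounded on the ball (`psi_lip`). -/
theorem psi_gint {A : E n → ℝ} (hA : ∀ x y, |A x - A y| ≤ ‖x - y‖) (x₀ : E n) (ρ : ℝ) :
    IntegrableOn (fun y => gradient (Psi A) y) (ball x₀ ρ) ∧
      IntegrableOn (fun y => ‖gradient (Psi A) y‖ ^ 2) (ball x₀ ρ) := by
  obtain ⟨C, hC0, hC⟩ := psi_lip hA x₀ ρ
  have hm : Measurable fun y => gradient (Psi A) y :=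
    (InnerProductSpace.toDual ℝ (E n)).symm.continuous.measurable.comp
      (measurable_fderiv ℝ (Psi A))
  have hb : ∀ y ∈ ball x₀ ρ, ‖gradient (Psi A) y‖ ≤ C := by
    intro y hy
    rw [norm_gradient]
    refine norm_fderiv_le_of_lip' ℝ hC0 ?_
    filter_upwards [isOpen_ball.mem_nhds hy] with z hz
    exact hC z hz y hy
  constructor
  · refine Measure.integrableOn_of_bounded (M := C) measure_ball_lt_top.ne
      hm.aestronglyMeasurable ?_
    filter_upwards [ae_restrict_mem measurableSet_ball] with y hy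
    exact hb y hy
  · refine Measure.integrableOn_of_bounded (M := C ^ 2) measure_ball_lt_top.ne
      (hm.norm.pow_const 2).aestronglyMeasurable ?_
    filter_upwards [ae_restrict_mem measurableSet_ball] with y hy
    rw [Real.norm_eq_abs, abs_of_nonneg (by positivity)]
    exact pow_le_pow_left₀ (norm_nonneg _) (hb y hy) 2

end Pool.Agent.RH
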