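import Pool.Agent.H.MP_1b807b_an.RI.PsiB
import Pool.Agent.H.MP_1b807b_an.RI.BallI

/-! MP_1b807b_an, rigidity (RI), module PsiC: the first moment -/

set_option autoImplicit false

namespace Pool.Agent.RH

open MeasureTheory Metric Set Filter Pool.Agent.RG
open scoped RealInnerProductSpace Topology

variable {n : ℕ}

/-- PROOF: a.e. `gradient (Psi A) y = y - A y • gradient A y`, so the integral is
`∫ ⟪y, y - x₀⟫ - ∫ A ⟪gradient A, y - x₀⟫ = ∫ ‖y - x₀‖² + ∫ ⟪x₀, y - x₀⟫ - (n/2) ∫ (s² - ‖y - x₀‖²) = 0`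
by `ball_odd`, `ball_moment`, `IsoF.weak`. -/
theorem psi_moment (hn : 0 < n) {U : Set (E n)} {A : E n → ℝ} (h : IsoF U A) {x₀ : E n} {s : ℝ} (hs : 0 < s)
    (hU : closedBall x₀ s ⊆ U) : ∫ y in ball x₀ s, ⟪gradient (Psi A) y, y - x₀⟫ = 0 := by
  have hfinm : IsFiniteMeasure (volume.restrict (ball x₀ s)) :=
    ⟨by
      rw [Measure.restrict_apply_univ]
      exact measure_ball_lt_top⟩
  have hcb : ∀ {f : E n → ℝ}, Continuous f → IntegrableOn f (ball x₀ s) := fun hf =>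
    (hf.continuousOn.integrableOn_compact (isCompact_closedBall x₀ s)).mono_set ball_subset_closedBall
  have i1 : IntegrableOn (fun y : E n => ‖y - x₀‖ ^ 2) (ball x₀ s) := hcb (by fun_prop)
  have i2 : IntegrableOn (fun y : E n => ⟪x₀, y - x₀⟫) (ball x₀ s) := hcb (by fun_prop)
  -- the gradient term is integrable
  have i0 : IntegrableOn (fun y => ⟪gradient (Psi A) y, y - x₀⟫) (ball x₀ s) := by
    obtain ⟨hg, -⟩ := psi_gint h.lip x₀ s
    have hm : AEStronglyMeasurable (fun y => ⟪gradient (Psi A) y, y - x₀⟫)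
        (volume.restrict (ball x₀ s)) :=
      hg.aestronglyMeasurable.inner (by fun_prop : Continuous fun y : E n => y - x₀).aestronglyMeasurable
    refine Integrable.mono (hg.norm.mul_const s) hm ?_
    refine (ae_restrict_iff' measurableSet_ball).2 (Eventually.of_forall fun y hy => ?_)
    rw [mem_ball, dist_eq_norm] at hy
    refine (norm_inner_le_norm _ _).trans ?_
    rw [Real.norm_of_nonneg (mul_nonneg (norm_nonneg _) hs.le)]
    exact mul_le_mul_of_nonneg_left hy.le (norm_nonneg _)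
  have hae : ∀ᵐ y ∂(volume.restrict (ball x₀ s)), ⟪gradient (Psi A) y, y - x₀⟫ =
      ‖y - x₀‖ ^ 2 + ⟪x₀, y - x₀⟫ - A y * ⟪gradient A y, y - x₀⟫ := by
    refine ae_restrict_of_ae ?_
    filter_upwards [psi_ae h.lip] with y hy
    rw [(psi_grad hy.1).gradient, inner_sub_left, real_inner_smul_left, ← real_inner_self_eq_norm_sq,
      ← inner_add_left, sub_add_cancel]
  have i3 : IntegrableOn (fun y => A y * ⟪gradient A y, y - x₀⟫) (ball x₀ s) := by
    have h1 : IntegrableOn (fun y => ‖y - x₀‖ ^ 2 + ⟪x₀, y - x₀⟫ - ⟪gradient (Psi A) y, y - x₀⟫)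
        (ball x₀ s) := (i1.add i2).sub i0
    refine h1.congr ?_
    filter_upwards [hae] with y hy
    rw [hy]
    ring
  rw [integral_congr_ae hae]
  have e1 : ∫ y in ball x₀ s, (‖y - x₀‖ ^ 2 + ⟪x₀, y - x₀⟫ - A y * ⟪gradient A y, y - x₀⟫) =
      (∫ y in ball x₀ s, (‖y - x₀‖ ^ 2 + ⟪x₀, y - x₀⟫)) -
        ∫ y in ball x₀ s, A y * ⟪gradient A y, y - x₀⟫ := integral_sub (i1.add i2) i3
  have e2 : ∫ y in ball x₀ s, (‖y - x₀‖ ^ 2 + ⟪x₀, y - x₀⟫) =
      (∫ y in ball x₀ s, ‖y - x₀‖ ^ 2) + ∫ y in ball x₀ s, ⟪x₀, y - x₀⟫ := integral_add i1 i2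
  rw [e1, e2, ball_odd, ball_moment hn x₀ hs, h.weak x₀ s hs hU]
  ring

end Pool.Agent.RH
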