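import Pool.Agent.H.MP_1b807b_an.RI.Defs
import Pool.Agent.H.MP_1b807b_an.HO.LipN

/-! MP_1b807b_an, rigidity (RI), module Qf: the form is nonnegative -/

set_option autoImplicit false

namespace Pool.Agent.RH

open MeasureTheory Metric Set Filter Pool.Agent.RG
open scoped RealInnerProductSpace Topology

variable {n : ℕ}

/-- PROOF: otherwise let `c = ∫ v ^ 2 > 0`, `Q = -k ^ 2 + qf / c < -k ^ 2`; `robin_lipN` (module HO/LipN)
gives `D.robin (-β) ≤ Q` (`Q * c = -k ^ 2 * c + qf`), a contradiction (`EReal.coe_lt_coe_iff`). -/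
theorem qf_nonneg (hn : 0 < n) (D : Domain n) {β k : ℝ}
    (hrob : ((-k ^ 2 : ℝ) : EReal) ≤ D.robin (-β)) {v : E n → ℝ} (hv : LipF v)
    (hpos : 0 < ∫ x in D.carrier, v x ^ 2) : 0 ≤ qf D β k v := by
  by_contra hneg
  have hneg' : qf D β k v < 0 := not_le.1 hneg
  obtain ⟨C, hC0, hC⟩ := hv
  have hd : qf D β k v / (∫ x in D.carrier, v x ^ 2) < 0 := div_neg_of_neg_of_pos hneg' hpos
  have hQ : (∫ x in D.carrier, ‖fderiv ℝ v x‖ ^ 2) - β * (∫ x, v x ^ 2 ∂D.surface) ≤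
      (-k ^ 2 + qf D β k v / (∫ x in D.carrier, v x ^ 2)) * ∫ x in D.carrier, v x ^ 2 := by
    rw [add_mul, div_mul_cancel₀ _ hpos.ne']
    unfold qf
    linarith
  have h1 := hrob.trans (robin_lipN hn D hC0 hC hpos hQ)
  rw [EReal.coe_le_coe_iff] at h1
  linarith

end Pool.Agent.RH
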