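import Pool.Agent.H.MP_1b807b_an.RI.MeanC

/-! MP_1b807b_an, rigidity (RI), module VarZ: the variance of the gradient is zero -/

set_option autoImplicit false

namespace Pool.Agent.RH

open MeasureTheory Metric Set Filter Pool.Agent.RG
open scoped RealInnerProductSpace Topology

variable {n : ℕ}

/-- PROOF: let `G = gradient (Psi A)`, `g = G x₀`, `B = ball x₀ s`, `v = volume.real B`. `psi_ident` holds at a.e.
point of `B` (`psi_ae`, `IsoF.grad`) and at `x₀` (`psi_diff`, `diff_of_psi`). So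
`∫_B ‖G‖² = ∫_B (2 ⟪x₀, G⟫ + 2 ⟪y - x₀, G⟫ - 2 Psi) = v (2 ⟪x₀, g⟫ + 0 - 2 Psi x₀) = v ‖g‖²`
(`psi_diff`, `psi_moment`, `psi_mean`), and `∫_B ‖G - g‖² = ∫_B ‖G‖² - 2 ⟪g, ∫_B G⟫ + v ‖g‖² = 0`. -/
theorem psi_var (hn : 0 < n) {U : Set (E n)} {A : E n → ℝ} (h : IsoF U A) {x₀ : E n} {s : ℝ} (hs : 0 < s)
    (hU : closedBall x₀ (2 * s) ⊆ U) :
    ∀ᵐ y ∂(volume.restrict (ball x₀ s)), gradient (Psi A) y = gradient (Psi A) x₀ := by
  have hB : closedBall x₀ s ⊆ U := (closedBall_subset_closedBall (by linarith)).trans hU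
  have hx₀ : x₀ ∈ U := hU (mem_closedBall_self (by linarith))
  obtain ⟨hG1, hG2⟩ := psi_gint h.lip x₀ s
  obtain ⟨hd, hG3⟩ := psi_diff hn h hs hU
  have hmom := psi_moment hn h hs hB
  have hmean := psi_mean hn h hs hB
  have hAc : Continuous A := by
    refine continuous_iff_continuousAt.2 fun x => ?_
    rw [ContinuousAt, tendsto_iff_dist_tendsto_zero]
    refine squeeze_zero (fun _ => dist_nonneg) (fun y => ?_)
      (g := fun y => ‖y - x‖) ?_
    · rw [Real.dist_eq]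
      exact h.lip y x
    · have h1 : Tendsto (fun y : E n => ‖y - x‖) (𝓝 x) (𝓝 ‖x - x‖) :=
        (continuous_id.sub continuous_const).norm.tendsto x
      rwa [sub_self, norm_zero] at h1
  have hdA : DifferentiableAt ℝ A x₀ := diff_of_psi hAc (h.pos x₀ hx₀) hd
  have hid0 := (psi_ident hdA (h.grad x₀ hx₀ hdA)).1
  obtain ⟨g, hg⟩ : ∃ g, g = gradient (Psi A) x₀ := ⟨_, rfl⟩
  obtain ⟨G, hG⟩ : ∃ G, G = gradient (Psi A) := ⟨_, rfl⟩
  rw [← hg] at hG3 hid0 ⊢
  rw [← hG] at hg ⊢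
  simp only [← hG] at hG1 hG2 hG3 hmom
  have hid : ∀ᵐ y ∂(volume.restrict (ball x₀ s)),
      ‖G y‖ ^ 2 = 2 * ⟪x₀, G y⟫ + 2 * ⟪G y, y - x₀⟫ - 2 * Psi A y := by
    have h1 : ∀ᵐ y ∂(volume.restrict (ball x₀ s)),
        DifferentiableAt ℝ A y ∧ DifferentiableAt ℝ (Psi A) y :=
      ae_restrict_of_ae (psi_ae h.lip)
    filter_upwards [h1, ae_restrict_mem measurableSet_ball] with y h2 h3
    have h4 := (psi_ident h2.1 (h.grad y (hB (ball_subset_closedBall h3)) h2.1)).1
    rw [← hG] at h4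
    rw [h4, inner_sub_right, real_inner_comm y (G y), real_inner_comm x₀ (G y)]
    ring
  have i1 : Integrable (fun y => ⟪x₀, G y⟫) (volume.restrict (ball x₀ s)) :=
    Integrable.const_inner x₀ hG1
  have i4 : Integrable (fun y => ⟪g, G y⟫) (volume.restrict (ball x₀ s)) :=
    Integrable.const_inner g hG1
  have i3 : Integrable (fun y => Psi A y) (volume.restrict (ball x₀ s)) :=
    ((psi_cont h.lip).continuousOn.integrableOn_compact
      (isCompact_closedBall x₀ s)).mono_set ball_subset_closedBall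
  have i2 : Integrable (fun y => ⟪G y, y - x₀⟫) (volume.restrict (ball x₀ s)) := by
    have h1 : Integrable (fun y => 1 / 2 * (‖G y‖ ^ 2 - 2 * ⟪x₀, G y⟫ + 2 * Psi A y))
        (volume.restrict (ball x₀ s)) :=
      ((hG2.sub (i1.const_mul 2)).add (i3.const_mul 2)).const_mul (1 / 2)
    refine h1.congr ?_
    filter_upwards [hid] with y hy
    rw [hy]
    ring
  have hv : ∫ y, ‖G y - g‖ ^ 2 ∂(volume.restrict (ball x₀ s)) = 0 := by
    have h1 : ∫ y, ‖G y - g‖ ^ 2 ∂(volume.restrict (ball x₀ s)) =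
        ∫ y, ((((2 * ⟪x₀, G y⟫ + 2 * ⟪G y, y - x₀⟫) - 2 * Psi A y) - 2 * ⟪g, G y⟫) + ‖g‖ ^ 2)
          ∂(volume.restrict (ball x₀ s)) := by
      refine integral_congr_ae ?_
      filter_upwards [hid] with y hy
      rw [← hy, norm_sub_sq_real, real_inner_comm g (G y)]
    have hc : Integrable (fun _ : E n => ‖g‖ ^ 2) (volume.restrict (ball x₀ s)) :=
      integrableOn_const (by exact measure_ball_lt_top.ne)
    have j1 : Integrable (fun y => 2 * ⟪x₀, G y⟫ + 2 * ⟪G y, y - x₀⟫)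
        (volume.restrict (ball x₀ s)) := (i1.const_mul 2).add (i2.const_mul 2)
    have j2 : Integrable (fun y => 2 * ⟪x₀, G y⟫ + 2 * ⟪G y, y - x₀⟫ - 2 * Psi A y)
        (volume.restrict (ball x₀ s)) := j1.sub (i3.const_mul 2)
    have j3 : Integrable (fun y => 2 * ⟪x₀, G y⟫ + 2 * ⟪G y, y - x₀⟫ - 2 * Psi A y -
        2 * ⟪g, G y⟫) (volume.restrict (ball x₀ s)) := j2.sub (i4.const_mul 2)
    rw [h1, integral_add j3 hc, integral_sub j2 (i4.const_mul 2), integral_sub j1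
      (i3.const_mul 2), integral_add (i1.const_mul 2) (i2.const_mul 2), integral_const_mul,
      integral_const_mul, integral_const_mul, integral_const_mul, hmom, hmean,
      integral_inner hG1, integral_inner hG1, hG3, inner_smul_right, inner_smul_right,
      real_inner_self_eq_norm_sq, integral_const, smul_eq_mul, hid0,
      measureReal_restrict_apply_univ]
    ring
  have hi : Integrable (fun y => ‖G y - g‖ ^ 2) (volume.restrict (ball x₀ s)) := by
    have hc : Integrable (fun _ : E n => ‖g‖ ^ 2) (volume.restrict (ball x₀ s)) :=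
      integrableOn_const (by exact measure_ball_lt_top.ne)
    have h1 : Integrable (fun y => (‖G y‖ ^ 2 - 2 * ⟪g, G y⟫) + ‖g‖ ^ 2)
        (volume.restrict (ball x₀ s)) := (hG2.sub (i4.const_mul 2)).add hc
    refine h1.congr (Eventually.of_forall fun y => ?_)
    show ‖G y‖ ^ 2 - 2 * ⟪g, G y⟫ + ‖g‖ ^ 2 = ‖G y - g‖ ^ 2
    rw [norm_sub_sq_real, real_inner_comm g (G y)]
  rw [integral_eq_zero_iff_of_nonneg (fun y => sq_nonneg _) hi] at hv
  filter_upwards [hv] with y hy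
  have h1 : ‖G y - g‖ ^ 2 = 0 := hy
  have h2 : ‖G y - g‖ = 0 := by
    simpa using h1
  exact sub_eq_zero.1 (norm_eq_zero.1 h2)

end Pool.Agent.RH
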